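import Mathlib

set_option autoImplicit false

/-!
# Rainbow Hamiltonian paths through cuts

Let `C` be a finite family of cuts (two-colourings) of a finite nonempty set `V`, such that every
nonempty `X ⊆ V` is split by at least `|X| - 1` of the cuts. Then `V` has an ordering `p 0, p 1, …`
such that the pairs of consecutive elements are separated by distinct cuts.
-/

namespace Pool.Agent.X158.RainbowPath

open Finset

variable {α β : Type*} [DecidableEq α] [DecidableEq β]

/-- The cuts of `C` separating the `i`-th and the `(i+1)`-st point. -/
def sep (side : β → α → Bool) (C : Finset β) (p : ℕ → α) (i : ℕ) : Finset β :=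
  C.filter fun c => side c (p i) ≠ side c (p (i + 1))

/-- The cuts of `C` splitting `X`. -/
def splits (side : β → α → Bool) (C : Finset β) (X : Finset α) : Finset β :=
  C.filter fun c => ∃ x ∈ X, ∃ y ∈ X, side c x ≠ side c y

theorem mem_sep {side : β → α → Bool} {C : Finset β} {p : ℕ → α} {i : ℕ} {c : β} :
    c ∈ sep side C p i ↔ c ∈ C ∧ side c (p i) ≠ side c (p (i + 1)) := by
  simp [sep]

/-- Hall's condition for the consecutive pairs of a sequence of `m + 1` points. -/
def HallPath (side : β → α → Bool) (C : Finset β) (p : ℕ → α) (m : ℕ) : Prop :=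
  ∀ S ⊆ range m, S.card ≤ (S.biUnion (sep side C p)).card

/-- A sequence enumerating `V` that satisfies Hall's condition. -/
def Enum (side : β → α → Bool) (C : Finset β) (V : Finset α) (m : ℕ) (p : ℕ → α) : Prop :=
  (∀ i < m + 1, p i ∈ V) ∧ (∀ i < m + 1, ∀ j < m + 1, p i = p j → i = j) ∧ HallPath side C p m

/-- After removing a cut outside the largest tight set, Hall's condition persists. -/
theorem hall_erase {side : β → α → Bool} {C : Finset β} {p : ℕ → α} {m : ℕ}
    (h : HallPath side C p m) {T : Finset ℕ} (hT : T ⊆ range m)
    (htight : (T.biUnion (sep side C p)).card ≤ T.card)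
    (hmax : ∀ S ⊆ range m, (S.biUnion (sep side C p)).card ≤ S.card → S.card ≤ T.card)
    {c : β} (hc : c ∉ T.biUnion (sep side C p)) {S : Finset ℕ} (hS : S ⊆ range m) :
    S.card ≤ ((S.biUnion (sep side C p)).erase c).card := by
  by_cases hST : S ⊆ T
  · have : c ∉ S.biUnion (sep side C p) := fun hcS =>
      hc (Finset.biUnion_subset_biUnion_of_subset_left _ hST hcS)
    rw [Finset.erase_eq_of_notMem this]
    exact h S hS
  · have hU : (S ∪ T).card + 1 ≤ ((S ∪ T).biUnion (sep side C p)).card := by
      by_contra hlt
      have h1 : ((S ∪ T).biUnion (sep side C p)).card ≤ (S ∪ T).card := by omega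
      have h2 := hmax (S ∪ T) (union_subset hS hT) h1
      have h3 : T = S ∪ T := Finset.eq_of_subset_of_card_le subset_union_right h2
      exact hST (by rw [h3]; exact subset_union_left)
    -- `N(S) ∖ {c}` contains `N(S ∩ T)` and `N(S ∪ T) ∖ N(T) ∖ {c}`
    have h1 := h (S ∩ T) (inter_subset_left.trans hS)
    have h2 : ((S ∩ T).biUnion (sep side C p)) ∪
        ((((S ∪ T).biUnion (sep side C p)) \ (T.biUnion (sep side C p))).erase c) ⊆
        (S.biUnion (sep side C p)).erase c := by
      intro x hx
      rw [Finset.mem_union] at hx
      rw [Finset.mem_erase]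
      rcases hx with hx | hx
      · refine ⟨?_, Finset.biUnion_subset_biUnion_of_subset_left _ inter_subset_left hx⟩
        rintro rfl
        exact hc (Finset.biUnion_subset_biUnion_of_subset_left _ inter_subset_right hx)
      · rw [Finset.mem_erase, Finset.mem_sdiff] at hx
        refine ⟨hx.1, ?_⟩
        rw [Finset.union_biUnion, Finset.mem_union] at hx
        rcases hx.2.1 with h3 | h3
        · exact h3
        · exact absurd h3 hx.2.2
    have hdisj : Disjoint ((S ∩ T).biUnion (sep side C p))
        ((((S ∪ T).biUnion (sep side C p)) \ (T.biUnion (sep side C p))).erase c) := by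
      rw [Finset.disjoint_left]
      intro x hx hx'
      rw [Finset.mem_erase, Finset.mem_sdiff] at hx'
      exact hx'.2.2 (Finset.biUnion_subset_biUnion_of_subset_left _ inter_subset_right hx)
    have h3 := Finset.card_le_card h2
    rw [Finset.card_union_of_disjoint hdisj] at h3
    have h4 : (((S ∪ T).biUnion (sep side C p)) \ (T.biUnion (sep side C p))).card =
        ((S ∪ T).biUnion (sep side C p)).card - (T.biUnion (sep side C p)).card :=
      Finset.card_sdiff_of_subset
        (Finset.biUnion_subset_biUnion_of_subset_left _ subset_union_right)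
    have h5 := Finset.pred_card_le_card_erase
      (s := ((S ∪ T).biUnion (sep side C p)) \ (T.biUnion (sep side C p))) (a := c)
    have h6 := Finset.card_union_add_card_inter S T
    omega

/-- The insertion step. -/
theorem insertion {side : β → α → Bool} {C : Finset β} {W : Finset α} {v : α} {m : ℕ} {p : ℕ → α}
    (hv : v ∉ W) (hW : W.card = m + 1) (hp : Enum side C W m p)
    (hall : ∀ X ⊆ insert v W, X.Nonempty → X.card ≤ (splits side C X).card + 1) :
    ∃ q, Enum side C (insert v W) (m + 1) q := by
  obtain ⟨hpW, hpinj, hpH⟩ := hp
  -- a largest tight set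
  obtain ⟨T, hTmem, hTmax⟩ := Finset.exists_max_image
    ((range m).powerset.filter fun S => (S.biUnion (sep side C p)).card ≤ S.card)
    Finset.card ⟨∅, by simp⟩
  rw [Finset.mem_filter, Finset.mem_powerset] at hTmem
  obtain ⟨hT, htight⟩ := hTmem
  have hmax : ∀ S ⊆ range m, (S.biUnion (sep side C p)).card ≤ S.card → S.card ≤ T.card := by
    intro S hS hSt
    exact hTmax S (by rw [Finset.mem_filter, Finset.mem_powerset]; exact ⟨hS, hSt⟩)
  set N := T.biUnion (sep side C p) with hN
  -- the bad positions
  set Bd := (range (m + 1)).filter fun j => ∃ c ∈ C, c ∉ N ∧ side c (p j) ≠ side c v with hBd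
  have key : 0 ∈ Bd ∨ ∃ i ∈ T, i + 1 ∈ Bd := by
    by_contra hno
    push Not at hno
    obtain ⟨h0, h1⟩ := hno
    -- count the bad positions
    have hBc : Bd.card + T.card ≤ m := by
      have h2 : Bd.image (fun j => j - 1) ⊆ range m \ T := by
        intro i hi
        obtain ⟨j, hj, rfl⟩ := Finset.mem_image.1 hi
        have hj0 : j ≠ 0 := by rintro rfl; exact h0 hj
        have hjm : j < m + 1 := Finset.mem_range.1 (Finset.mem_filter.1 hj).1
        rw [Finset.mem_sdiff, Finset.mem_range]
        refine ⟨by omega, fun hjT => ?_⟩
        have := h1 _ hjT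
        rw [Nat.sub_add_cancel (by omega)] at this
        exact this hj
      have h3 := Finset.card_le_card h2
      rw [Finset.card_image_of_injOn, Finset.card_sdiff_of_subset hT, Finset.card_range] at h3
      · have h4 := Finset.card_le_card hT
        rw [Finset.card_range] at h4
        omega
      · intro a ha b hb hab
        have ha0 : a ≠ 0 := by rintro rfl; exact h0 (Finset.mem_coe.1 ha)
        have hb0 : b ≠ 0 := by rintro rfl; exact h0 (Finset.mem_coe.1 hb)
        simp only at hab
        omega
    -- the unsplit set
    set Y := insert v ((range (m + 1) \ Bd).image p) with hY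
    have hYsub : Y ⊆ insert v W := by
      intro y hy
      rw [hY, Finset.mem_insert] at hy
      rcases hy with rfl | hy
      · exact Finset.mem_insert_self _ _
      · obtain ⟨j, hj, rfl⟩ := Finset.mem_image.1 hy
        exact Finset.mem_insert_of_mem (hpW j (Finset.mem_range.1 (Finset.mem_sdiff.1 hj).1))
    have hYc : Y.card = (m + 1 - Bd.card) + 1 := by
      rw [hY, Finset.card_insert_of_notMem, Finset.card_image_of_injOn, Finset.card_sdiff_of_subset
        (Finset.filter_subset _ _), Finset.card_range]
      · intro a ha b hb hab
        have ha' := Finset.mem_range.1 (Finset.mem_sdiff.1 (Finset.mem_coe.1 ha)).1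
        have hb' := Finset.mem_range.1 (Finset.mem_sdiff.1 (Finset.mem_coe.1 hb)).1
        exact hpinj a ha' b hb' hab
      · intro hvim
        obtain ⟨j, hj, hjv⟩ := Finset.mem_image.1 hvim
        apply hv
        rw [← hjv]
        exact hpW j (Finset.mem_range.1 (Finset.mem_sdiff.1 hj).1)
    have hgood : ∀ y ∈ Y, ∀ c ∈ C, c ∉ N → side c y = side c v := by
      intro y hy c hc hcN
      rw [hY, Finset.mem_insert] at hy
      rcases hy with rfl | hy
      · rfl
      · obtain ⟨j, hj, rfl⟩ := Finset.mem_image.1 hy
        rw [Finset.mem_sdiff] at hj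
        by_contra hne
        exact hj.2 (Finset.mem_filter.2 ⟨hj.1, c, hc, hcN, hne⟩)
    have hsp : splits side C Y ⊆ N := by
      intro c hc
      obtain ⟨hcC, x, hx, y, hy, hxy⟩ := Finset.mem_filter.1 hc
      by_contra hcN
      exact hxy ((hgood x hx c hcC hcN).trans (hgood y hy c hcC hcN).symm)
    have h5 := hall Y hYsub ⟨v, Finset.mem_insert_self _ _⟩
    have h6 := Finset.card_le_card hsp
    omega
  rcases key with h0 | ⟨i, hiT, hi⟩
  · -- insert at the beginning
    obtain ⟨-, c, hcC, hcN, hcv⟩ := Finset.mem_filter.1 h0
    refine ⟨fun k => if k = 0 then v else p (k - 1), ?_, ?_, ?_⟩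
    · intro k hk
      by_cases hk0 : k = 0
      · simp [hk0]
      · simp only [hk0, if_false]
        exact Finset.mem_insert_of_mem (hpW _ (by omega))
    · intro a ha b hb hab
      by_cases ha0 : a = 0 <;> by_cases hb0 : b = 0
      · omega
      · simp only [ha0, hb0, if_true, if_false] at hab
        exact absurd (hab ▸ hpW (b - 1) (by omega)) hv
      · simp only [ha0, hb0, if_true, if_false] at hab
        exact absurd (hab ▸ hpW (a - 1) (by omega)) hv
      · simp only [ha0, hb0, if_false] at hab
        have := hpinj _ (by omega) _ (by omega) hab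
        omega
    · intro S hS
      set S' := (S.erase 0).image (fun k => k - 1) with hS'
      have hS'sub : S' ⊆ range m := by
        intro i hi
        obtain ⟨k, hk, rfl⟩ := Finset.mem_image.1 hi
        have h1 := Finset.mem_range.1 (hS (Finset.mem_of_mem_erase hk))
        have h2 := Finset.ne_of_mem_erase hk
        rw [Finset.mem_range]; omega
      have hS'c : S'.card = (S.erase 0).card := by
        apply Finset.card_image_of_injOn
        intro a ha b hb hab
        have h1 := Finset.ne_of_mem_erase (Finset.mem_coe.1 ha)
        have h2 := Finset.ne_of_mem_erase (Finset.mem_coe.1 hb)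
        simp only at hab
        omega
      have hsub : S'.biUnion (sep side C p) ⊆
          S.biUnion (sep side C fun k => if k = 0 then v else p (k - 1)) := by
        intro x hx
        obtain ⟨i, hi, hxi⟩ := Finset.mem_biUnion.1 hx
        obtain ⟨k, hk, rfl⟩ := Finset.mem_image.1 hi
        have h2 := Finset.ne_of_mem_erase hk
        refine Finset.mem_biUnion.2 ⟨k, Finset.mem_of_mem_erase hk, ?_⟩
        rw [mem_sep] at hxi ⊢
        simp only [h2, if_false, Nat.succ_ne_zero, Nat.add_sub_cancel]
        rw [Nat.sub_add_cancel (by omega)] at hxi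
        exact hxi
      by_cases h0S : 0 ∈ S
      · have h1 := hall_erase hpH hT htight hmax hcN hS'sub
        have h2 : insert c ((S'.biUnion (sep side C p)).erase c) ⊆
            S.biUnion (sep side C fun k => if k = 0 then v else p (k - 1)) := by
          intro x hx
          rw [Finset.mem_insert] at hx
          rcases hx with rfl | hx
          · refine Finset.mem_biUnion.2 ⟨0, h0S, ?_⟩
            rw [mem_sep]
            refine ⟨hcC, ?_⟩
            simpa using hcv.symm
          · exact hsub (Finset.mem_of_mem_erase hx)
        have h3 := Finset.card_le_card h2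
        rw [Finset.card_insert_of_notMem (Finset.notMem_erase _ _)] at h3
        have h4 := Finset.card_erase_add_one h0S
        omega
      · have h1 := hpH S' hS'sub
        have h2 := Finset.card_le_card hsub
        rw [Finset.erase_eq_of_notMem h0S] at hS'c
        omega
  · -- insert between the positions `i` and `i + 1`
    have him : i < m := Finset.mem_range.1 (hT hiT)
    obtain ⟨-, c, hcC, hcN, hcv⟩ := Finset.mem_filter.1 hi
    have hcv' : side c (p i) ≠ side c v := by
      have h1 : side c (p i) = side c (p (i + 1)) := by
        by_contra hne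
        exact hcN (Finset.mem_biUnion.2 ⟨i, hiT, mem_sep.2 ⟨hcC, hne⟩⟩)
      rw [h1]; exact hcv
    set q : ℕ → α := fun k => if k ≤ i then p k else if k = i + 1 then v else p (k - 1) with hq
    have q1 : ∀ k, k ≤ i → q k = p k := fun k hk => by simp [hq, hk]
    have q2 : q (i + 1) = v := by simp [hq]
    have q3 : ∀ k, i + 2 ≤ k → q k = p (k - 1) := fun k hk => by
      have h1 : ¬ k ≤ i := by omega
      have h2 : k ≠ i + 1 := by omega
      simp [hq, h1, h2]
    have qcases : ∀ k, k ≤ i ∨ k = i + 1 ∨ i + 2 ≤ k := fun k => by omega
    refine ⟨q, ?_, ?_, ?_⟩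
    · intro k hk
      rcases qcases k with h | h | h
      · rw [q1 k h]; exact Finset.mem_insert_of_mem (hpW _ (by omega))
      · rw [h, q2]; exact Finset.mem_insert_self _ _
      · rw [q3 k h]; exact Finset.mem_insert_of_mem (hpW _ (by omega))
    · intro a ha b hb hab
      rcases qcases a with h | h | h <;> rcases qcases b with h' | h' | h'
      · rw [q1 a h, q1 b h'] at hab
        exact hpinj _ (by omega) _ (by omega) hab
      · rw [q1 a h, h', q2] at hab
        exact absurd (hab ▸ hpW a (by omega)) hv
      · rw [q1 a h, q3 b h'] at hab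
        have := hpinj _ (by omega) _ (by omega) hab
        omega
      · rw [h, q2, q1 b h'] at hab
        exact absurd (hab ▸ hpW b (by omega)) hv
      · omega
      · rw [h, q2, q3 b h'] at hab
        exact absurd (hab ▸ hpW (b - 1) (by omega)) hv
      · rw [q3 a h, q1 b h'] at hab
        have := hpinj _ (by omega) _ (by omega) hab
        omega
      · rw [q3 a h, h', q2] at hab
        exact absurd (hab ▸ hpW (a - 1) (by omega)) hv
      · rw [q3 a h, q3 b h'] at hab
        have := hpinj _ (by omega) _ (by omega) hab
        omega
    · intro S hS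
      -- the old edges in `S`
      set S₁ := S.filter fun k => k < i with hS₁
      set S₂ := (S.filter fun k => i + 2 ≤ k).image (fun k => k - 1) with hS₂
      have hS₂c : S₂.card = (S.filter fun k => i + 2 ≤ k).card := by
        apply Finset.card_image_of_injOn
        intro a ha b hb hab
        have h1 := (Finset.mem_filter.1 (Finset.mem_coe.1 ha)).2
        have h2 := (Finset.mem_filter.1 (Finset.mem_coe.1 hb)).2
        simp only at hab
        omega
      have hdisj : Disjoint S₁ S₂ := by
        rw [Finset.disjoint_left]
        intro x hx hx'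
        obtain ⟨k, hk, rfl⟩ := Finset.mem_image.1 hx'
        have h1 := (Finset.mem_filter.1 hx).2
        have h2 := (Finset.mem_filter.1 hk).2
        omega
      have hS'sub : S₁ ∪ S₂ ⊆ range m := by
        intro x hx
        rw [Finset.mem_union] at hx
        rw [Finset.mem_range]
        rcases hx with hx | hx
        · have := (Finset.mem_filter.1 hx).2
          omega
        · obtain ⟨k, hk, rfl⟩ := Finset.mem_image.1 hx
          have h1 := Finset.mem_range.1 (hS (Finset.mem_filter.1 hk).1)
          have h2 := (Finset.mem_filter.1 hk).2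
          omega
      have hS'c : (S₁ ∪ S₂).card = S₁.card + (S.filter fun k => i + 2 ≤ k).card := by
        rw [Finset.card_union_of_disjoint hdisj, hS₂c]
      have hi' : i ∉ S₁ ∪ S₂ := by
        intro hx
        rw [Finset.mem_union] at hx
        rcases hx with hx | hx
        · exact lt_irrefl _ (Finset.mem_filter.1 hx).2
        · obtain ⟨k, hk, hki⟩ := Finset.mem_image.1 hx
          have := (Finset.mem_filter.1 hk).2
          omega
      have hsub : (S₁ ∪ S₂).biUnion (sep side C p) ⊆ S.biUnion (sep side C q) := by
        intro x hx
        obtain ⟨k, hk, hxk⟩ := Finset.mem_biUnion.1 hx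
        rw [Finset.mem_union] at hk
        rw [mem_sep] at hxk
        rcases hk with hk | hk
        · have h1 := (Finset.mem_filter.1 hk).2
          refine Finset.mem_biUnion.2 ⟨k, (Finset.mem_filter.1 hk).1, ?_⟩
          rw [mem_sep, q1 k (by omega), q1 (k + 1) (by omega)]
          exact hxk
        · obtain ⟨l, hl, rfl⟩ := Finset.mem_image.1 hk
          have h1 := (Finset.mem_filter.1 hl).2
          refine Finset.mem_biUnion.2 ⟨l, (Finset.mem_filter.1 hl).1, ?_⟩
          rw [mem_sep, q3 l h1, q3 (l + 1) (by omega), Nat.add_sub_cancel]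
          rw [Nat.sub_add_cancel (by omega)] at hxk
          exact hxk
      have ci : c ∈ sep side C q i := by
        rw [mem_sep, q1 i le_rfl, q2]; exact ⟨hcC, hcv'⟩
      have ci1 : c ∈ sep side C q (i + 1) := by
        rw [mem_sep, q2, q3 (i + 2) le_rfl]; exact ⟨hcC, hcv.symm⟩
      have hcardS : S.card ≤ S₁.card + (S.filter fun k => i + 2 ≤ k).card +
          (if i ∈ S then 1 else 0) + (if i + 1 ∈ S then 1 else 0) := by
        have h1 : S ⊆ ((S₁ ∪ (S.filter fun k => i + 2 ≤ k)) ∪ (if i ∈ S then {i} else ∅)) ∪
            (if i + 1 ∈ S then {i + 1} else ∅) := by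
          intro x hx
          rcases lt_trichotomy x i with h | h | h
          · simp [hS₁, hx, h]
          · subst h; simp [hx]
          · rcases eq_or_lt_of_le (Nat.succ_le_of_lt h) with h2 | h2
            · have h3 : x = i + 1 := h2.symm
              subst h3; simp [hx]
            · have h3 : i + 2 ≤ x := h2
              simp [hx, h3]
        refine (Finset.card_le_card h1).trans ?_
        refine (Finset.card_union_le _ _).trans ?_
        refine Nat.add_le_add ((Finset.card_union_le _ _).trans
          (Nat.add_le_add (Finset.card_union_le _ _) ?_)) ?_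
        · split_ifs <;> simp
        · split_ifs <;> simp
      by_cases hiS : i ∈ S <;> by_cases hi1S : i + 1 ∈ S
      · -- both new edges
        have hS''sub : insert i (S₁ ∪ S₂) ⊆ range m :=
          Finset.insert_subset (Finset.mem_range.2 him) hS'sub
        have h1 := hall_erase hpH hT htight hmax hcN hS''sub
        have h2 : insert c (((insert i (S₁ ∪ S₂)).biUnion (sep side C p)).erase c) ⊆
            S.biUnion (sep side C q) := by
          intro x hx
          rw [Finset.mem_insert] at hx
          rcases hx with rfl | hx
          · exact Finset.mem_biUnion.2 ⟨i, hiS, ci⟩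
          · have hx' := Finset.mem_of_mem_erase hx
            rw [Finset.biUnion_insert, Finset.mem_union] at hx'
            rcases hx' with hx' | hx'
            · rw [mem_sep] at hx'
              by_cases hxi : side x (p i) = side x v
              · refine Finset.mem_biUnion.2 ⟨i + 1, hi1S, ?_⟩
                rw [mem_sep, q2, q3 (i + 2) le_rfl]
                refine ⟨hx'.1, ?_⟩
                rw [← hxi]
                exact hx'.2
              · refine Finset.mem_biUnion.2 ⟨i, hiS, ?_⟩
                rw [mem_sep, q1 i le_rfl, q2]
                exact ⟨hx'.1, hxi⟩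
            · exact hsub hx'
        have h3 := Finset.card_le_card h2
        rw [Finset.card_insert_of_notMem (Finset.notMem_erase _ _)] at h3
        rw [Finset.card_insert_of_notMem hi', hS'c] at h1
        rw [if_pos hiS, if_pos hi1S] at hcardS
        omega
      · have h1 := hall_erase hpH hT htight hmax hcN hS'sub
        have h2 : insert c (((S₁ ∪ S₂).biUnion (sep side C p)).erase c) ⊆
            S.biUnion (sep side C q) := by
          intro x hx
          rw [Finset.mem_insert] at hx
          rcases hx with rfl | hx
          · exact Finset.mem_biUnion.2 ⟨i, hiS, ci⟩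
          · exact hsub (Finset.mem_of_mem_erase hx)
        have h3 := Finset.card_le_card h2
        rw [Finset.card_insert_of_notMem (Finset.notMem_erase _ _)] at h3
        rw [hS'c] at h1
        rw [if_pos hiS, if_neg hi1S] at hcardS
        omega
      · have h1 := hall_erase hpH hT htight hmax hcN hS'sub
        have h2 : insert c (((S₁ ∪ S₂).biUnion (sep side C p)).erase c) ⊆
            S.biUnion (sep side C q) := by
          intro x hx
          rw [Finset.mem_insert] at hx
          rcases hx with rfl | hx
          · exact Finset.mem_biUnion.2 ⟨i + 1, hi1S, ci1⟩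
          · exact hsub (Finset.mem_of_mem_erase hx)
        have h3 := Finset.card_le_card h2
        rw [Finset.card_insert_of_notMem (Finset.notMem_erase _ _)] at h3
        rw [hS'c] at h1
        rw [if_neg hiS, if_pos hi1S] at hcardS
        omega
      · have h1 := hpH _ hS'sub
        have h2 := Finset.card_le_card hsub
        rw [hS'c] at h1
        rw [if_neg hiS, if_neg hi1S] at hcardS
        omega

theorem exists_enum {side : β → α → Bool} {C : Finset β} (m : ℕ) :
    ∀ V : Finset α, V.card = m + 1 →
      (∀ X ⊆ V, X.Nonempty → X.card ≤ (splits side C X).card + 1) →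
      ∃ p, Enum side C V m p := by
  induction m with
  | zero =>
    intro V hV _
    obtain ⟨v, rfl⟩ := Finset.card_eq_one.1 hV
    refine ⟨fun _ => v, fun _ _ => by simp, fun i hi j hj _ => by omega, ?_⟩
    intro S hS
    have : S = ∅ := by
      rw [← Finset.subset_empty]
      simpa using hS
    simp [this]
  | succ m ih =>
    intro V hV hall
    obtain ⟨v, hv⟩ : V.Nonempty := by
      rw [← Finset.card_pos]; omega
    have hW : (V.erase v).card = m + 1 := by
      rw [Finset.card_erase_of_mem hv]; omega
    obtain ⟨p, hp⟩ := ih (V.erase v) hW fun X hX hXne =>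
      hall X (hX.trans (Finset.erase_subset _ _)) hXne
    have := insertion (Finset.notMem_erase v V) hW hp (by
      rw [Finset.insert_erase hv]; exact hall)
    rwa [Finset.insert_erase hv] at this

/-- The rainbow Hamiltonian path. -/
theorem exists_path {side : β → α → Bool} {C : Finset β} {V : Finset α} {m : ℕ}
    (hV : V.card = m + 1)
    (hall : ∀ X ⊆ V, X.Nonempty → X.card ≤ (splits side C X).card + 1) :
    ∃ (p : ℕ → α) (c : Fin m → β), (∀ i < m + 1, p i ∈ V) ∧
      (∀ i < m + 1, ∀ j < m + 1, p i = p j → i = j) ∧ Function.Injective c ∧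
      (∀ i, c i ∈ C) ∧ ∀ i : Fin m, side (c i) (p i) ≠ side (c i) (p (i + 1)) := by
  obtain ⟨p, h1, h2, h3⟩ := exists_enum m V hV hall
  have hH : ∀ S : Finset (Fin m), S.card ≤ (S.biUnion fun i => sep side C p i).card := by
    intro S
    have h4 := h3 (S.map Fin.valEmbedding) (by
      intro x hx
      obtain ⟨i, -, rfl⟩ := Finset.mem_map.1 hx
      exact Finset.mem_range.2 i.2)
    rw [Finset.card_map] at h4
    have h5 : (S.map Fin.valEmbedding).biUnion (sep side C p) =
        S.biUnion fun i => sep side C p i := by
      ext x
      simp only [Finset.mem_biUnion, Finset.mem_map, Fin.valEmbedding_apply]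
      constructor
      · rintro ⟨_, ⟨i, hi, rfl⟩, hx⟩
        exact ⟨i, hi, hx⟩
      · rintro ⟨i, hi, hx⟩
        exact ⟨_, ⟨i, hi, rfl⟩, hx⟩
    rwa [h5] at h4
  obtain ⟨c, hc, hc'⟩ := (Finset.all_card_le_biUnion_card_iff_exists_injective _).1 hH
  refine ⟨p, c, h1, h2, hc, fun i => (mem_sep.1 (hc' i)).1, fun i => (mem_sep.1 (hc' i)).2⟩

end Pool.Agent.X158.RainbowPath
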