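import Pool.Agent.X158.IsoData

/-!
Integer checks on the data of `IsoData`, by kernel computation.
-/

namespace Pool.Agent.X158.Iso

/-- the coefficients of plane `i` -/
def pl (i : Fin 24) : Q := planes[i.val]!

/-- 3×3 determinant of the normals -/
def det3 (p q r : Q) : ℤ :=
  p.1 * (q.2.1 * r.2.2.1 - q.2.2.1 * r.2.1) - p.2.1 * (q.1 * r.2.2.1 - q.2.2.1 * r.1)
    + p.2.2.1 * (q.1 * r.2.1 - q.2.1 * r.1)

/-- 4×4 determinant -/
def det4 (p q r s : Q) : ℤ :=
  s.2.2.2 * det3 p q r - r.2.2.2 * det3 p q s + q.2.2.2 * det3 p r s - p.2.2.2 * det3 q r s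

/-- value of the plane equation at a homogeneous point -/
def ev (h : Q) (X Y Z W : ℤ) : ℤ := h.1 * X + h.2.1 * Y + h.2.2.1 * Z + h.2.2.2 * W

/-- `j`-th digit in base `2 ^ w` -/
def dig (big w j : ℕ) : ℕ := (big >>> (w * j)) % 2 ^ w

/-- first coordinate packed in a 96-bit number -/
def cX (c : ℕ) : ℤ := ((c % 2 ^ 24 : ℕ) : ℤ) - 8388608
/-- second coordinate -/
def cY (c : ℕ) : ℤ := (((c >>> 24) % 2 ^ 24 : ℕ) : ℤ) - 8388608
/-- third coordinate -/
def cZ (c : ℕ) : ℤ := (((c >>> 48) % 2 ^ 24 : ℕ) : ℤ) - 8388608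
/-- homogeneous coordinate -/
def cW (c : ℕ) : ℤ := (((c >>> 72) % 2 ^ 24 : ℕ) : ℤ)

/-- the point packed in `c` lies in the chamber with mask `m` -/
def okPt (m c : ℕ) : Bool :=
  decide (0 < cW c) &&
    decide (∀ i : Fin 24, if m.testBit i then 0 < ev (pl i) (cX c) (cY c) (cZ c) (cW c)
      else ev (pl i) (cX c) (cY c) (cZ c) (cW c) < 0)

/-- mask of chamber `j` of `S` -/
def kS (j : ℕ) : ℕ := dig keyS 24 j

/-- mask of chamber `j` outside `S`, padded by `2 ^ 24` -/
def kN (j : ℕ) : ℕ := if j < 1165 then dig keyN 24 j else 2 ^ 24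

/-- binary search in the masks outside `S` -/
def bs : ℕ → ℕ → ℕ → Bool
  | 0, lo, x => kN lo == x
  | n + 1, lo, x => if kN (lo + 2 ^ n) ≤ x then bs n (lo + 2 ^ n) x else bs n lo x

/-- number of neighbours outside `S` of chamber `j` of `S` -/
def row (j : ℕ) : ℕ := ((List.range 24).filter (fun i => bs 11 0 (kS j ^^^ 2 ^ i))).length

/-- number of boundary edges at the first `n` chambers of `S` -/
def tot : ℕ → ℕ
  | 0 => 0
  | n + 1 => tot n + row n

theorem triples : ∀ i j : Fin 24, i < j → ∀ k : Fin 24, j < k → det3 (pl i) (pl j) (pl k) ≠ 0 := by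
  decide +kernel

theorem quads : ∀ i j : Fin 24, i < j → ∀ k : Fin 24, j < k → ∀ l : Fin 24, k < l →
    det4 (pl i) (pl j) (pl k) (pl l) ≠ 0 := by
  decide +kernel

theorem ptsS : ∀ j < 1160, okPt (kS j) (dig ptS 96 j) = true := by
  decide +kernel

theorem ptsN : ∀ j < 1165, okPt (kN j) (dig ptN 96 j) = true := by
  decide +kernel

theorem sortS : ∀ j < 1159, kS j < kS (j + 1) := by
  decide +kernel

theorem sortN : ∀ j < 1164, kN j < kN (j + 1) := by
  decide +kernel

theorem bsN : ∀ j < 1165, bs 11 0 (kN j) = true := by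
  decide +kernel

theorem bsS : ∀ j < 1160, bs 11 0 (kS j) = false := by
  decide +kernel

theorem tot_le : tot 1160 ≤ 187 := by
  decide +kernel

end Pool.Agent.X158.Iso
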