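import Mathlib

set_option autoImplicit false

/-!
# Relative interiors of convex sets

The lemmas of the first section are copied from the starting file
`Pool.Agent.Results.MP_d6d24d_co.NoDual`.
-/

namespace Pool.Agent.X158.RelInt

section convex

variable {E : Type*} [NormedAddCommGroup E] [NormedSpace ℝ E]

lemma mem_ri {s : Set E} {x : E} : x ∈ intrinsicInterior ℝ s ↔
    x ∈ affineSpan ℝ s ∧ ∃ ε > 0, ∀ w ∈ affineSpan ℝ s, dist w x < ε → w ∈ s := by
  rw [mem_intrinsicInterior]
  constructor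
  · rintro ⟨y, hy, rfl⟩
    refine ⟨y.2, ?_⟩
    rw [mem_interior_iff_mem_nhds, Metric.mem_nhds_iff] at hy
    obtain ⟨ε, hε, h⟩ := hy
    refine ⟨ε, hε, fun w hw hd => ?_⟩
    exact h (show (⟨w, hw⟩ : affineSpan ℝ s) ∈ Metric.ball y ε from hd)
  · rintro ⟨hx, ε, hε, h⟩
    refine ⟨⟨x, hx⟩, ?_, rfl⟩
    rw [mem_interior_iff_mem_nhds, Metric.mem_nhds_iff]
    refine ⟨ε, hε, fun w hw => ?_⟩
    exact h w w.2 hw

lemma aff_comb {s : Set E} {x y : E} (hx : x ∈ affineSpan ℝ s) (hy : y ∈ affineSpan ℝ s)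
    {z : E} (hz : z ∈ affineSpan ℝ s) (c : ℝ) : x + c • (y - z) ∈ affineSpan ℝ s := by
  have h1 : y -ᵥ z ∈ (affineSpan ℝ s).direction := AffineSubspace.vsub_mem_direction hy hz
  have h2 := (affineSpan ℝ s).direction.smul_mem c h1
  have h3 := AffineSubspace.vadd_mem_of_mem_direction h2 hx
  simpa [vsub_eq_sub, vadd_eq_add, add_comm] using h3

/-- From a point of the relative interior one can extend segments a little. -/
lemma extend_ri {s : Set E} {x y : E} (hx : x ∈ intrinsicInterior ℝ s) (hy : y ∈ s) :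
    ∃ z ∈ s, x ∈ openSegment ℝ y z := by
  obtain ⟨hxa, ε, hε, h⟩ := mem_ri.1 hx
  have hya : y ∈ affineSpan ℝ s := subset_affineSpan ℝ s hy
  set c : ℝ := ε / (2 * (‖x - y‖ + 1)) with hc
  have hn : 0 ≤ ‖x - y‖ := norm_nonneg _
  have hc0 : 0 < c := by positivity
  refine ⟨x + c • (x - y), h _ (aff_comb hxa hxa hya c) ?_, ?_⟩
  · rw [dist_eq_norm, add_sub_cancel_left, norm_smul, Real.norm_of_nonneg hc0.le, hc]
    rw [div_mul_eq_mul_div, div_lt_iff₀ (by positivity)]
    nlinarith
  · refine ⟨c / (1 + c), 1 / (1 + c), by positivity, by positivity, by field_simp; ring, ?_⟩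
    have : (1 + c) ≠ 0 := by positivity
    have e : (c / (1 + c)) • y + (1 / (1 + c)) • (x + c • (x - y)) =
        ((1 / (1 + c)) * (1 + c)) • x := by
      rw [smul_add, smul_smul, smul_sub]
      module
    rw [e, one_div_mul_cancel this, one_smul]

/-- The open segment from a relative interior point to a point of the closure consists of points
of the set. -/
lemma segment_ri {s : Set E} [FiniteDimensional ℝ E] (hs : Convex ℝ s) {x y z : E}
    (hy : y ∈ intrinsicInterior ℝ s)
    (hz : z ∈ closure s) (hx : x ∈ openSegment ℝ y z) : x ∈ intrinsicInterior ℝ s := by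
  obtain ⟨hya, ε, hε, h⟩ := mem_ri.1 hy
  obtain ⟨a, b, ha, hb, hab, rfl⟩ := hx
  have hza : z ∈ affineSpan ℝ s := by
    have : closure s ⊆ (affineSpan ℝ s : Set E) := by
      apply closure_minimal (subset_affineSpan ℝ s)
      exact AffineSubspace.closed_of_finiteDimensional _
    exact this hz
  have hxa : a • y + b • z ∈ affineSpan ℝ s := by
    have := aff_comb hya hza hya b
    have e : y + b • (z - y) = a • y + b • z := by
      rw [show a = 1 - b by linarith]; module
    rwa [e] at this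
  rw [mem_ri]
  refine ⟨hxa, a * ε / 2, by positivity, fun w hw hd => ?_⟩
  -- a point of `s` close to `z`
  obtain ⟨z', hz's, hz'd⟩ := Metric.mem_closure_iff.1 hz (a * ε / (2 * b)) (by positivity)
  have hz'a := subset_affineSpan ℝ s hz's
  have hy'' : y + (1 / a) • ((w - (a • y + b • z)) + b • (z - z')) ∈ s := by
    apply h
    · have h1 := aff_comb hya hw hxa (1 / a)
      have h2 := aff_comb h1 hza hz'a ((1 / a) * b)
      convert h2 using 1
      module
    · rw [dist_eq_norm, add_sub_cancel_left, norm_smul, Real.norm_of_nonneg (by positivity)]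
      have n1 : ‖w - (a • y + b • z)‖ < a * ε / 2 := by rwa [dist_eq_norm] at hd
      have n2 : ‖b • (z - z')‖ < a * ε / 2 := by
        rw [norm_smul, Real.norm_of_nonneg hb.le, ← dist_eq_norm]
        calc b * dist z z' < b * (a * ε / (2 * b)) := by
              exact mul_lt_mul_of_pos_left hz'd hb
          _ = a * ε / 2 := by field_simp
      calc 1 / a * ‖w - (a • y + b • z) + b • (z - z')‖
          ≤ 1 / a * (‖w - (a • y + b • z)‖ + ‖b • (z - z')‖) :=
            mul_le_mul_of_nonneg_left (norm_add_le _ _) (by positivity)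
        _ < 1 / a * (a * ε / 2 + a * ε / 2) := by
            apply mul_lt_mul_of_pos_left (add_lt_add n1 n2) (by positivity)
        _ = ε := by field_simp; ring
  have := hs hy'' hz's ha.le hb.le hab
  convert this using 1
  rw [smul_add, smul_smul, mul_one_div_cancel ha.ne', one_smul]
  module


/-- A point from which every point of the convex set can be moved beyond is in the relative
interior. -/
lemma ri_of_extend {s : Set E} [FiniteDimensional ℝ E] (hs : Convex ℝ s) {x : E} (hx : x ∈ s)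
    (h : ∀ y ∈ s, ∃ z ∈ s, x ∈ openSegment ℝ y z) : x ∈ intrinsicInterior ℝ s := by
  obtain ⟨y, hy⟩ := (intrinsicInterior_nonempty hs).2 ⟨x, hx⟩
  obtain ⟨z, hz, hxz⟩ := h y (intrinsicInterior_subset hy)
  exact segment_ri hs hy (subset_closure hz) hxz

end convex

section finite

open Finset

variable {E : Type*} [NormedAddCommGroup E] [NormedSpace ℝ E]

/-- `x` is a convex combination of the points of `A` with positive coefficients. -/
def PosComb (A : Finset E) (x : E) : Prop :=
  ∃ w : E → ℝ, (∀ a ∈ A, 0 < w a) ∧ ∑ a ∈ A, w a = 1 ∧ ∑ a ∈ A, w a • a = x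

theorem mem_hull_iff (A : Finset E) (x : E) : x ∈ convexHull ℝ (A : Set E) ↔
    ∃ w : E → ℝ, (∀ a ∈ A, 0 ≤ w a) ∧ ∑ a ∈ A, w a = 1 ∧ ∑ a ∈ A, w a • a = x := by
  rw [Finset.convexHull_eq]
  simp only [Set.mem_ofPred_eq]
  constructor
  · rintro ⟨w, h0, h1, h2⟩
    refine ⟨w, h0, h1, ?_⟩
    rw [← h2, Finset.centerMass_eq_of_sum_1 _ _ h1]
    rfl
  · rintro ⟨w, h0, h1, h2⟩
    refine ⟨w, h0, h1, ?_⟩
    rw [Finset.centerMass_eq_of_sum_1 _ _ h1]
    exact h2

theorem PosComb.mem_ri [FiniteDimensional ℝ E] {A : Finset E} {x : E} (h : PosComb A x) :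
    x ∈ intrinsicInterior ℝ (convexHull ℝ (A : Set E)) := by
  obtain ⟨w, h0, h1, h2⟩ := h
  have hx : x ∈ convexHull ℝ (A : Set E) := (mem_hull_iff A x).2 ⟨w, fun a ha => (h0 a ha).le, h1, h2⟩
  apply ri_of_extend (convex_convexHull ℝ _) hx
  intro y hy
  obtain ⟨u, u0, u1, u2⟩ := (mem_hull_iff A y).1 hy
  -- a common lower bound for the weights
  have hA : A.Nonempty := by
    rw [nonempty_iff_ne_empty]
    rintro rfl
    simp at h1
  obtain ⟨t, ht, htw⟩ : ∃ t : ℝ, 0 < t ∧ ∀ a ∈ A, t * u a ≤ w a := by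
    obtain ⟨a₀, ha₀, hmin⟩ := A.exists_min_image w hA
    refine ⟨w a₀, h0 a₀ ha₀, fun a ha => ?_⟩
    have h3 : u a ≤ 1 := by
      rw [← u1]
      exact Finset.single_le_sum u0 ha
    have h4 := hmin a ha
    have h5 := h0 a₀ ha₀
    have h6 := u0 a ha
    nlinarith
  refine ⟨x + t • (x - y), ?_, ?_⟩
  · rw [mem_hull_iff]
    refine ⟨fun a => (1 + t) * w a - t * u a, fun a ha => ?_, ?_, ?_⟩
    · have h3 := htw a ha
      have h4 := h0 a ha
      nlinarith
    · rw [Finset.sum_sub_distrib, ← Finset.mul_sum, ← Finset.mul_sum, h1, u1]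
      ring
    · simp_rw [sub_smul, mul_smul]
      rw [Finset.sum_sub_distrib, ← Finset.smul_sum, ← Finset.smul_sum, h2, u2]
      module
  · refine ⟨t / (1 + t), 1 / (1 + t), by positivity, by positivity, by field_simp; ring, ?_⟩
    match_scalars <;> field_simp <;> ring

theorem posComb_of_mem_ri {A : Finset E} {x : E}
    (h : x ∈ intrinsicInterior ℝ (convexHull ℝ (A : Set E))) : PosComb A x := by
  have hx := intrinsicInterior_subset h
  have hA : A.Nonempty := by
    rw [nonempty_iff_ne_empty]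
    rintro rfl
    simp at hx
  have hc : (0 : ℝ) < A.card := by exact_mod_cast hA.card_pos
  have hy : (∑ a ∈ A, (A.card : ℝ)⁻¹ • a) ∈ convexHull ℝ (A : Set E) := by
    rw [mem_hull_iff]
    refine ⟨fun _ => (A.card : ℝ)⁻¹, fun a _ => by positivity, ?_, rfl⟩
    rw [Finset.sum_const, nsmul_eq_mul, mul_inv_cancel₀ hc.ne']
  obtain ⟨z, hz, s, t, hs, ht, hst, he⟩ := extend_ri h hy
  obtain ⟨u, u0, u1, u2⟩ := (mem_hull_iff A z).1 hz
  refine ⟨fun a => s * (A.card : ℝ)⁻¹ + t * u a, fun a ha => ?_, ?_, ?_⟩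
  · have := u0 a ha
    positivity
  · rw [Finset.sum_add_distrib, Finset.sum_const, nsmul_eq_mul, ← Finset.mul_sum, u1]
    field_simp
    linarith
  · simp_rw [add_smul, mul_smul]
    rw [Finset.sum_add_distrib, ← he, ← u2, Finset.smul_sum, Finset.smul_sum]

end finite

end Pool.Agent.X158.RelInt
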