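import Mathlib

set_option autoImplicit false

namespace Pool.Agent.X158.CairnsLem

open Finset

variable {E : Type*} [AddCommGroup E] [Module ℝ E]

lemma sep [DecidableEq E] (S T : Finset E) (g : E →ₗ[ℝ] ℝ) (c : ℝ)
    (h1 : ∀ v ∈ S, v ∉ T → 0 < g v + c) (h2 : ∀ v ∈ S, 0 ≤ g v + c)
    (h3 : ∀ v ∈ T, g v + c ≤ 0) (x : E)
    (hx1 : x ∈ convexHull ℝ (S : Set E)) (hx2 : x ∈ convexHull ℝ (T : Set E)) :
    x ∈ convexHull ℝ ((S ∩ T : Finset E) : Set E) := by
  classical
  have hle : g x + c ≤ 0 := by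
    have hconv : Convex ℝ {y : E | g y + c ≤ 0} := by
      intro y hy z hz a b ha hb hab
      simp only [Set.mem_setOf_eq] at hy hz ⊢
      rw [map_add, map_smul, map_smul, smul_eq_mul, smul_eq_mul]
      have : a * g y + b * g z + c = a * (g y + c) + b * (g z + c) := by
        have : c = (a + b) * c := by rw [hab, one_mul]
        linarith
      rw [this]
      nlinarith
    have := convexHull_min (s := (T : Set E)) (t := {y : E | g y + c ≤ 0})
      (fun v hv => h3 v hv) hconv hx2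
    exact this
  rw [Finset.mem_convexHull'] at hx1
  obtain ⟨w, hw0, hw1, hwx⟩ := hx1
  have hsum : ∑ y ∈ S, w y * (g y + c) = g x + c := by
    rw [← hwx, map_sum]
    simp_rw [map_smul, smul_eq_mul, mul_add]
    rw [Finset.sum_add_distrib, ← Finset.sum_mul, hw1, one_mul]
  have hnn : ∀ y ∈ S, 0 ≤ w y * (g y + c) := fun y hy => mul_nonneg (hw0 y hy) (h2 y hy)
  have hz : ∀ y ∈ S, w y * (g y + c) = 0 := by
    have h0 : ∑ y ∈ S, w y * (g y + c) = 0 :=
      le_antisymm (by rw [hsum]; exact hle) (Finset.sum_nonneg hnn)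
    exact (Finset.sum_eq_zero_iff_of_nonneg hnn).1 h0
  have hw : ∀ y ∈ S, y ∉ S ∩ T → w y = 0 := by
    intro y hy hyn
    have hyT : y ∉ T := fun h => hyn (Finset.mem_inter.2 ⟨hy, h⟩)
    rcases mul_eq_zero.1 (hz y hy) with h | h
    · exact h
    · exact absurd h (ne_of_gt (h1 y hy hyT))
  rw [Finset.mem_convexHull']
  refine ⟨w, fun y hy => hw0 y (Finset.mem_inter.1 hy).1, ?_, ?_⟩
  · rw [← hw1]
    exact Finset.sum_subset Finset.inter_subset_left (fun y hy hyn => hw y hy hyn)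
  · rw [← hwx]
    exact Finset.sum_subset Finset.inter_subset_left
      (fun y hy hyn => by rw [hw y hy hyn, zero_smul])

lemma glue [DecidableEq E] (S T S' T' : Finset E)
    (hS : AffineIndependent ℝ ((↑) : S → E)) (hT : AffineIndependent ℝ ((↑) : T → E))
    (hS' : S' ⊆ S) (hT' : T' ⊆ T) (g : E →ₗ[ℝ] ℝ) (c : ℝ)
    (h1 : ∀ v ∈ S, v ∉ T → 0 < g v + c) (h2 : ∀ v ∈ S, 0 ≤ g v + c)
    (h3 : ∀ v ∈ T, g v + c ≤ 0) :
    convexHull ℝ (S' : Set E) ∩ convexHull ℝ (T' : Set E) ⊆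
      convexHull ℝ ((S' : Set E) ∩ (T' : Set E)) := by
  rintro x ⟨hx1, hx2⟩
  have hxI : x ∈ convexHull ℝ ((S ∩ T : Finset E) : Set E) :=
    sep S T g c h1 h2 h3 x (convexHull_mono (by exact_mod_cast hS') hx1)
      (convexHull_mono (by exact_mod_cast hT') hx2)
  have e1 := AffineIndependent.convexHull_inter hS hS' (Finset.inter_subset_left (s₁ := S) (s₂ := T))
  have e2 := AffineIndependent.convexHull_inter hT hT' (Finset.inter_subset_right (s₁ := S) (s₂ := T))
  have x1 : x ∈ convexHull ℝ ((S' : Set E) ∩ ((S ∩ T : Finset E) : Set E)) := by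
    rw [e1]; exact ⟨hx1, hxI⟩
  have x2 : x ∈ convexHull ℝ ((T' : Set E) ∩ ((S ∩ T : Finset E) : Set E)) := by
    rw [e2]; exact ⟨hx2, hxI⟩
  have e3 := AffineIndependent.convexHull_inter (t₁ := S' ∩ (S ∩ T)) (t₂ := T' ∩ (S ∩ T)) hS
    (Finset.inter_subset_left.trans hS')
    (Finset.inter_subset_right.trans Finset.inter_subset_left)
  have x3 : x ∈ convexHull ℝ (((S' ∩ (S ∩ T) : Finset E) : Set E) ∩
      ((T' ∩ (S ∩ T) : Finset E) : Set E)) := by
    rw [e3]
    exact ⟨by rw [Finset.coe_inter S' (S ∩ T)]; exact x1, by rw [Finset.coe_inter T' (S ∩ T)]; exact x2⟩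
  refine convexHull_mono ?_ x3
  intro y hy
  simp only [Finset.coe_inter, Set.mem_inter_iff] at hy ⊢
  exact ⟨hy.1.1, hy.2.1⟩

/-- affine independence from separating functionals -/
lemma indep_of_dual [DecidableEq E] (S : Finset E)
    (h : ∀ v ∈ S, ∃ (g : E →ₗ[ℝ] ℝ) (c : ℝ), g v + c ≠ 0 ∧ ∀ w ∈ S, w ≠ v → g w + c = 0) :
    AffineIndependent ℝ ((↑) : S → E) := by
  rw [affineIndependent_iff]
  intro s w hw0 hw1 e he
  obtain ⟨g, c, h1, h2⟩ := h e.1 e.2
  have : ∑ i ∈ s, w i * (g i.1 + c) = 0 := by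
    have h3 : g (∑ i ∈ s, w i • (i : E)) = 0 := by rw [hw1, map_zero]
    rw [map_sum] at h3
    simp_rw [map_smul, smul_eq_mul] at h3
    simp_rw [mul_add]
    rw [Finset.sum_add_distrib, ← Finset.sum_mul, hw0, h3, zero_mul, add_zero]
  rw [Finset.sum_eq_single e] at this
  · exact (mul_eq_zero.1 this).resolve_right h1
  · intro b _ hbe
    rw [h2 b.1 b.2 (fun h => hbe (Subtype.ext h)), mul_zero]
  · intro h; exact absurd he h

end Pool.Agent.X158.CairnsLem
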