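import Mathlib

set_option autoImplicit false

namespace Pool.Agent.X158.EquiShape

open Finset

abbrev F := ZMod 41

instance fact41 : Fact (Nat.Prime 41) := ⟨by norm_num⟩

/-- third differences vanish implies quadratic -/
lemma quad (g : F → F) (hd : ∀ t, g t - 3 * g (t + 1) + 3 * g (t + 2) - g (t + 3) = 0) :
    ∃ a b c : F, ∀ t, g t = a * t ^ 2 + b * t + c := by
  have h2 : (2 : F) ≠ 0 := by decide
  set c := g 0 with hc
  set a := (g 2 - 2 * g 1 + g 0) / 2 with ha
  set b := g 1 - a - c with hb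
  refine ⟨a, b, c, ?_⟩
  have key : ∀ n : ℕ, g (n : F) = a * (n : F) ^ 2 + b * n + c ∧
      g ((n + 1 : ℕ) : F) = a * ((n + 1 : ℕ) : F) ^ 2 + b * ((n + 1 : ℕ) : F) + c ∧
      g ((n + 2 : ℕ) : F) = a * ((n + 2 : ℕ) : F) ^ 2 + b * ((n + 2 : ℕ) : F) + c := by
    intro n
    induction n with
    | zero =>
      refine ⟨by simp [hc], by simp [hb, hc]; ring, ?_⟩
      have h2a : 2 * a = g 2 - 2 * g 1 + g 0 := by
        rw [ha]; field_simp
      have e : ((0 + 2 : ℕ) : F) = 2 := by norm_num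
      rw [e]
      linear_combination (-1 : F) * h2a - 2 * hb
    | succ n ih =>
      obtain ⟨i0, i1, i2⟩ := ih
      refine ⟨i1, i2, ?_⟩
      have h := hd (n : F)
      have e1 : ((n : F) + 1) = ((n + 1 : ℕ) : F) := by push_cast; ring
      have e2 : ((n : F) + 2) = ((n + 2 : ℕ) : F) := by push_cast; ring
      have e3 : ((n : F) + 3) = ((n + 1 + 2 : ℕ) : F) := by push_cast; ring
      rw [e1, e2, e3, i0, i1, i2] at h
      have : g ((n + 1 + 2 : ℕ) : F) =
          (a * (n : F) ^ 2 + b * n + c) - 3 * (a * ((n + 1 : ℕ) : F) ^ 2 + b * ((n + 1 : ℕ) : F) + c)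
          + 3 * (a * ((n + 2 : ℕ) : F) ^ 2 + b * ((n + 2 : ℕ) : F) + c) := by
        linear_combination (-1 : F) * h
      rw [this]
      push_cast
      ring
  intro t
  have ht : ((t.val : ℕ) : F) = t := ZMod.natCast_zmod_val t
  have := (key t.val).1
  rwa [ht] at this

/-- the numerical condition for a residue function -/
def Chk (φ : F → F) : Prop :=
  ∀ m ≤ (univ.filter (fun s => φ s = 0)).card,
    1681 * (((∑ s, (φ s).val) + 41 * m) / 41) + 123 * (((∑ s, (φ s).val) + 41 * m) / 41) ^ 2 <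
      4 * ((∑ s, (φ s).val ^ 2) + 1681 * m)

lemma lift_sum (φ : F → F) (M : F → ℕ) (hM : ∀ s, M s ≤ 41) (h : ∀ s, (M s : F) = φ s) :
    ∃ m ≤ (univ.filter (fun s => φ s = 0)).card,
      m = (univ.filter (fun s => M s = 41)).card ∧
      ∑ s, M s = (∑ s, (φ s).val) + 41 * m ∧
      ∑ s, (M s) ^ 2 = (∑ s, (φ s).val ^ 2) + 1681 * m := by
  have h41 : ∀ s, M s = 41 → φ s = 0 := by
    intro s hs
    rw [← h s, hs]; rfl
  have hlt : ∀ s, M s ≠ 41 → M s = (φ s).val := by
    intro s hs
    have : M s < 41 := lt_of_le_of_ne (hM s) hs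
    rw [← h s, ZMod.val_natCast, Nat.mod_eq_of_lt this]
  refine ⟨(univ.filter (fun s => M s = 41)).card, ?_, rfl, ?_, ?_⟩
  · apply Finset.card_le_card
    intro s hs
    rw [Finset.mem_filter] at hs ⊢
    exact ⟨hs.1, h41 s hs.2⟩
  · rw [Finset.card_filter, Finset.mul_sum, ← Finset.sum_add_distrib]
    apply Finset.sum_congr rfl
    intro s _
    by_cases hs : M s = 41
    · rw [if_pos hs, h41 s hs, hs]; rfl
    · rw [if_neg hs, hlt s hs]; simp
  · rw [Finset.card_filter, Finset.mul_sum, ← Finset.sum_add_distrib]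
    apply Finset.sum_congr rfl
    intro s _
    by_cases hs : M s = 41
    · rw [if_pos hs, h41 s hs, hs]; rfl
    · rw [if_neg hs, hlt s hs]; simp

lemma of_chk (φ : F → F) (hφ : Chk φ) (M : F → ℕ) (k : ℕ) (hM : ∀ s, M s ≤ 41)
    (h : ∀ s, (M s : F) = φ s) (hs : ∑ s, M s = 41 * k) :
    1681 * k + 123 * k ^ 2 < 4 * ∑ s, (M s) ^ 2 := by
  obtain ⟨m, hm, -, h1, h2⟩ := lift_sum φ M hM h
  have := hφ m hm
  rw [← h1, ← h2, hs, Nat.mul_div_cancel_left _ (by norm_num)] at this
  exact this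

lemma chk_quad : ∀ e ∈ ({1, 3} : Finset F), ∀ c : F,
    ∀ m ≤ (univ.filter (fun s : F => e * s * s + c = 0)).card,
    1681 * (((∑ s : F, (e * s * s + c).val) + 41 * m) / 41) +
      123 * (((∑ s : F, (e * s * s + c).val) + 41 * m) / 41) ^ 2 <
      4 * ((∑ s : F, (e * s * s + c).val ^ 2) + 1681 * m) := by
  decide +kernel

lemma chk_lin :
    ∀ m ≤ (univ.filter (fun s : F => s = 0)).card,
    1681 * (((∑ s : F, s.val) + 41 * m) / 41) +
      123 * (((∑ s : F, s.val) + 41 * m) / 41) ^ 2 <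
      4 * ((∑ s : F, s.val ^ 2) + 1681 * m) := by
  decide +kernel

lemma sq_class : ∀ a : F, a ≠ 0 → ∃ w : F, w ≠ 0 ∧ (a * w * w = 1 ∨ a * w * w = 3) := by
  decide +kernel

lemma const_case {α : Type*} [Fintype α] [DecidableEq α] (hcard : Fintype.card α = 41)
    (N : α → ℕ) (k : ℕ) (hv : ∀ t, N t = 0 ∨ N t = 41) (hs : ∑ t, N t = 41 * k)
    (hne : ∃ t t', N t ≠ N t') : 1681 * k + 123 * k ^ 2 < 4 * ∑ t, (N t) ^ 2 := by
  have h1 : ∑ t, N t = 41 * (univ.filter (fun t => N t = 41)).card := by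
    rw [Finset.card_filter, Finset.mul_sum]
    apply Finset.sum_congr rfl
    intro t _
    rcases hv t with h | h
    · rw [h]; simp
    · rw [h]; simp
  have h2 : ∑ t, (N t) ^ 2 = 1681 * (univ.filter (fun t => N t = 41)).card := by
    rw [Finset.card_filter, Finset.mul_sum]
    apply Finset.sum_congr rfl
    intro t _
    rcases hv t with h | h
    · rw [h]; simp
    · rw [h]; simp
  have hk : (univ.filter (fun t => N t = 41)).card = k := by omega
  obtain ⟨t, t', htt⟩ := hne
  have hex1 : ∃ t1, N t1 = 41 := by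
    rcases hv t with h | h
    · rcases hv t' with h' | h'
      · exact absurd (h.trans h'.symm) htt
      · exact ⟨t', h'⟩
    · exact ⟨t, h⟩
  have hex0 : ∃ t0, N t0 = 0 := by
    rcases hv t with h | h
    · exact ⟨t, h⟩
    · rcases hv t' with h' | h'
      · exact ⟨t', h'⟩
      · exact absurd (h.trans h'.symm) htt
  obtain ⟨t1, h1'⟩ := hex1
  obtain ⟨t0, h0'⟩ := hex0
  have hk0 : 0 < k := by
    rw [← hk]; exact Finset.card_pos.2 ⟨t1, by simp [h1']⟩
  have hk1 : k < 41 := by
    have hlt : (univ.filter (fun t => N t = 41)).card < (univ : Finset α).card := by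
      apply Finset.card_lt_card
      rw [Finset.ssubset_univ_iff]
      intro h
      have : t0 ∈ univ.filter (fun s => N s = 41) := by rw [h]; simp
      rw [Finset.mem_filter, h0'] at this
      exact absurd this.2 (by norm_num)
    rw [Finset.card_univ, hcard, hk] at hlt
    exact hlt

  rw [h2, hk]
  nlinarith [mul_pos hk0 (Nat.sub_pos_of_lt hk1), Nat.mul_lt_mul_of_pos_left hk1 hk0]

lemma shape (N : F → ℕ) (k : ℕ) (hN : ∀ t, N t ≤ 41)
    (hd : ∀ t, (N t : F) - 3 * (N (t + 1) : F) + 3 * (N (t + 2) : F) - (N (t + 3) : F) = 0)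
    (hs : ∑ t, N t = 41 * k) (hne : ∃ t t', N t ≠ N t') :
    1681 * k + 123 * k ^ 2 < 4 * ∑ t, (N t) ^ 2 := by
  obtain ⟨a, b, c, hq⟩ := quad (fun t => (N t : F)) hd
  -- reparametrisation
  have repar : ∀ (w t0 : F) (hw : w ≠ 0) (φ : F → F), Chk φ →
      (∀ s, (N (w * s + t0) : F) = φ s) → 1681 * k + 123 * k ^ 2 < 4 * ∑ t, (N t) ^ 2 := by
    intro w t0 hw φ hφ h
    let e : F ≃ F := (Equiv.mulLeft₀ w hw).trans (Equiv.addRight t0)
    have he : ∀ s, e s = w * s + t0 := fun s => rfl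
    have h1 : ∑ s, N (w * s + t0) = 41 * k := by
      rw [← hs]
      exact Equiv.sum_comp e N
    have h2 : ∑ s, (N (w * s + t0)) ^ 2 = ∑ t, (N t) ^ 2 :=
      Equiv.sum_comp e (fun t => (N t) ^ 2)
    rw [← h2]
    exact of_chk φ hφ (fun s => N (w * s + t0)) k (fun s => hN _) h h1
  by_cases ha : a = 0
  · by_cases hb : b = 0
    · -- constant mod 41
      have hc : ∀ t, (N t : F) = c := by
        intro t; rw [hq t, ha, hb]; ring
      by_cases hc0 : c = 0
      · refine const_case (ZMod.card 41) N k (fun t => ?_) hs hne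
        by_contra hcon
        have h3 : N t ≠ 0 ∧ N t ≠ 41 := not_or.1 hcon
        have h4 : N t < 41 := lt_of_le_of_ne (hN t) h3.2
        have h5 : (N t : F) = 0 := by rw [hc t, hc0]
        exact h3.1 (Nat.eq_zero_of_dvd_of_lt ((ZMod.natCast_eq_zero_iff _ _).1 h5) h4)
      · exfalso
        have hcc : ∀ t, N t = c.val := by
          intro t
          have h41 : N t ≠ 41 := by
            intro h
            apply hc0
            rw [← hc t, h]; rfl
          have : N t < 41 := lt_of_le_of_ne (hN t) h41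
          rw [← hc t, ZMod.val_natCast, Nat.mod_eq_of_lt this]
        obtain ⟨t, t', htt⟩ := hne
        exact htt (by rw [hcc t, hcc t'])
    · -- linear
      refine repar b⁻¹ (-(c * b⁻¹)) (inv_ne_zero hb) (fun s => s) chk_lin ?_
      intro s
      rw [hq, ha]
      field_simp
      ring
  · obtain ⟨w, hw, hw'⟩ := sq_class a ha
    have h2 : (2 : F) ≠ 0 := by decide
    set t0 : F := -b / (2 * a) with ht0
    have ht0' : 2 * a * t0 = -b := by rw [ht0]; field_simp
    have hcalc : ∀ s, (N (w * s + t0) : F) = (a * w * w) * s * s + (a * t0 ^ 2 + b * t0 + c) := by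
      intro s
      rw [hq]
      linear_combination (w * s) * ht0'
    rcases hw' with h | h
    · refine repar w t0 hw (fun s => 1 * s * s + (a * t0 ^ 2 + b * t0 + c))
        (chk_quad 1 (by simp) _) ?_
      intro s; rw [hcalc, h]
    · refine repar w t0 hw (fun s => 3 * s * s + (a * t0 ^ 2 + b * t0 + c))
        (chk_quad 3 (by simp) _) ?_
      intro s; rw [hcalc, h]

end Pool.Agent.X158.EquiShape
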