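import Mathlib

/-!
# Line arrangements in the real projective plane: faces and their sides

Homogeneous coordinates: a line of the projective plane is the zero set of a nonzero linear form
`x ↦ a ⬝ᵥ x` on `ℝ³`, a set of points of the plane is a subset of `ℝ³` stable under scaling.
-/

namespace Pool.Agent.X158.Arr

open Set Matrix

variable {ι : Type}

/-- The complement of the union of the lines `a i = 0`, in homogeneous coordinates. -/
def offLines (a : ι → Fin 3 → ℝ) : Set (Fin 3 → ℝ) := {x | ∀ i, a i ⬝ᵥ x ≠ 0}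

/-- `F` is a face of the arrangement (in homogeneous coordinates): the union of a connected
component of the complement of the planes `a i = 0` in `ℝ³` and of its antipode. -/
def IsFace (a : ι → Fin 3 → ℝ) (F : Set (Fin 3 → ℝ)) : Prop :=
  ∃ x ∈ offLines a, F = connectedComponentIn (offLines a) x ∪ -connectedComponentIn (offLines a) x

/-- The line `i` contains an edge of the face `F`: some point of the line `i` that lies on no other
line is in the closure of `F`. -/
def ContainsEdge (a : ι → Fin 3 → ℝ) (F : Set (Fin 3 → ℝ)) (i : ι) : Prop :=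
  ∃ y ∈ closure F, a i ⬝ᵥ y = 0 ∧ ∀ j, j ≠ i → a j ⬝ᵥ y ≠ 0

/-- The number of sides of the face `F`. -/
noncomputable def numSides (a : ι → Fin 3 → ℝ) (F : Set (Fin 3 → ℝ)) : ℕ :=
  {i | ContainsEdge a F i}.ncard

/-- A simple arrangement: at least three lines, pairwise distinct, no three of them through a
common point. -/
structure IsSimpleArrangement [Fintype ι] (a : ι → Fin 3 → ℝ) : Prop where
  three_le : 3 ≤ Fintype.card ι
  ne_zero : ∀ i, a i ≠ 0
  distinct : ∀ i j, i ≠ j → ∀ c : ℝ, a i ≠ c • a j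
  not_concurrent : ∀ i j k, i ≠ j → i ≠ k → j ≠ k → ∀ x : Fin 3 → ℝ, x ≠ 0 →
    ¬ (a i ⬝ᵥ x = 0 ∧ a j ⬝ᵥ x = 0 ∧ a k ⬝ᵥ x = 0)

/-- The open cone of all points with the same signs as `x`. -/
def cone (a : ι → Fin 3 → ℝ) (x : Fin 3 → ℝ) : Set (Fin 3 → ℝ) :=
  {y | ∀ i, 0 < (a i ⬝ᵥ x) * (a i ⬝ᵥ y)}

theorem continuous_dot (v : Fin 3 → ℝ) : Continuous fun y : Fin 3 → ℝ => v ⬝ᵥ y := by
  simp only [dotProduct]
  fun_prop

theorem cone_convex (a : ι → Fin 3 → ℝ) (x : Fin 3 → ℝ) : Convex ℝ (cone a x) := by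
  intro y hy z hz s t hs ht hst i
  rw [dotProduct_add, dotProduct_smul, dotProduct_smul, smul_eq_mul, smul_eq_mul]
  have h1 := hy i
  have h2 := hz i
  rcases hs.eq_or_lt with rfl | hs'
  · have : t = 1 := by linarith
    subst this
    simpa using h2
  · have h3 : 0 < s * ((a i ⬝ᵥ x) * (a i ⬝ᵥ y)) := mul_pos hs' h1
    have h4 : 0 ≤ t * ((a i ⬝ᵥ x) * (a i ⬝ᵥ z)) := mul_nonneg ht h2.le
    nlinarith

theorem self_mem_cone {a : ι → Fin 3 → ℝ} {x : Fin 3 → ℝ} (hx : x ∈ offLines a) : x ∈ cone a x :=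
  fun i => mul_self_pos.2 (hx i)

theorem cone_subset (a : ι → Fin 3 → ℝ) (x : Fin 3 → ℝ) : cone a x ⊆ offLines a := by
  intro y hy i h0
  have := hy i
  rw [h0, mul_zero] at this
  exact lt_irrefl _ this

theorem component_eq {a : ι → Fin 3 → ℝ} {x : Fin 3 → ℝ} (hx : x ∈ offLines a) :
    connectedComponentIn (offLines a) x = cone a x := by
  apply Subset.antisymm
  · intro y hy i
    by_contra hneg
    have hpc : IsPreconnected (connectedComponentIn (offLines a) x) :=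
      isPreconnected_connectedComponentIn
    have hxm : x ∈ connectedComponentIn (offLines a) x := mem_connectedComponentIn hx
    have hsub := connectedComponentIn_subset (offLines a) x
    have himg : IsPreconnected ((fun y => a i ⬝ᵥ y) '' connectedComponentIn (offLines a) x) :=
      hpc.image _ (continuous_dot (a i)).continuousOn
    have hyo := hsub hy i
    have hxo := hx i
    have h0 : (0 : ℝ) ∈ (fun y => a i ⬝ᵥ y) '' connectedComponentIn (offLines a) x := by
      have hoc := himg.ordConnected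
      have m1 : a i ⬝ᵥ x ∈ (fun y => a i ⬝ᵥ y) '' connectedComponentIn (offLines a) x :=
        ⟨x, hxm, rfl⟩
      have m2 : a i ⬝ᵥ y ∈ (fun y => a i ⬝ᵥ y) '' connectedComponentIn (offLines a) x :=
        ⟨y, hy, rfl⟩
      rcases lt_or_gt_of_ne hxo with h1 | h1
      · have h2 : 0 ≤ a i ⬝ᵥ y := by nlinarith
        exact hoc.out m1 m2 ⟨h1.le, h2⟩
      · have h2 : a i ⬝ᵥ y ≤ 0 := by nlinarith
        exact hoc.out m2 m1 ⟨h2, h1.le⟩
    obtain ⟨z, hz, hz0⟩ := h0
    exact hsub hz i hz0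
  · exact (cone_convex a x).isPreconnected.subset_connectedComponentIn (self_mem_cone hx)
      (cone_subset a x)

/-- The sign of `a i` at `x` can be switched without changing the other signs. -/
def Flip (a : ι → Fin 3 → ℝ) (x : Fin 3 → ℝ) (i : ι) : Prop :=
  ∃ y, (a i ⬝ᵥ x) * (a i ⬝ᵥ y) < 0 ∧ ∀ j, j ≠ i → 0 < (a j ⬝ᵥ x) * (a j ⬝ᵥ y)

theorem containsEdge_of_flip {a : ι → Fin 3 → ℝ} {x : Fin 3 → ℝ} (hx : x ∈ offLines a) {i : ι}
    (h : Flip a x i) : ContainsEdge a (cone a x ∪ -cone a x) i := by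
  obtain ⟨y, hy, hyj⟩ := h
  have hA := hx i
  set A := a i ⬝ᵥ x with hAdef
  set B := a i ⬝ᵥ y with hBdef
  have hr : 0 < -(B / A) := by
    have h1 : B / A = A * B / A ^ 2 := by field_simp
    rw [h1, neg_pos]
    exact div_neg_of_neg_of_pos hy (by positivity)
  refine ⟨y + (-(B / A)) • x, ?_, ?_, ?_⟩
  · apply closure_mono subset_union_left
    have ht : Filter.Tendsto (fun δ : ℝ => y + (-(B / A)) • x + δ • x) (nhdsWithin 0 (Ioi 0))
        (nhds (y + (-(B / A)) • x + (0 : ℝ) • x)) := by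
      apply Filter.Tendsto.mono_left _ nhdsWithin_le_nhds
      apply Continuous.tendsto
      fun_prop
    rw [zero_smul, add_zero] at ht
    refine mem_closure_of_tendsto ht ?_
    filter_upwards [self_mem_nhdsWithin] with δ hδ j
    rw [dotProduct_add, dotProduct_add, dotProduct_smul, dotProduct_smul, smul_eq_mul, smul_eq_mul]
    have hδ' : 0 < δ := hδ
    by_cases hj : j = i
    · subst hj
      rw [← hAdef, ← hBdef]
      have : A * (B + -(B / A) * A + δ * A) = δ * A ^ 2 := by field_simp; ring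
      rw [this]
      positivity
    · have h1 := hyj j hj
      have h2 : 0 < (a j ⬝ᵥ x) ^ 2 := by have := hx j; positivity
      have h3 : (a j ⬝ᵥ x) * (a j ⬝ᵥ y + -(B / A) * (a j ⬝ᵥ x) + δ * (a j ⬝ᵥ x)) =
        (a j ⬝ᵥ x) * (a j ⬝ᵥ y) + (-(B / A)) * (a j ⬝ᵥ x) ^ 2 + δ * (a j ⬝ᵥ x) ^ 2 := by ring
      rw [h3]
      positivity
  · rw [dotProduct_add, dotProduct_smul, smul_eq_mul, ← hAdef, ← hBdef]
    field_simp
    ring
  · intro j hj h0
    rw [dotProduct_add, dotProduct_smul, smul_eq_mul] at h0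
    have h1 := hyj j hj
    have h2 : 0 < (a j ⬝ᵥ x) ^ 2 := by have := hx j; positivity
    have h3 : (a j ⬝ᵥ x) * (a j ⬝ᵥ y + -(B / A) * (a j ⬝ᵥ x)) =
      (a j ⬝ᵥ x) * (a j ⬝ᵥ y) + (-(B / A)) * (a j ⬝ᵥ x) ^ 2 := by ring
    rw [h0, mul_zero] at h3
    have : 0 < (a j ⬝ᵥ x) * (a j ⬝ᵥ y) + (-(B / A)) * (a j ⬝ᵥ x) ^ 2 := by positivity
    linarith

theorem closure_cone {a : ι → Fin 3 → ℝ} {x y : Fin 3 → ℝ} (hy : y ∈ closure (cone a x)) (j : ι) :
    0 ≤ (a j ⬝ᵥ x) * (a j ⬝ᵥ y) := by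
  have hcl : IsClosed {z : Fin 3 → ℝ | 0 ≤ (a j ⬝ᵥ x) * (a j ⬝ᵥ z)} :=
    isClosed_le continuous_const (continuous_const.mul (continuous_dot (a j)))
  have hsub : cone a x ⊆ {z : Fin 3 → ℝ | 0 ≤ (a j ⬝ᵥ x) * (a j ⬝ᵥ z)} := fun z hz => (hz j).le
  exact closure_minimal hsub hcl hy

theorem flip_of_containsEdge [Finite ι] {a : ι → Fin 3 → ℝ} {x : Fin 3 → ℝ} (hx : x ∈ offLines a)
    {i : ι} (h : ContainsEdge a (cone a x ∪ -cone a x) i) : Flip a x i := by
  obtain ⟨y, hy, hyi, hyj⟩ := h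
  wlog hyc : y ∈ closure (cone a x) with H
  · rw [closure_union] at hy
    rcases hy with hy | hy
    · exact absurd hy hyc
    · refine H hx (-y) ?_ ?_ ?_ ?_
      · apply closure_mono subset_union_left
        rw [← neg_closure] at hy
        exact hy
      · rw [dotProduct_neg, hyi, neg_zero]
      · intro j hj
        rw [dotProduct_neg]
        exact neg_ne_zero.2 (hyj j hj)
      · rw [← neg_closure] at hy
        exact hy
  have hpos : ∀ j, j ≠ i → 0 < (a j ⬝ᵥ x) * (a j ⬝ᵥ y) := fun j hj =>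
    lt_of_le_of_ne (closure_cone hyc j) (Ne.symm (mul_ne_zero (hx j) (hyj j hj)))
  have hev : ∀ᶠ δ : ℝ in nhdsWithin 0 (Ioi 0), ∀ j, j ≠ i →
      0 < (a j ⬝ᵥ x) * (a j ⬝ᵥ (y - δ • x)) := by
    rw [Filter.eventually_all]
    intro j
    by_cases hj : j = i
    · exact Filter.Eventually.of_forall fun δ h => absurd hj h
    · have ht : Filter.Tendsto (fun δ : ℝ => (a j ⬝ᵥ x) * (a j ⬝ᵥ (y - δ • x)))
          (nhdsWithin 0 (Ioi 0)) (nhds ((a j ⬝ᵥ x) * (a j ⬝ᵥ (y - (0 : ℝ) • x)))) := by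
        apply Filter.Tendsto.mono_left _ nhdsWithin_le_nhds
        apply Continuous.tendsto
        exact continuous_const.mul ((continuous_dot (a j)).comp (by fun_prop))
      rw [zero_smul, sub_zero] at ht
      filter_upwards [ht.eventually (lt_mem_nhds (hpos j hj))] with δ hδ _
      exact hδ
  obtain ⟨δ, hδ, hδ0⟩ := (hev.and self_mem_nhdsWithin).exists
  refine ⟨y - δ • x, ?_, hδ⟩
  rw [dotProduct_sub, dotProduct_smul, hyi, zero_sub, smul_eq_mul]
  have h2 : 0 < (a i ⬝ᵥ x) ^ 2 := by have := hx i; positivity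
  have h3 : (0 : ℝ) < δ := hδ0
  have h4 : (a i ⬝ᵥ x) * -(δ * (a i ⬝ᵥ x)) = -(δ * (a i ⬝ᵥ x) ^ 2) := by ring
  rw [h4, neg_lt_zero]
  positivity

theorem containsEdge_iff [Finite ι] {a : ι → Fin 3 → ℝ} {x : Fin 3 → ℝ} (hx : x ∈ offLines a)
    {i : ι} : ContainsEdge a (cone a x ∪ -cone a x) i ↔ Flip a x i :=
  ⟨flip_of_containsEdge hx, containsEdge_of_flip hx⟩

end Pool.Agent.X158.Arr
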