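import Pool.Agent.X158.ArrLower

/-!
# The arrangement attaining the upper bound
-/

namespace Pool.Agent.X158.Arr

open Set Matrix Filter Topology

section

variable {k : ℕ}

/-- The index set of the lines: ordered pairs of distinct points and a Boolean. -/
abbrev Idx (k : ℕ) : Type := {p : Fin k × Fin k // p.1 ≠ p.2} × Bool

/-- An antisymmetric sign. -/
def chi (i j : Fin k) : ℝ := if i < j then 1 else -1

theorem chi_comm {i j : Fin k} (h : i ≠ j) : chi i j = -chi j i := by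
  unfold chi
  rcases lt_or_gt_of_ne h with h1 | h1
  · rw [if_pos h1, if_neg (not_lt.2 h1.le)]; norm_num
  · rw [if_neg (not_lt.2 h1.le), if_pos h1]

/-- The sign of a line at its first point. -/
def sg (κ : Bool) (i j : Fin k) : ℝ := if κ then 1 else chi i j

theorem sg_cases (κ : Bool) (i j : Fin k) : sg κ i j = 1 ∨ sg κ i j = -1 := by
  unfold sg chi
  split_ifs <;> simp

/-- The lines. -/
noncomputable def arr (ε : ℝ) (L : Idx k) : Fin 3 → ℝ :=
  AA L.1.1.1 L.1.1.2 L.2 (sg L.2 L.1.1.1 L.1.1.2) ε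

/-- The line `L` is one of the four lines of the pair `v, n`, of kind `κ`, with sign `s` at
`P_v`. -/
def Rep (v : Fin k) (L : Idx k) (n : Fin k) (κ : Bool) (s : ℝ) : Prop :=
  (L.1.1 = (v, n) ∧ L.2 = κ ∧ s = sg κ v n) ∨ (L.1.1 = (n, v) ∧ L.2 = κ ∧ s = -sg κ v n)

theorem Rep.arr_eq {v n : Fin k} (hvn : v ≠ n) {L : Idx k} {κ : Bool} {s : ℝ} (h : Rep v L n κ s)
    (ε : ℝ) : arr ε L = AA v n κ s ε := by
  unfold arr
  rcases h with ⟨h1, h2, h3⟩ | ⟨h1, h2, h3⟩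
  · rw [h1, h2, h3]
  · rw [h1, h2, h3]
    simp only
    unfold AA
    rw [base_comm n v]
    cases κ
    · simp only [uu, sg, if_neg (by simp : ¬ (false = true))]
      rw [chi_comm hvn, neg_neg]
    · simp only [uu, sg, if_true]
      rw [hh_comm n v]
      simp

theorem Rep.cases {v n : Fin k} {L : Idx k} {κ : Bool} {s : ℝ} (h : Rep v L n κ s) :
    s = 1 ∨ s = -1 := by
  rcases h with ⟨_, _, h⟩ | ⟨_, _, h⟩ <;> rw [h] <;> rcases sg_cases κ v n with h1 | h1 <;>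
    rw [h1] <;> simp

theorem Rep.unique {v n : Fin k} {L L' : Idx k} {κ : Bool} {s : ℝ} (h : Rep v L n κ s)
    (h' : Rep v L' n κ s) : L = L' := by
  have hs : sg κ v n ≠ -sg κ v n := by
    rcases sg_cases κ v n with h1 | h1 <;> rw [h1] <;> norm_num
  rcases h with ⟨h1, h2, h3⟩ | ⟨h1, h2, h3⟩ <;> rcases h' with ⟨h1', h2', h3'⟩ | ⟨h1', h2', h3'⟩
  · exact Prod.ext (Subtype.ext (h1.trans h1'.symm)) (h2.trans h2'.symm)
  · exact absurd (h3.symm.trans h3') hs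
  · exact absurd (h3'.symm.trans h3) hs
  · exact Prod.ext (Subtype.ext (h1.trans h1'.symm)) (h2.trans h2'.symm)

theorem rep_exists {v : Fin k} {L : Idx k} (h : L.1.1.1 = v ∨ L.1.1.2 = v) :
    ∃ n κ s, v ≠ n ∧ Rep v L n κ s := by
  obtain ⟨⟨⟨i, j⟩, hij⟩, κ⟩ := L
  rcases h with h | h
  · simp only at h
    subst h
    exact ⟨j, κ, _, hij, Or.inl ⟨rfl, rfl, rfl⟩⟩
  · simp only at h
    subst h
    exact ⟨i, κ, _, fun h => hij h.symm, Or.inr ⟨rfl, rfl, rfl⟩⟩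

/-- The sign conditions at the vertex `v` and the incident line `L₀`. -/
theorem key (v : Fin k) (L₀ : Idx k) (h₀ : L₀.1.1.1 = v ∨ L₀.1.1.2 = v) :
    ∃ y : ℝ → Fin 3 → ℝ, ∀ᶠ ε in 𝓝[>] (0 : ℝ), (arr ε L₀ ⬝ᵥ P v) * (arr ε L₀ ⬝ᵥ y ε) < 0 ∧
      ∀ L, L ≠ L₀ → 0 < (arr ε L ⬝ᵥ P v) * (arr ε L ⬝ᵥ y ε) := by
  obtain ⟨n, κ₀, s₀, hvn, hrep⟩ := rep_exists h₀
  obtain ⟨m, hm, hm2⟩ := exists_m v n
  refine ⟨yy v n m s₀ (kh κ₀), ?_⟩
  have hs₀ := hrep.cases
  have hsmall : ∀ᶠ ε in 𝓝[>] (0 : ℝ), 3 * m * ε < 2 := by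
    have hc : Continuous fun ε : ℝ => 3 * m * ε := by fun_prop
    have h0 : 3 * m * 0 < 2 := by norm_num
    exact nhdsWithin_le_nhds ((hc.tendsto 0).eventually (gt_mem_nhds h0))
  have hall : ∀ᶠ ε in 𝓝[>] (0 : ℝ), ∀ L, L ≠ L₀ →
      0 < (arr ε L ⬝ᵥ P v) * (arr ε L ⬝ᵥ yy v n m s₀ (kh κ₀) ε) := by
    rw [Filter.eventually_all]
    intro L
    by_cases hL : L = L₀
    · exact Filter.Eventually.of_forall fun ε h => absurd hL h
    by_cases hinc : L.1.1.1 = v ∨ L.1.1.2 = v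
    · obtain ⟨l, κ, s, hvl, hrl⟩ := rep_exists hinc
      have hs := hrl.cases
      by_cases hln : l = n
      · subst hln
        have hne : ¬ (κ = κ₀ ∧ s = s₀) := by
          rintro ⟨rfl, rfl⟩
          exact hL (hrl.unique hrep)
        filter_upwards [hsmall, self_mem_nhdsWithin] with ε h1 h2 _
        rw [hrl.arr_eq hvl]
        exact same_keep hvl κ κ₀ hs hs₀ hm h2 h1 hne
      · filter_upwards [other_keep (v := v) (n := n) hvl κ κ₀ hs hs₀ hm (hm2 l hln)] with ε h1 _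
        rw [hrl.arr_eq hvl]
        exact h1
    · push Not at hinc
      have := far_keep (v := v) (n := n) hinc.1 hinc.2
        (sg L.2 L.1.1.1 L.1.1.2 • uu L.2 L.1.1.1 L.1.1.2) m s₀ (kh κ₀)
      filter_upwards [this] with ε h1 _
      unfold arr AA
      rw [← smul_smul]
      exact h1
  filter_upwards [hall, self_mem_nhdsWithin] with ε h1 h2
  refine ⟨?_, h1⟩
  rw [hrep.arr_eq hvn]
  exact same_flip hvn κ₀ hs₀ hm h2

/-- The points `P_v` lie on no line. -/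
theorem arr_P_ne (v : Fin k) : ∀ᶠ ε in 𝓝[>] (0 : ℝ), ∀ L : Idx k, arr ε L ⬝ᵥ P v ≠ 0 := by
  rw [Filter.eventually_all]
  intro L
  by_cases hinc : L.1.1.1 = v ∨ L.1.1.2 = v
  · obtain ⟨l, κ, s, hvl, hrl⟩ := rep_exists hinc
    filter_upwards [self_mem_nhdsWithin] with ε h2
    rw [hrl.arr_eq hvl, AA_P hvl]
    have h3 : (0 : ℝ) < ε := h2
    rcases hrl.cases with h | h <;> rw [h]
    · simp; exact h3.ne'
    · simp; exact h3.ne'
  · push Not at hinc
    have := far_keep (v := v) (n := v) hinc.1 hinc.2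
      (sg L.2 L.1.1.1 L.1.1.2 • uu L.2 L.1.1.1 L.1.1.2) 0 0 0
    filter_upwards [this] with ε h1 h2
    unfold arr AA at h2
    rw [← smul_smul] at h2
    rw [h2, zero_mul] at h1
    exact lt_irrefl _ h1

/-- The lines `(v, w, true)` and `(v, w, false)` show that `P_v` and `P_w` are in different
faces. -/
theorem arr_sep {v w : Fin k} (h : v ≠ w) {ε : ℝ} (hε : 0 < ε) :
    (arr ε ((⟨(v, w), h⟩, true) : Idx k) ⬝ᵥ P v) * (arr ε ((⟨(v, w), h⟩, true) : Idx k) ⬝ᵥ P w) < 0 ∧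
    0 < (arr ε ((⟨(v, w), h⟩, false) : Idx k) ⬝ᵥ P v) *
      (arr ε ((⟨(v, w), h⟩, false) : Idx k) ⬝ᵥ P w) := by
  have hR1 : ∀ κ : Bool, Rep v ((⟨(v, w), h⟩, κ) : Idx k) w κ (sg κ v w) :=
    fun κ => Or.inl ⟨rfl, rfl, rfl⟩
  have hR2 : ∀ κ : Bool, Rep w ((⟨(v, w), h⟩, κ) : Idx k) v κ (-sg κ w v) :=
    fun κ => Or.inr ⟨rfl, rfl, rfl⟩
  have hv : ∀ κ : Bool, arr ε ((⟨(v, w), h⟩, κ) : Idx k) ⬝ᵥ P v = ε * sg κ v w := by
    intro κ
    rw [(hR1 κ).arr_eq h, AA_P h]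
  have hw : ∀ κ : Bool, arr ε ((⟨(v, w), h⟩, κ) : Idx k) ⬝ᵥ P w = ε * -sg κ w v := by
    intro κ
    rw [(hR2 κ).arr_eq h.symm, AA_P h.symm]
  rw [hv, hw, hv, hw]
  have h1 : sg true v w = 1 := rfl
  have h2 : sg true w v = 1 := rfl
  have h3 : -sg false w v = sg false v w := by
    change -chi w v = chi v w
    rw [chi_comm h]
  rw [h1, h2, h3]
  constructor
  · nlinarith
  · rcases sg_cases false v w with h4 | h4 <;> rw [h4] <;> nlinarith

end

/-! ### Perturbation to a simple arrangement -/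

/-- The determinant of three vectors. -/
def det3 (a b c : Fin 3 → ℝ) : ℝ :=
  a 0 * (b 1 * c 2 - b 2 * c 1) - a 1 * (b 0 * c 2 - b 2 * c 0) + a 2 * (b 0 * c 1 - b 1 * c 0)

theorem det3_eq (a b c : Fin 3 → ℝ) : det3 a b c = (Matrix.of ![a, b, c]).det := by
  rw [Matrix.det_fin_three]
  simp [det3]
  ring

theorem not_common {a b c : Fin 3 → ℝ} (h : det3 a b c ≠ 0) {x : Fin 3 → ℝ} (hx : x ≠ 0) :
    ¬ (a ⬝ᵥ x = 0 ∧ b ⬝ᵥ x = 0 ∧ c ⬝ᵥ x = 0) := by
  rintro ⟨h1, h2, h3⟩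
  apply h
  rw [det3_eq]
  apply Matrix.exists_mulVec_eq_zero_iff.1
  refine ⟨x, hx, ?_⟩
  ext i
  fin_cases i
  · simpa [Matrix.mulVec] using h1
  · simpa [Matrix.mulVec] using h2
  · simpa [Matrix.mulVec] using h3

/-- The perturbing vectors. -/
def mom (c : ℝ) : Fin 3 → ℝ := ![1, c, c ^ 2]

theorem det3_mom (a b c : ℝ) : det3 (mom a) (mom b) (mom c) = (b - a) * (c - a) * (c - b) := by
  simp [det3, mom]
  ring

theorem eventually_det3_ne (a b c : Fin 3 → ℝ) {u v w : ℝ} (huv : u ≠ v) (huw : u ≠ w)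
    (hvw : v ≠ w) :
    ∀ᶠ t in 𝓝[>] (0 : ℝ), det3 (a + t • mom u) (b + t • mom v) (c + t • mom w) ≠ 0 := by
  open Polynomial in
  obtain ⟨p, hp⟩ : ∃ p : ℝ[X], p = C (det3 a b c) +
    C (det3 (mom u) b c + det3 a (mom v) c + det3 a b (mom w)) * X +
    C (det3 (mom u) (mom v) c + det3 (mom u) b (mom w) + det3 a (mom v) (mom w)) * X ^ 2 +
    C (det3 (mom u) (mom v) (mom w)) * X ^ 3 := ⟨_, rfl⟩
  have hp0 : p ≠ 0 := by
    intro h
    have h3 : p.coeff 3 = 0 := by rw [h]; simp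
    rw [hp] at h3
    simp only [Polynomial.coeff_add, Polynomial.coeff_C_mul, Polynomial.coeff_X,
      Polynomial.coeff_X_pow, Polynomial.coeff_C] at h3
    norm_num at h3
    rw [det3_mom] at h3
    exact mul_ne_zero (mul_ne_zero (sub_ne_zero.2 huv.symm) (sub_ne_zero.2 huw.symm))
      (sub_ne_zero.2 hvw.symm) h3
  have heval : ∀ t, p.eval t = det3 (a + t • mom u) (b + t • mom v) (c + t • mom w) := by
    intro t
    rw [hp]
    simp only [Polynomial.eval_add, Polynomial.eval_mul, Polynomial.eval_C, Polynomial.eval_X,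
      Polynomial.eval_pow, det3, Pi.add_apply, Pi.smul_apply, smul_eq_mul]
    ring
  have hfin : {t | p.IsRoot t}.Finite := Polynomial.finite_setOfPred_isRoot hp0
  have hfin' : ({t | p.IsRoot t} \ {0}).Finite := hfin.subset sdiff_subset
  have hopen : (({t | p.IsRoot t} \ {0})ᶜ : Set ℝ) ∈ 𝓝 (0 : ℝ) :=
    hfin'.isClosed.isOpen_compl.mem_nhds (by simp)
  filter_upwards [nhdsWithin_le_nhds hopen, self_mem_nhdsWithin] with t h1 h2 h3
  apply h1
  refine ⟨?_, ?_⟩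
  · rw [Set.mem_ofPred_eq, Polynomial.IsRoot.def, heval, h3]
  · have : (0 : ℝ) < t := h2
    exact this.ne'


theorem card_Idx (k : ℕ) : Fintype.card (Idx k) = 2 * (k * k - k) := by
  rw [Fintype.card_prod, Fintype.card_bool, Fintype.card_subtype, mul_comm]
  congr 1
  have h : (Finset.univ.filter fun p : Fin k × Fin k => p.1 ≠ p.2) =
      (Finset.univ : Finset (Fin k)).offDiag := by
    ext p
    simp [Finset.mem_offDiag]
  rw [h, Finset.offDiag_card, Finset.card_univ, Fintype.card_fin]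

/-- The incident lines. -/
def inc {k : ℕ} (v : Fin k) (q : {j : Fin k // j ≠ v} × Bool × Bool) : Idx k :=
  if q.2.1 then (⟨(v, q.1.1), fun h => q.1.2 h.symm⟩, q.2.2)
  else (⟨(q.1.1, v), fun h => q.1.2 h⟩, q.2.2)

theorem inc_injective {k : ℕ} (v : Fin k) : Function.Injective (inc v) := by
  rintro ⟨⟨j, hj⟩, b, κ⟩ ⟨⟨j', hj'⟩, b', κ'⟩ h
  cases b <;> cases b' <;> simp [inc] at h ⊢
  · exact h
  · exact absurd h.1.1 hj
  · exact absurd h.1.1.symm hj'
  · exact h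

theorem inc_spec {k : ℕ} (v : Fin k) (q : {j : Fin k // j ≠ v} × Bool × Bool) :
    (inc v q).1.1.1 = v ∨ (inc v q).1.1.2 = v := by
  unfold inc
  split_ifs
  · left; rfl
  · right; rfl

/-- **Lower bound.** -/
theorem lower (k : ℕ) (hk : 2 ≤ k) : ∃ (a : Idx k → Fin 3 → ℝ) (F : Fin k → Set (Fin 3 → ℝ)),
    IsSimpleArrangement a ∧ (∀ i, IsFace a (F i)) ∧ Function.Injective F ∧
      ∀ i, 4 * (k - 1) ≤ numSides a (F i) := by
  classical
  -- the parameter `ε`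
  choose y hy using fun (v : Fin k) (L₀ : Idx k) (h : L₀.1.1.1 = v ∨ L₀.1.1.2 = v) => key v L₀ h
  have hev : ∀ᶠ ε in 𝓝[>] (0 : ℝ), ∀ (v : Fin k) (L₀ : Idx k)
      (h : L₀.1.1.1 = v ∨ L₀.1.1.2 = v), (arr ε L₀ ⬝ᵥ P v) * (arr ε L₀ ⬝ᵥ y v L₀ h ε) < 0 ∧
      ∀ L, L ≠ L₀ → 0 < (arr ε L ⬝ᵥ P v) * (arr ε L ⬝ᵥ y v L₀ h ε) := by
    rw [Filter.eventually_all]
    intro v
    rw [Filter.eventually_all]
    intro L₀
    rw [Filter.eventually_all]
    intro h
    exact hy v L₀ h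
  have hev2 : ∀ᶠ ε in 𝓝[>] (0 : ℝ), ∀ (v : Fin k) (L : Idx k), arr ε L ⬝ᵥ P v ≠ 0 := by
    rw [Filter.eventually_all]
    exact fun v => arr_P_ne v
  obtain ⟨ε, ⟨hε1, hε2⟩, hε0⟩ := ((hev.and hev2).and self_mem_nhdsWithin).exists
  have hε0' : (0 : ℝ) < ε := hε0
  -- the perturbation
  set c : Idx k → ℝ := fun L => ((Fintype.equivFin (Idx k) L : ℕ) : ℝ) with hc
  have hcinj : Function.Injective c := by
    intro L L' h
    apply (Fintype.equivFin (Idx k)).injective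
    apply Fin.ext
    simp only [hc] at h
    exact_mod_cast h
  set a : ℝ → Idx k → Fin 3 → ℝ := fun t L => arr ε L + t • mom (c L) with ha
  have hcont : ∀ (L : Idx k) (x : Fin 3 → ℝ), Continuous fun t => a t L ⬝ᵥ x := by
    intro L x
    exact continuous_dot₂ (by simp only [ha]; fun_prop) continuous_const
  have ha0 : ∀ L, a 0 L = arr ε L := by
    intro L
    simp [ha]
  have hpos : ∀ (L : Idx k) (x z : Fin 3 → ℝ), 0 < (arr ε L ⬝ᵥ x) * (arr ε L ⬝ᵥ z) →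
      ∀ᶠ t in 𝓝[>] (0 : ℝ), 0 < (a t L ⬝ᵥ x) * (a t L ⬝ᵥ z) := by
    intro L x z h
    have h1 : Continuous fun t => (a t L ⬝ᵥ x) * (a t L ⬝ᵥ z) := (hcont L x).mul (hcont L z)
    rw [← ha0 L] at h
    exact nhdsWithin_le_nhds ((h1.tendsto 0).eventually (lt_mem_nhds h))
  have hneg : ∀ (L : Idx k) (x z : Fin 3 → ℝ), (arr ε L ⬝ᵥ x) * (arr ε L ⬝ᵥ z) < 0 →
      ∀ᶠ t in 𝓝[>] (0 : ℝ), (a t L ⬝ᵥ x) * (a t L ⬝ᵥ z) < 0 := by
    intro L x z h
    have h1 : Continuous fun t => (a t L ⬝ᵥ x) * (a t L ⬝ᵥ z) := (hcont L x).mul (hcont L z)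
    rw [← ha0 L] at h
    exact nhdsWithin_le_nhds ((h1.tendsto 0).eventually (gt_mem_nhds h))
  have e1 : ∀ᶠ t in 𝓝[>] (0 : ℝ), ∀ (v : Fin k) (L₀ : Idx k)
      (h : L₀.1.1.1 = v ∨ L₀.1.1.2 = v), (a t L₀ ⬝ᵥ P v) * (a t L₀ ⬝ᵥ y v L₀ h ε) < 0 ∧
      ∀ L, L ≠ L₀ → 0 < (a t L ⬝ᵥ P v) * (a t L ⬝ᵥ y v L₀ h ε) := by
    rw [Filter.eventually_all]
    intro v
    rw [Filter.eventually_all]
    intro L₀
    rw [Filter.eventually_all]
    intro h
    refine (hneg _ _ _ (hε1 v L₀ h).1).and ?_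
    rw [Filter.eventually_all]
    intro L
    rw [Filter.eventually_all]
    intro hL
    exact hpos _ _ _ ((hε1 v L₀ h).2 L hL)
  have e2 : ∀ᶠ t in 𝓝[>] (0 : ℝ), ∀ (v : Fin k) (L : Idx k),
      0 < (a t L ⬝ᵥ P v) * (a t L ⬝ᵥ P v) := by
    rw [Filter.eventually_all]
    intro v
    rw [Filter.eventually_all]
    intro L
    exact hpos _ _ _ (mul_self_pos.2 (hε2 v L))
  have e3 : ∀ᶠ t in 𝓝[>] (0 : ℝ), ∀ (v w : Fin k) (h : v ≠ w),
      (a t ((⟨(v, w), h⟩, true) : Idx k) ⬝ᵥ P v) * (a t ((⟨(v, w), h⟩, true) : Idx k) ⬝ᵥ P w) < 0 ∧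
      0 < (a t ((⟨(v, w), h⟩, false) : Idx k) ⬝ᵥ P v) *
        (a t ((⟨(v, w), h⟩, false) : Idx k) ⬝ᵥ P w) := by
    rw [Filter.eventually_all]
    intro v
    rw [Filter.eventually_all]
    intro w
    rw [Filter.eventually_all]
    intro h
    exact (hneg _ _ _ (arr_sep h hε0').1).and (hpos _ _ _ (arr_sep h hε0').2)
  have e4 : ∀ᶠ t in 𝓝[>] (0 : ℝ), ∀ (L L' L'' : Idx k), L ≠ L' → L ≠ L'' → L' ≠ L'' →
      det3 (a t L) (a t L') (a t L'') ≠ 0 := by
    rw [Filter.eventually_all]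
    intro L
    rw [Filter.eventually_all]
    intro L'
    rw [Filter.eventually_all]
    intro L''
    rw [Filter.eventually_all]
    intro h1
    rw [Filter.eventually_all]
    intro h2
    rw [Filter.eventually_all]
    intro h3
    exact eventually_det3_ne _ _ _ (hcinj.ne h1) (hcinj.ne h2) (hcinj.ne h3)
  obtain ⟨t, ⟨⟨h1, h2⟩, h3⟩, h4⟩ := (((e1.and e2).and e3).and e4).exists
  have hoff : ∀ v : Fin k, P v ∈ offLines (a t) := by
    intro v L h0
    have := h2 v L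
    rw [h0, mul_zero] at this
    exact lt_irrefl _ this
  have hcard : 3 ≤ Fintype.card (Idx k) := by
    rw [card_Idx]
    obtain ⟨j, rfl⟩ := Nat.exists_eq_add_of_le hk
    have : (2 + j) * (2 + j) - (2 + j) = (2 + j) * (1 + j) := by
      have : (2 + j) * (2 + j) = (2 + j) * (1 + j) + (2 + j) := by ring
      omega
    rw [this]
    nlinarith
  -- a third index different from two given ones
  have hthird : ∀ L L' : Idx k, ∃ L'', L'' ≠ L ∧ L'' ≠ L' := by
    intro L L'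
    by_contra hno
    push Not at hno
    have hsub : (Finset.univ : Finset (Idx k)) ⊆ {L, L'} := by
      intro M _
      rw [Finset.mem_insert, Finset.mem_singleton]
      by_cases hM : M = L
      · exact Or.inl hM
      · exact Or.inr (hno M hM)
    have := Finset.card_le_card hsub
    rw [Finset.card_univ] at this
    have h5 := Finset.card_le_two (a := L) (b := L')
    omega
  refine ⟨a t, fun v => connectedComponentIn (offLines (a t)) (P v) ∪
    -connectedComponentIn (offLines (a t)) (P v), ?_, ?_, ?_, ?_⟩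
  · refine ⟨hcard, ?_, ?_, ?_⟩
    · intro L h0
      obtain ⟨L', hL', _⟩ := hthird L L
      obtain ⟨L'', hL'', hL2⟩ := hthird L L'
      apply h4 L L' L'' hL'.symm hL''.symm hL2.symm
      rw [h0]
      simp [det3]
    · intro L L' hLL c' h0
      obtain ⟨L'', hL'', hL2⟩ := hthird L L'
      apply h4 L L' L'' hLL hL''.symm hL2.symm
      rw [h0]
      simp only [det3, Pi.smul_apply, smul_eq_mul]
      ring
    · intro L L' L'' h5 h6 h7 x hx
      exact not_common (h4 L L' L'' h5 h6 h7) hx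
  · intro v
    exact ⟨P v, hoff v, rfl⟩
  · intro v w hvw
    by_contra hne
    simp only at hvw
    rw [component_eq (hoff v), component_eq (hoff w)] at hvw
    have hw : P w ∈ cone (a t) (P v) ∪ -cone (a t) (P v) := by
      rw [hvw]
      exact Or.inl (self_mem_cone (hoff w))
    obtain ⟨h5, h6⟩ := h3 v w hne
    rcases hw with hw | hw
    · have := hw ((⟨(v, w), hne⟩, true) : Idx k)
      exact absurd this (not_lt.2 h5.le)
    · rw [Set.mem_neg] at hw
      have := hw ((⟨(v, w), hne⟩, false) : Idx k)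
      rw [dotProduct_neg, mul_neg] at this
      linarith
  · intro v
    simp only
    rw [component_eq (hoff v), numSides]
    have hsub : Set.range (inc v) ⊆ {i | ContainsEdge (a t) (cone (a t) (P v) ∪
        -cone (a t) (P v)) i} := by
      rintro _ ⟨q, rfl⟩
      obtain ⟨h5, h6⟩ := h1 v (inc v q) (inc_spec v q)
      exact containsEdge_of_flip (hoff v) ⟨_, h5, h6⟩
    have hle := Set.ncard_le_ncard hsub (Set.toFinite _)
    rw [← Set.image_univ, Set.ncard_image_of_injective _ (inc_injective v), Set.ncard_univ,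
      Nat.card_eq_fintype_card, Fintype.card_prod, Fintype.card_prod, Fintype.card_bool] at hle
    have h7 : Fintype.card {j : Fin k // j ≠ v} = k - 1 := by
      rw [Fintype.card_subtype_compl, Fintype.card_fin, Fintype.card_subtype_eq]
    rw [h7] at hle
    omega

end Pool.Agent.X158.Arr
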