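import Pool.Agent.X158.ArrUpper

/-!
# Common tangents of tiny circles

For points `P_v` on a circle we take, for every pair, four lines passing at height `±ε` at both
points.  The face around `P_v` has `4 (k - 1)` sides.
-/

namespace Pool.Agent.X158.Arr

open Set Matrix Filter Topology

section

variable {k : ℕ}

/-- The angles. -/
noncomputable def φ (i : Fin k) : ℝ := (i : ℝ) / k

theorem φ_half {i j : Fin k} (h : i ≠ j) :
    (φ i - φ j) / 2 ≠ 0 ∧ |(φ i - φ j) / 2| < 1 := by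
  have hk : (0 : ℝ) < k := by
    have : 0 < k := lt_of_le_of_lt (Nat.zero_le _) i.2
    exact_mod_cast this
  have hi : (i : ℝ) < k := by exact_mod_cast i.2
  have hj : (j : ℝ) < k := by exact_mod_cast j.2
  have hi0 : (0 : ℝ) ≤ i := Nat.cast_nonneg _
  have hj0 : (0 : ℝ) ≤ j := Nat.cast_nonneg _
  have hij : (i : ℝ) ≠ j := by
    intro h'
    exact h (Fin.ext (by exact_mod_cast h'))
  unfold φ
  constructor
  · rw [← sub_div, div_div, div_ne_zero_iff]
    exact ⟨sub_ne_zero.2 hij, by positivity⟩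
  · rw [← sub_div, div_div, abs_div, abs_of_pos (by positivity : (0 : ℝ) < k * 2),
      div_lt_one (by positivity), abs_lt]
    constructor <;> nlinarith

theorem sin_half_ne {i j : Fin k} (h : i ≠ j) : Real.sin ((φ i - φ j) / 2) ≠ 0 := by
  obtain ⟨h0, h1⟩ := φ_half h
  rw [abs_lt] at h1
  have hpi := Real.pi_gt_three
  rcases lt_or_gt_of_ne h0 with h2 | h2
  · exact (Real.sin_neg_of_neg_of_neg_pi_lt h2 (by linarith)).ne
  · exact (Real.sin_pos_of_pos_of_lt_pi h2 (by linarith)).ne'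

theorem cos_half_lt {i j : Fin k} (h : i ≠ j) : |Real.cos ((φ i - φ j) / 2)| < 1 := by
  have h1 := sin_half_ne h
  have h2 := Real.sin_sq_add_cos_sq ((φ i - φ j) / 2)
  rw [abs_lt]
  have h3 : 0 < Real.sin ((φ i - φ j) / 2) ^ 2 := by positivity
  constructor <;> nlinarith

/-- The point `P_v`. -/
noncomputable def P (v : Fin k) : Fin 3 → ℝ := ![Real.cos (φ v), Real.sin (φ v), 1]

/-- The line through `P_i` and `P_j`. -/
noncomputable def base (i j : Fin k) : Fin 3 → ℝ :=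
  ![Real.cos ((φ i + φ j) / 2), Real.sin ((φ i + φ j) / 2), -Real.cos ((φ i - φ j) / 2)]

/-- The form equal to `1` at `P_i` and to `-1` at `P_j`, vanishing on the normal direction. -/
noncomputable def hh (i j : Fin k) : Fin 3 → ℝ :=
  ![-Real.sin ((φ i + φ j) / 2) / Real.sin ((φ i - φ j) / 2),
    Real.cos ((φ i + φ j) / 2) / Real.sin ((φ i - φ j) / 2), 0]

/-- The form `z`, or `hh`. -/
noncomputable def uu (κ : Bool) (i j : Fin k) : Fin 3 → ℝ := if κ then hh i j else ![0, 0, 1]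

/-- Normal displacement. -/
noncomputable def Nn (i j : Fin k) : Fin 3 → ℝ :=
  ![Real.cos ((φ i + φ j) / 2), Real.sin ((φ i + φ j) / 2), 0]

/-- Tangential displacement. -/
noncomputable def Tt (i j : Fin k) : Fin 3 → ℝ :=
  ![-Real.sin ((φ i - φ j) / 2) * Real.sin ((φ i + φ j) / 2),
    Real.sin ((φ i - φ j) / 2) * Real.cos ((φ i + φ j) / 2), 0]

theorem base_comm (i j : Fin k) : base i j = base j i := by
  unfold base
  rw [add_comm (φ i), show (φ i - φ j) / 2 = -((φ j - φ i) / 2) by ring, Real.cos_neg]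

theorem hh_comm (i j : Fin k) : hh i j = -hh j i := by
  unfold hh
  rw [add_comm (φ i), show (φ i - φ j) / 2 = -((φ j - φ i) / 2) by ring, Real.sin_neg]
  ext l
  fin_cases l <;> simp [div_neg]

theorem base_P (i j l : Fin k) : base i j ⬝ᵥ P l =
    -2 * (Real.sin ((φ j - φ l) / 2) * Real.sin ((φ i - φ l) / 2)) := by
  unfold base P
  simp only [dotProduct, Fin.sum_univ_three, Matrix.cons_val_zero, Matrix.cons_val_one,
    Matrix.cons_val, mul_one]
  have h1 : Real.cos ((φ i + φ j) / 2) * Real.cos (φ l) +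
      Real.sin ((φ i + φ j) / 2) * Real.sin (φ l) = Real.cos ((φ i + φ j) / 2 - φ l) := by
    rw [Real.cos_sub]
  rw [h1]
  have h2 : (φ i + φ j) / 2 - φ l = (φ j - φ l) / 2 + (φ i - φ l) / 2 := by ring
  have h3 : (φ i - φ j) / 2 = (φ i - φ l) / 2 - (φ j - φ l) / 2 := by ring
  rw [h2, h3, Real.cos_add, Real.cos_sub]
  ring

theorem base_P_left (i j : Fin k) : base i j ⬝ᵥ P i = 0 := by
  rw [base_P]; simp

theorem base_P_right (i j : Fin k) : base i j ⬝ᵥ P j = 0 := by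
  rw [base_P]; simp

theorem base_P_ne {i j l : Fin k} (hi : i ≠ l) (hj : j ≠ l) : base i j ⬝ᵥ P l ≠ 0 := by
  rw [base_P]
  exact mul_ne_zero (by norm_num) (mul_ne_zero (sin_half_ne hj) (sin_half_ne hi))

theorem hh_P_left {i j : Fin k} (h : i ≠ j) : hh i j ⬝ᵥ P i = 1 := by
  unfold hh P
  have hs := sin_half_ne h
  simp only [dotProduct, Fin.sum_univ_three, Matrix.cons_val_zero, Matrix.cons_val_one,
    Matrix.cons_val, mul_one]
  have h1 : Real.sin ((φ i - φ j) / 2) = Real.sin (φ i - (φ i + φ j) / 2) := by congr 1; ring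
  have h2 := Real.sin_sub (φ i) ((φ i + φ j) / 2)
  rw [← h1] at h2
  field_simp
  linarith

theorem hh_P_right {i j : Fin k} (h : i ≠ j) : hh i j ⬝ᵥ P j = -1 := by
  rw [hh_comm, neg_dotProduct, hh_P_left h.symm]

theorem uu_P_left {i j : Fin k} (h : i ≠ j) (κ : Bool) : uu κ i j ⬝ᵥ P i = 1 := by
  cases κ
  · simp [uu, P, dotProduct, Fin.sum_univ_three]
  · simp only [uu, if_true]; exact hh_P_left h

theorem base_N (i j l : Fin k) : base i l ⬝ᵥ Nn i j = Real.cos ((φ l - φ j) / 2) := by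
  unfold base Nn
  simp only [dotProduct, Fin.sum_univ_three, Matrix.cons_val_zero, Matrix.cons_val_one,
    Matrix.cons_val, mul_zero, add_zero]
  rw [← Real.cos_sub]
  congr 1; ring

theorem base_N_self (i j : Fin k) : base i j ⬝ᵥ Nn i j = 1 := by
  rw [base_N]; simp

theorem base_T_self (i j : Fin k) : base i j ⬝ᵥ Tt i j = 0 := by
  unfold base Tt
  simp only [dotProduct, Fin.sum_univ_three, Matrix.cons_val_zero, Matrix.cons_val_one,
    Matrix.cons_val, mul_zero, add_zero]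
  ring

theorem hh_N_self (i j : Fin k) : hh i j ⬝ᵥ Nn i j = 0 := by
  unfold hh Nn
  simp only [dotProduct, Fin.sum_univ_three, Matrix.cons_val_zero, Matrix.cons_val_one,
    Matrix.cons_val, mul_zero, add_zero]
  ring

theorem hh_T_self {i j : Fin k} (h : i ≠ j) : hh i j ⬝ᵥ Tt i j = 1 := by
  have hs := sin_half_ne h
  unfold hh Tt
  simp only [dotProduct, Fin.sum_univ_three, Matrix.cons_val_zero, Matrix.cons_val_one,
    Matrix.cons_val, mul_zero, add_zero]
  field_simp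
  linarith [Real.sin_sq_add_cos_sq ((φ i + φ j) / 2)]

theorem zz_N (i j : Fin k) : (![0, 0, 1] : Fin 3 → ℝ) ⬝ᵥ Nn i j = 0 := by
  simp [Nn, dotProduct, Fin.sum_univ_three]

theorem zz_T (i j : Fin k) : (![0, 0, 1] : Fin 3 → ℝ) ⬝ᵥ Tt i j = 0 := by
  simp [Tt, dotProduct, Fin.sum_univ_three]

/-- The displacement. -/
noncomputable def W (v n : Fin k) (m s₀ t : ℝ) (ε : ℝ) : Fin 3 → ℝ :=
  (-s₀ * (1 + t * ε * m)) • Nn v n + (t * 2 * m) • Tt v n

/-- The point at which one sign is flipped. -/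
noncomputable def yy (v n : Fin k) (m s₀ t : ℝ) (ε : ℝ) : Fin 3 → ℝ :=
  P v + ε • W v n m s₀ t ε

/-- The four lines of the pair `v, n`. -/
noncomputable def AA (v n : Fin k) (κ : Bool) (s : ℝ) (ε : ℝ) : Fin 3 → ℝ :=
  base v n + (ε * s) • uu κ v n

/-- The sign attached to the kind of the line. -/
def kh (κ : Bool) : ℝ := if κ then -1 else 1

theorem AA_P {v n : Fin k} (h : v ≠ n) (κ : Bool) (s ε : ℝ) : AA v n κ s ε ⬝ᵥ P v = ε * s := by
  unfold AA
  rw [add_dotProduct, smul_dotProduct, base_P_left, uu_P_left h, smul_eq_mul]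
  ring

theorem base_yy (v n : Fin k) (m s₀ t ε : ℝ) :
    base v n ⬝ᵥ yy v n m s₀ t ε = ε * (-s₀ * (1 + t * ε * m)) := by
  unfold yy W
  rw [dotProduct_add, dotProduct_smul, dotProduct_add, dotProduct_smul, dotProduct_smul,
    base_P_left, base_N_self, base_T_self]
  simp only [smul_eq_mul]
  ring

theorem uu_true_yy {v n : Fin k} (h : v ≠ n) (m s₀ t ε : ℝ) :
    uu true v n ⬝ᵥ yy v n m s₀ t ε = 1 + ε * (t * 2 * m) := by
  unfold yy W
  rw [dotProduct_add, dotProduct_smul, dotProduct_add, dotProduct_smul, dotProduct_smul,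
    uu_P_left h]
  simp only [uu, if_true, hh_N_self, hh_T_self h, smul_eq_mul]
  ring

theorem uu_false_yy {v n : Fin k} (h : v ≠ n) (m s₀ t ε : ℝ) :
    uu false v n ⬝ᵥ yy v n m s₀ t ε = 1 := by
  unfold yy W
  rw [dotProduct_add, dotProduct_smul, dotProduct_add, dotProduct_smul, dotProduct_smul,
    uu_P_left h]
  have h1 : uu false v n = ![0, 0, 1] := by simp [uu]
  rw [h1, zz_N, zz_T]
  simp

theorem AA_yy_true {v n : Fin k} (h : v ≠ n) (m s₀ t s ε : ℝ) :
    AA v n true s ε ⬝ᵥ yy v n m s₀ t ε =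
      ε * (-s₀ * (1 + t * ε * m)) + ε * s * (1 + ε * (t * 2 * m)) := by
  unfold AA
  rw [add_dotProduct, smul_dotProduct, base_yy, uu_true_yy h, smul_eq_mul]

theorem AA_yy_false {v n : Fin k} (h : v ≠ n) (m s₀ t s ε : ℝ) :
    AA v n false s ε ⬝ᵥ yy v n m s₀ t ε = ε * (-s₀ * (1 + t * ε * m)) + ε * s := by
  unfold AA
  rw [add_dotProduct, smul_dotProduct, base_yy, uu_false_yy h, smul_eq_mul, mul_one]

theorem same_flip {v n : Fin k} (h : v ≠ n) (κ : Bool) {s m ε : ℝ} (hs : s = 1 ∨ s = -1)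
    (hm : 0 < m) (hε : 0 < ε) :
    (AA v n κ s ε ⬝ᵥ P v) * (AA v n κ s ε ⬝ᵥ yy v n m s (kh κ) ε) < 0 := by
  rw [AA_P h]
  have h3 : 0 < ε ^ 3 * m := by positivity
  cases κ
  · rw [AA_yy_false h, kh, if_neg (by simp)]
    rcases hs with rfl | rfl <;> nlinarith
  · rw [AA_yy_true h, kh, if_pos rfl]
    rcases hs with rfl | rfl <;> nlinarith

theorem same_keep {v n : Fin k} (h : v ≠ n) (κ κ₀ : Bool) {s s₀ m ε : ℝ} (hs : s = 1 ∨ s = -1)
    (hs₀ : s₀ = 1 ∨ s₀ = -1) (hm : 0 < m) (hε : 0 < ε) (hεm : 3 * m * ε < 2)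
    (hne : ¬ (κ = κ₀ ∧ s = s₀)) :
    0 < (AA v n κ s ε ⬝ᵥ P v) * (AA v n κ s ε ⬝ᵥ yy v n m s₀ (kh κ₀) ε) := by
  rw [AA_P h]
  have h3 : 0 < ε ^ 3 * m := by positivity
  have h2 : 0 < ε ^ 2 * (2 - 3 * m * ε) := mul_pos (by positivity) (by linarith)
  have h1 : 0 < ε ^ 2 := by positivity
  cases κ <;> cases κ₀
  · rw [AA_yy_false h, kh, if_neg (by simp)]
    rcases hs with rfl | rfl <;> rcases hs₀ with rfl | rfl <;> simp at hne <;> nlinarith
  · rw [AA_yy_false h, kh, if_pos rfl]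
    rcases hs with rfl | rfl <;> rcases hs₀ with rfl | rfl <;> nlinarith
  · rw [AA_yy_true h, kh, if_neg (by simp)]
    rcases hs with rfl | rfl <;> rcases hs₀ with rfl | rfl <;> nlinarith
  · rw [AA_yy_true h, kh, if_pos rfl]
    rcases hs with rfl | rfl <;> rcases hs₀ with rfl | rfl <;> simp at hne <;> nlinarith

theorem continuous_W (v n : Fin k) (m s₀ t : ℝ) : Continuous (W v n m s₀ t) := by
  unfold W
  fun_prop

theorem continuous_yy (v n : Fin k) (m s₀ t : ℝ) : Continuous (yy v n m s₀ t) := by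
  unfold yy
  exact continuous_const.add (continuous_id.smul (continuous_W v n m s₀ t))

theorem continuous_dot₂ {f g : ℝ → Fin 3 → ℝ} (hf : Continuous f) (hg : Continuous g) :
    Continuous fun ε => f ε ⬝ᵥ g ε := by
  simp only [dotProduct]
  exact continuous_finsetSum _ fun i _ =>
    ((continuous_apply i).comp hf).mul ((continuous_apply i).comp hg)

theorem other_keep {v n l : Fin k} (hvl : v ≠ l) (κ κ₀ : Bool)
    {s s₀ m : ℝ} (hs : s = 1 ∨ s = -1) (hs₀ : s₀ = 1 ∨ s₀ = -1) (hm : 0 < m)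
    (hm2 : |Real.cos ((φ l - φ n) / 2)| + 2 * m * |base v l ⬝ᵥ Tt v n| < 1) :
    ∀ᶠ ε in 𝓝[>] (0 : ℝ),
      0 < (AA v l κ s ε ⬝ᵥ P v) * (AA v l κ s ε ⬝ᵥ yy v n m s₀ (kh κ₀) ε) := by
  have hcont : Continuous fun ε => s * (base v l ⬝ᵥ W v n m s₀ (kh κ₀) ε +
      s * (uu κ v l ⬝ᵥ yy v n m s₀ (kh κ₀) ε)) :=
    continuous_const.mul ((continuous_dot₂ continuous_const (continuous_W v n m s₀ _)).add
      (continuous_const.mul (continuous_dot₂ continuous_const (continuous_yy v n m s₀ _))))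
  have h0 : 0 < s * (base v l ⬝ᵥ W v n m s₀ (kh κ₀) 0 +
      s * (uu κ v l ⬝ᵥ yy v n m s₀ (kh κ₀) 0)) := by
    unfold yy W
    rw [zero_smul, add_zero, uu_P_left hvl, dotProduct_add, dotProduct_smul, dotProduct_smul,
      base_N, smul_eq_mul, smul_eq_mul]
    set γ := Real.cos ((φ l - φ n) / 2)
    set τ := base v l ⬝ᵥ Tt v n
    have hg1 := le_abs_self γ
    have hg2 := neg_abs_le γ
    have ht1 := le_abs_self τ
    have ht2 := neg_abs_le τ
    have hmt1 : m * τ ≤ m * |τ| := mul_le_mul_of_nonneg_left ht1 hm.le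
    have hmt2 : m * -|τ| ≤ m * τ := mul_le_mul_of_nonneg_left ht2 hm.le
    have hk : kh κ₀ = 1 ∨ kh κ₀ = -1 := by cases κ₀ <;> simp [kh]
    rcases hs with rfl | rfl <;> rcases hs₀ with rfl | rfl <;> rcases hk with hk | hk <;>
      rw [hk] <;> nlinarith
  have hev := (hcont.tendsto 0).eventually (lt_mem_nhds h0)
  filter_upwards [nhdsWithin_le_nhds hev, self_mem_nhdsWithin] with ε h1 h2
  have hε : (0 : ℝ) < ε := h2
  rw [AA_P hvl]
  have h3 : AA v l κ s ε ⬝ᵥ yy v n m s₀ (kh κ₀) ε = ε * (base v l ⬝ᵥ W v n m s₀ (kh κ₀) ε +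
      s * (uu κ v l ⬝ᵥ yy v n m s₀ (kh κ₀) ε)) := by
    unfold AA
    rw [add_dotProduct, smul_dotProduct, smul_eq_mul]
    have h4 : base v l ⬝ᵥ yy v n m s₀ (kh κ₀) ε = ε * (base v l ⬝ᵥ W v n m s₀ (kh κ₀) ε) := by
      unfold yy
      rw [dotProduct_add, dotProduct_smul, base_P_left, smul_eq_mul, zero_add]
    rw [h4]
    ring
  rw [h3]
  have h5 : ε * s * (ε * (base v l ⬝ᵥ W v n m s₀ (kh κ₀) ε +
      s * (uu κ v l ⬝ᵥ yy v n m s₀ (kh κ₀) ε))) = ε ^ 2 * (s * (base v l ⬝ᵥ W v n m s₀ (kh κ₀) ε +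
      s * (uu κ v l ⬝ᵥ yy v n m s₀ (kh κ₀) ε))) := by ring
  rw [h5]
  positivity

theorem far_keep {v n i j : Fin k} (hi : i ≠ v) (hj : j ≠ v) (b : Fin 3 → ℝ) (m s₀ t : ℝ) :
    ∀ᶠ ε in 𝓝[>] (0 : ℝ),
      0 < ((base i j + ε • b) ⬝ᵥ P v) * ((base i j + ε • b) ⬝ᵥ yy v n m s₀ t ε) := by
  have hcont : Continuous fun ε : ℝ =>
      ((base i j + ε • b) ⬝ᵥ P v) * ((base i j + ε • b) ⬝ᵥ yy v n m s₀ t ε) :=
    (continuous_dot₂ (by fun_prop) continuous_const).mul
      (continuous_dot₂ (by fun_prop) (continuous_yy v n m s₀ t))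
  have h0 : 0 < ((base i j + (0 : ℝ) • b) ⬝ᵥ P v) *
      ((base i j + (0 : ℝ) • b) ⬝ᵥ yy v n m s₀ t 0) := by
    unfold yy
    rw [zero_smul, add_zero, zero_smul, add_zero]
    exact mul_self_pos.2 (base_P_ne hi hj)
  exact nhdsWithin_le_nhds ((hcont.tendsto 0).eventually (lt_mem_nhds h0))

theorem exists_m (v n : Fin k) : ∃ m : ℝ, 0 < m ∧ ∀ l, l ≠ n →
    |Real.cos ((φ l - φ n) / 2)| + 2 * m * |base v l ⬝ᵥ Tt v n| < 1 := by
  have h : ∀ᶠ m in 𝓝[>] (0 : ℝ), ∀ l, l ≠ n →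
      |Real.cos ((φ l - φ n) / 2)| + 2 * m * |base v l ⬝ᵥ Tt v n| < 1 := by
    rw [Filter.eventually_all]
    intro l
    by_cases hl : l = n
    · exact Filter.Eventually.of_forall fun m h => absurd hl h
    · have hc : Continuous fun m : ℝ =>
          |Real.cos ((φ l - φ n) / 2)| + 2 * m * |base v l ⬝ᵥ Tt v n| := by fun_prop
      have h0 : |Real.cos ((φ l - φ n) / 2)| + 2 * 0 * |base v l ⬝ᵥ Tt v n| < 1 := by
        simpa using cos_half_lt hl
      filter_upwards [nhdsWithin_le_nhds ((hc.tendsto 0).eventually (gt_mem_nhds h0))] with m h _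
      exact h
  obtain ⟨m, h1, h2⟩ := (h.and self_mem_nhdsWithin).exists
  exact ⟨m, h2, h1⟩

end

end Pool.Agent.X158.Arr
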