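import Pool.Agent.X158.ArrDefs

/-!
# Two faces have at most four common bounding lines
-/

namespace Pool.Agent.X158.Arr

open Set Matrix

/-- Four vectors of `ℝ³`, all sign flips at `x` possible: at least two terms of a linear relation
are positive at `x`. -/
theorem two_le_pos {b : Fin 4 → Fin 3 → ℝ} {x : Fin 3 → ℝ} (hx : ∀ i, b i ⬝ᵥ x ≠ 0)
    (hf : ∀ i, Flip b x i) {g : Fin 4 → ℝ} (hg : ∑ i, g i • b i = 0) (hg0 : ∃ i, g i ≠ 0) :
    2 ≤ (Finset.univ.filter fun i => 0 < g i * (b i ⬝ᵥ x)).card := by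
  classical
  have hsum : ∀ y : Fin 3 → ℝ, ∑ i, g i * (b i ⬝ᵥ y) = 0 := by
    intro y
    have h1 : (∑ i, g i • b i) ⬝ᵥ y = 0 := by rw [hg, zero_dotProduct]
    rw [sum_dotProduct] at h1
    simpa [smul_dotProduct, smul_eq_mul] using h1
  by_contra hlt
  push Not at hlt
  have hle : (Finset.univ.filter fun i => 0 < g i * (b i ⬝ᵥ x)).card ≤ 1 := by omega
  -- not all terms are nonpositive
  have hex : ∃ i, 0 < g i * (b i ⬝ᵥ x) := by
    by_contra hno
    push Not at hno
    obtain ⟨i, hi⟩ := hg0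
    have h2 := (Finset.sum_eq_zero_iff_of_nonpos (fun i _ => hno i)).1 (hsum x) i
      (Finset.mem_univ i)
    rcases mul_eq_zero.1 h2 with h3 | h3
    · exact hi h3
    · exact hx i h3
  obtain ⟨j, hj⟩ := hex
  have hnp : ∀ i, i ≠ j → g i * (b i ⬝ᵥ x) ≤ 0 := by
    intro i hij
    by_contra hpos
    push Not at hpos
    have := Finset.card_le_one.1 hle i (by simp [hpos]) j (by simp [hj])
    exact hij this
  obtain ⟨y, hy, hyi⟩ := hf j
  have hneg : g j * (b j ⬝ᵥ y) < 0 := by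
    have h1 : (g j * (b j ⬝ᵥ x)) * (g j * (b j ⬝ᵥ y)) < 0 := by
      have hgj : g j ≠ 0 := by rintro h; rw [h, zero_mul] at hj; exact lt_irrefl _ hj
      have : (g j * (b j ⬝ᵥ x)) * (g j * (b j ⬝ᵥ y)) = (g j) ^ 2 * ((b j ⬝ᵥ x) * (b j ⬝ᵥ y)) := by
        ring
      rw [this]
      exact mul_neg_of_pos_of_neg (by positivity) hy
    by_contra h2
    push Not at h2
    exact absurd h1 (not_lt.2 (mul_nonneg hj.le h2))
  have hnp2 : ∀ i, i ≠ j → g i * (b i ⬝ᵥ y) ≤ 0 := by
    intro i hij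
    have h1 := hyi i hij
    have h2 := hnp i hij
    by_contra h3
    push Not at h3
    have h4 : 0 ≤ -(g i * (b i ⬝ᵥ x)) * (g i * (b i ⬝ᵥ y)) :=
      mul_nonneg (by linarith) h3.le
    have hgi : g i ≠ 0 := by rintro h; rw [h, zero_mul] at h3; exact lt_irrefl _ h3
    have h5 : 0 < (g i) ^ 2 * ((b i ⬝ᵥ x) * (b i ⬝ᵥ y)) := by positivity
    nlinarith
  have hlt2 : ∑ i, g i * (b i ⬝ᵥ y) < 0 := by
    apply Finset.sum_neg' 
    · intro i _
      by_cases hij : i = j
      · subst hij; exact hneg.le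
      · exact hnp2 i hij
    · exact ⟨j, Finset.mem_univ j, hneg⟩
  exact absurd (hsum y) hlt2.ne

theorem card_pos_eq_two {b : Fin 4 → Fin 3 → ℝ} {x : Fin 3 → ℝ} (hx : ∀ i, b i ⬝ᵥ x ≠ 0)
    (hf : ∀ i, Flip b x i) {g : Fin 4 → ℝ} (hg : ∑ i, g i • b i = 0) (hg0 : ∃ i, g i ≠ 0) :
    (Finset.univ.filter fun i => 0 < g i * (b i ⬝ᵥ x)).card = 2 ∧
      ∀ i, g i * (b i ⬝ᵥ x) ≠ 0 := by
  classical
  have h1 := two_le_pos hx hf hg hg0
  have h2 := two_le_pos (g := fun i => -g i) hx hf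
    (by simp only [neg_smul, Finset.sum_neg_distrib, hg, neg_zero])
    (by obtain ⟨i, hi⟩ := hg0; exact ⟨i, neg_ne_zero.2 hi⟩)
  have hdisj : Disjoint (Finset.univ.filter fun i => 0 < g i * (b i ⬝ᵥ x))
      (Finset.univ.filter fun i => 0 < (-g i) * (b i ⬝ᵥ x)) := by
    rw [Finset.disjoint_filter]
    intro i _ h3 h4
    nlinarith
  have hunion := Finset.card_union_of_disjoint hdisj
  have hle : ((Finset.univ.filter fun i => 0 < g i * (b i ⬝ᵥ x)) ∪
      (Finset.univ.filter fun i => 0 < (-g i) * (b i ⬝ᵥ x))).card ≤ 4 :=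
    (Finset.card_le_univ _).trans (by simp)
  refine ⟨by omega, ?_⟩
  have huniv : (Finset.univ.filter fun i => 0 < g i * (b i ⬝ᵥ x)) ∪
      (Finset.univ.filter fun i => 0 < (-g i) * (b i ⬝ᵥ x)) = Finset.univ := by
    apply Finset.eq_univ_of_card
    rw [hunion, Fintype.card_fin]
    omega
  intro i h0
  have := Finset.mem_univ i
  rw [← huniv, Finset.mem_union, Finset.mem_filter, Finset.mem_filter] at this
  rcases this with h | h
  · exact absurd h.2 (by rw [h0]; exact lt_irrefl _)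
  · have h5 := h.2
    rw [neg_mul, h0, neg_zero] at h5
    exact lt_irrefl _ h5

/-- **Parity.** If all sign flips of four forms are possible at `x` and at `y`, then the number of
the forms with different signs at `x` and `y` is even. -/
theorem even_sep {b : Fin 4 → Fin 3 → ℝ} {x y : Fin 3 → ℝ} (hx : ∀ i, b i ⬝ᵥ x ≠ 0)
    (hy : ∀ i, b i ⬝ᵥ y ≠ 0) (hfx : ∀ i, Flip b x i) (hfy : ∀ i, Flip b y i) :
    Even (Finset.univ.filter fun i => (b i ⬝ᵥ x) * (b i ⬝ᵥ y) < 0).card := by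
  classical
  have hdep : ¬ LinearIndependent ℝ b := by
    intro h
    have := h.fintype_card_le_finrank
    simp at this
  obtain ⟨g, hg, hg0⟩ := Fintype.not_linearIndependent_iff.1 hdep
  obtain ⟨cx, nx⟩ := card_pos_eq_two hx hfx hg hg0
  obtain ⟨cy, ny⟩ := card_pos_eq_two hy hfy hg hg0
  have hset : (Finset.univ.filter fun i => (b i ⬝ᵥ x) * (b i ⬝ᵥ y) < 0) =
      symmDiff (Finset.univ.filter fun i => 0 < g i * (b i ⬝ᵥ x))
        (Finset.univ.filter fun i => 0 < g i * (b i ⬝ᵥ y)) := by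
    ext i
    rw [Finset.mem_symmDiff]
    simp only [Finset.mem_filter, Finset.mem_univ, true_and]
    have h1 := nx i
    have h2 := ny i
    have hgi : g i ≠ 0 := left_ne_zero_of_mul h1
    have hg2 : 0 < (g i) ^ 2 := by positivity
    have key : (g i * (b i ⬝ᵥ x)) * (g i * (b i ⬝ᵥ y)) =
      (g i) ^ 2 * ((b i ⬝ᵥ x) * (b i ⬝ᵥ y)) := by ring
    have hiff : (b i ⬝ᵥ x) * (b i ⬝ᵥ y) < 0 ↔
        (g i * (b i ⬝ᵥ x)) * (g i * (b i ⬝ᵥ y)) < 0 := by
      rw [key]
      constructor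
      · intro h; exact mul_neg_of_pos_of_neg hg2 h
      · intro h
        by_contra h3
        push Not at h3
        exact absurd h (not_lt.2 (mul_nonneg hg2.le h3))
    rw [hiff]
    rcases lt_or_gt_of_ne h1 with h3 | h3 <;> rcases lt_or_gt_of_ne h2 with h4 | h4
    · constructor
      · intro h; exact absurd h (not_lt.2 (mul_pos_of_neg_of_neg h3 h4).le)
      · rintro (⟨h5, _⟩ | ⟨h5, _⟩)
        · exact absurd h5 (not_lt.2 h3.le)
        · exact absurd h5 (not_lt.2 h4.le)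
    · constructor
      · intro _; right; exact ⟨h4, not_lt.2 h3.le⟩
      · intro _; exact mul_neg_of_neg_of_pos h3 h4
    · constructor
      · intro _; left; exact ⟨h3, not_lt.2 h4.le⟩
      · intro _; exact mul_neg_of_pos_of_neg h3 h4
    · constructor
      · intro h; exact absurd h (not_lt.2 (mul_pos h3 h4).le)
      · rintro (⟨_, h5⟩ | ⟨_, h5⟩)
        · exact absurd h4 h5
        · exact absurd h3 h5
  rw [hset]
  set A := (Finset.univ.filter fun i => 0 < g i * (b i ⬝ᵥ x))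
  set B := (Finset.univ.filter fun i => 0 < g i * (b i ⬝ᵥ y))
  have h1 : (symmDiff A B).card + 2 * (A ∩ B).card = A.card + B.card := by
    have e1 := Finset.card_sdiff_add_card_inter A B
    have e2 := Finset.card_sdiff_add_card_inter B A
    rw [Finset.inter_comm] at e2
    have e3 : (symmDiff A B).card = (A \ B).card + (B \ A).card := by
      rw [symmDiff_def]
      exact Finset.card_union_of_disjoint disjoint_sdiff_sdiff
    omega
  rw [cx, cy] at h1
  exact ⟨2 - (A ∩ B).card, by omega⟩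


variable {ι : Type}

theorem Flip.comp {a : ι → Fin 3 → ℝ} {x : Fin 3 → ℝ} {n : ℕ} {e : Fin n → ι}
    (he : Function.Injective e) {k : Fin n} (h : Flip a x (e k)) : Flip (a ∘ e) x k := by
  obtain ⟨y, hy, hyj⟩ := h
  exact ⟨y, hy, fun j hj => hyj (e j) (fun h => hj (he h))⟩

theorem Flip.neg {a : ι → Fin 3 → ℝ} {x : Fin 3 → ℝ} {i : ι} (h : Flip a x i) :
    Flip a (-x) i := by
  obtain ⟨y, hy, hyj⟩ := h
  refine ⟨-y, ?_, fun j hj => ?_⟩
  · rw [dotProduct_neg, dotProduct_neg, neg_mul_neg]; exact hy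
  · rw [dotProduct_neg, dotProduct_neg, neg_mul_neg]; exact hyj j hj

/-- Three lines bounding both faces cannot all leave `x` and `y` on the same side, if some other
line separates them. -/
theorem no_three {a : ι → Fin 3 → ℝ} {x y : Fin 3 → ℝ} (hx : x ∈ offLines a)
    (hy : y ∈ offLines a) {f : Fin 3 → ι} (hf : Function.Injective f)
    (hfx : ∀ k, Flip a x (f k)) (hfy : ∀ k, Flip a y (f k))
    (hpos : ∀ k, 0 < (a (f k) ⬝ᵥ x) * (a (f k) ⬝ᵥ y)) {m : ι}
    (hm : (a m ⬝ᵥ x) * (a m ⬝ᵥ y) < 0) : False := by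
  have hmf : ∀ k, f k ≠ m := by
    intro k h
    have := hpos k
    rw [h] at this
    exact absurd this (not_lt.2 hm.le)
  set e : Fin 4 → ι := Fin.snoc (α := fun _ => ι) f m with he
  have e1 : ∀ k : Fin 3, e k.castSucc = f k := fun k => by rw [he, Fin.snoc_castSucc]
  have e2 : e (Fin.last 3) = m := by rw [he, Fin.snoc_last]
  have hinj : Function.Injective e := by
    intro i j
    refine Fin.lastCases ?_ (fun i' => ?_) i <;> refine Fin.lastCases ?_ (fun j' => ?_) j
    · intro _; rfl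
    · rw [e1, e2]; intro h; exact absurd h.symm (hmf j')
    · rw [e1, e2]; intro h; exact absurd h (hmf i')
    · rw [e1, e1]; intro h; rw [hf h]
  have hF : ∀ {u v : Fin 3 → ℝ}, (∀ k, Flip a u (f k)) →
      (∀ k, 0 < (a (f k) ⬝ᵥ u) * (a (f k) ⬝ᵥ v)) → (a m ⬝ᵥ u) * (a m ⬝ᵥ v) < 0 →
      ∀ i, Flip (a ∘ e) u i := by
    intro u v hu huv hmuv i
    refine Fin.lastCases ?_ (fun i' => ?_) i
    · refine ⟨v, ?_, ?_⟩
      · rw [Function.comp_apply, e2]; exact hmuv
      · intro j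
        refine Fin.lastCases ?_ (fun j' => ?_) j
        · intro h; exact absurd rfl h
        · intro _; rw [Function.comp_apply, e1]; exact huv j'
    · apply Flip.comp hinj
      rw [e1]
      exact hu i'
  have h := even_sep (b := a ∘ e) (x := x) (y := y) (fun i => hx (e i)) (fun i => hy (e i))
    (hF hfx hpos hm)
    (hF hfy (fun k => by rw [mul_comm]; exact hpos k) (by rw [mul_comm]; exact hm))
  have hset : (Finset.univ.filter fun i : Fin 4 => ((a ∘ e) i ⬝ᵥ x) * ((a ∘ e) i ⬝ᵥ y) < 0) =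
      {Fin.last 3} := by
    ext i
    simp only [Finset.mem_filter, Finset.mem_univ, true_and, Finset.mem_singleton,
      Function.comp_apply]
    refine Fin.lastCases ?_ (fun i' => ?_) i
    · rw [e2]; exact ⟨fun _ => rfl, fun _ => hm⟩
    · rw [e1]
      constructor
      · intro h1; exact absurd h1 (not_lt.2 (hpos i').le)
      · intro h1; exact absurd h1 (Fin.castSucc_ne_last i')
  rw [hset, Finset.card_singleton] at h
  exact absurd h (by decide)

/-- Five Boolean values such that every four of them have an even number of `true`s are equal. -/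
theorem five_bool : ∀ χ : Fin 5 → Bool,
    (∀ m : Fin 5, Even (Finset.univ.filter fun k : Fin 4 => χ (m.succAbove k) = true).card) →
    ∀ i, χ i = χ 0 := by
  decide

/-- **Two distinct faces have at most four common bounding lines.** -/
theorem card_common_le {a : ι → Fin 3 → ℝ} {x y : Fin 3 → ℝ} (hx : x ∈ offLines a)
    (hy : y ∈ offLines a) (h1 : ¬ ∀ i, 0 < (a i ⬝ᵥ x) * (a i ⬝ᵥ y))
    (h2 : ¬ ∀ i, (a i ⬝ᵥ x) * (a i ⬝ᵥ y) < 0) (I : Finset ι)
    (hI : ∀ i ∈ I, Flip a x i ∧ Flip a y i) : I.card ≤ 4 := by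
  classical
  by_contra hlt
  push Not at hlt
  obtain ⟨φ⟩ : Nonempty (Fin 5 ↪ {i // i ∈ I}) := by
    apply Function.Embedding.nonempty_of_card_le
    rw [Fintype.card_fin, Fintype.card_coe]
    omega
  set f : Fin 5 → ι := fun k => (φ k).1 with hfdef
  have hf : Function.Injective f := fun i j h => φ.injective (Subtype.ext h)
  have hfx : ∀ k, Flip a x (f k) := fun k => (hI _ (φ k).2).1
  have hfy : ∀ k, Flip a y (f k) := fun k => (hI _ (φ k).2).2
  have hne : ∀ i, (a i ⬝ᵥ x) * (a i ⬝ᵥ y) ≠ 0 := fun i => mul_ne_zero (hx i) (hy i)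
  have hpar := five_bool (fun k => decide ((a (f k) ⬝ᵥ x) * (a (f k) ⬝ᵥ y) < 0)) (by
    intro m
    have hinj : Function.Injective (fun k : Fin 4 => f (m.succAbove k)) :=
      hf.comp (Fin.succAbove_right_injective)
    have := even_sep (b := a ∘ fun k : Fin 4 => f (m.succAbove k)) (x := x) (y := y)
      (fun i => hx _) (fun i => hy _) (fun i => Flip.comp hinj (hfx _))
      (fun i => Flip.comp hinj (hfy _))
    simpa using this)
  have hsub : Function.Injective (fun k : Fin 3 => f (Fin.castLE (by norm_num) k)) :=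
    hf.comp (Fin.castLE_injective _)
  by_cases h0 : (a (f 0) ⬝ᵥ x) * (a (f 0) ⬝ᵥ y) < 0
  · -- all five separate `x` and `y`: replace `y` by `-y`
    have hall : ∀ k, (a (f k) ⬝ᵥ x) * (a (f k) ⬝ᵥ y) < 0 := by
      intro k
      have := hpar k
      simpa [h0] using this
    push Not at h2
    obtain ⟨m, hm⟩ := h2
    have hy' : -y ∈ offLines a := by
      intro i
      rw [dotProduct_neg]
      exact neg_ne_zero.2 (hy i)
    refine no_three (y := -y) hx hy' hsub (fun k => hfx _) (fun k => (hfy _).neg) ?_ (m := m) ?_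
    · intro k
      rw [dotProduct_neg, mul_neg, neg_pos]
      exact hall _
    · rw [dotProduct_neg, mul_neg, neg_lt_zero]
      exact lt_of_le_of_ne hm (hne m).symm
  · have hall : ∀ k, 0 < (a (f k) ⬝ᵥ x) * (a (f k) ⬝ᵥ y) := by
      intro k
      have := hpar k
      have h3 : ¬ (a (f k) ⬝ᵥ x) * (a (f k) ⬝ᵥ y) < 0 := by simpa [h0] using this
      exact lt_of_le_of_ne (not_lt.1 h3) (hne _).symm
    push Not at h1
    obtain ⟨m, hm⟩ := h1
    exact no_three hx hy hsub (fun k => hfx _) (fun k => hfy _) (fun k => hall _)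
      (lt_of_le_of_ne hm (hne m))

/-- The faces of `x` and `y` are distinct iff the sign vectors of `x` and `y` are neither equal nor
opposite. -/
theorem face_ne {a : ι → Fin 3 → ℝ} {x y : Fin 3 → ℝ} 
    (h : cone a x ∪ -cone a x ≠ cone a y ∪ -cone a y) :
    (¬ ∀ i, 0 < (a i ⬝ᵥ x) * (a i ⬝ᵥ y)) ∧ (¬ ∀ i, (a i ⬝ᵥ x) * (a i ⬝ᵥ y) < 0) := by
  constructor
  · intro h1
    apply h
    have : cone a x = cone a y := by
      ext z
      refine forall_congr' fun i => ?_
      have hi := h1 i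
      constructor
      · intro h3
        have h4 : 0 < ((a i ⬝ᵥ x) * (a i ⬝ᵥ y)) * ((a i ⬝ᵥ x) * (a i ⬝ᵥ z)) := mul_pos hi h3
        have h5 : 0 < (a i ⬝ᵥ x) ^ 2 := by
          have : a i ⬝ᵥ x ≠ 0 := left_ne_zero_of_mul hi.ne'
          positivity
        have h6 : ((a i ⬝ᵥ x) * (a i ⬝ᵥ y)) * ((a i ⬝ᵥ x) * (a i ⬝ᵥ z)) =
          (a i ⬝ᵥ x) ^ 2 * ((a i ⬝ᵥ y) * (a i ⬝ᵥ z)) := by ring
        rw [h6] at h4
        exact (mul_pos_iff_of_pos_left h5).1 h4
      · intro h3
        have h4 : 0 < ((a i ⬝ᵥ x) * (a i ⬝ᵥ y)) * ((a i ⬝ᵥ y) * (a i ⬝ᵥ z)) := mul_pos hi h3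
        have h5 : 0 < (a i ⬝ᵥ y) ^ 2 := by
          have : a i ⬝ᵥ y ≠ 0 := right_ne_zero_of_mul hi.ne'
          positivity
        have h6 : ((a i ⬝ᵥ x) * (a i ⬝ᵥ y)) * ((a i ⬝ᵥ y) * (a i ⬝ᵥ z)) =
          (a i ⬝ᵥ y) ^ 2 * ((a i ⬝ᵥ x) * (a i ⬝ᵥ z)) := by ring
        rw [h6] at h4
        exact (mul_pos_iff_of_pos_left h5).1 h4
    rw [this]
  · intro h1
    apply h
    have : cone a x = -cone a y := by
      ext z
      rw [Set.mem_neg]
      refine forall_congr' fun i => ?_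
      rw [dotProduct_neg, mul_neg]
      have hi := h1 i
      constructor
      · intro h3
        have h4 : ((a i ⬝ᵥ x) * (a i ⬝ᵥ y)) * ((a i ⬝ᵥ x) * (a i ⬝ᵥ z)) < 0 :=
          mul_neg_of_neg_of_pos hi h3
        have h5 : 0 < (a i ⬝ᵥ x) ^ 2 := by
          have : a i ⬝ᵥ x ≠ 0 := left_ne_zero_of_mul hi.ne
          positivity
        have h6 : ((a i ⬝ᵥ x) * (a i ⬝ᵥ y)) * ((a i ⬝ᵥ x) * (a i ⬝ᵥ z)) =
          -((a i ⬝ᵥ x) ^ 2 * (-((a i ⬝ᵥ y) * (a i ⬝ᵥ z)))) := by ring
        rw [h6, neg_lt_zero] at h4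
        exact (mul_pos_iff_of_pos_left h5).1 h4
      · intro h3
        have h4 : ((a i ⬝ᵥ x) * (a i ⬝ᵥ y)) * (-((a i ⬝ᵥ y) * (a i ⬝ᵥ z))) < 0 :=
          mul_neg_of_neg_of_pos hi h3
        have h5 : 0 < (a i ⬝ᵥ y) ^ 2 := by
          have : a i ⬝ᵥ y ≠ 0 := right_ne_zero_of_mul hi.ne
          positivity
        have h6 : ((a i ⬝ᵥ x) * (a i ⬝ᵥ y)) * (-((a i ⬝ᵥ y) * (a i ⬝ᵥ z))) =
          -((a i ⬝ᵥ y) ^ 2 * ((a i ⬝ᵥ x) * (a i ⬝ᵥ z))) := by ring
        rw [h6, neg_lt_zero] at h4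
        exact (mul_pos_iff_of_pos_left h5).1 h4
    rw [this, neg_neg, union_comm]

/-- The Bonferroni-type inequality: `Σ |L_i| ≤ n + 2 k (k - 1)` if all pairwise intersections have
at most four elements. -/
theorem sum_card_le [Fintype ι] [DecidableEq ι] {k : ℕ} (L : Fin k → Finset ι)
    (h : ∀ i j, i ≠ j → (L i ∩ L j).card ≤ 4) :
    ((∑ i, (L i).card : ℕ) : ℤ) ≤ Fintype.card ι + 2 * k * (k - 1) := by
  classical
  set D : ι → Finset (Fin k) := fun e => Finset.univ.filter fun i => e ∈ L i with hD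
  have h1 : ∑ i, (L i).card = ∑ e : ι, (D e).card := by
    simp only [hD, Finset.card_eq_sum_ones, Finset.sum_filter]
    rw [Finset.sum_comm]
    refine Finset.sum_congr rfl fun i _ => ?_
    rw [← Finset.sum_filter]
    apply Finset.sum_congr _ (fun _ _ => rfl)
    ext e; simp
  have h2 : ∑ p ∈ (Finset.univ : Finset (Fin k)).offDiag, (L p.1 ∩ L p.2).card =
      ∑ e : ι, (D e).offDiag.card := by
    simp only [Finset.card_eq_sum_ones]
    have e1 : ∀ p : Fin k × Fin k, ∑ _x ∈ L p.1 ∩ L p.2, 1 =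
        ∑ e : ι, if (e ∈ L p.1 ∧ e ∈ L p.2) then 1 else 0 := by
      intro p
      rw [← Finset.sum_filter]
      apply Finset.sum_congr _ (fun _ _ => rfl)
      ext e; simp
    simp only [e1]
    rw [Finset.sum_comm]
    refine Finset.sum_congr rfl fun e _ => ?_
    rw [← Finset.sum_filter]
    apply Finset.sum_congr _ (fun _ _ => rfl)
    ext p
    simp only [Finset.mem_filter, Finset.mem_offDiag, Finset.mem_univ, true_and, hD]
    tauto
  have h3 : ∑ p ∈ (Finset.univ : Finset (Fin k)).offDiag, (L p.1 ∩ L p.2).card ≤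
      (k * k - k) * 4 := by
    refine (Finset.sum_le_card_nsmul _ _ 4 ?_).trans ?_
    · intro p hp
      rw [Finset.mem_offDiag] at hp
      exact h _ _ hp.2.2
    · rw [Finset.offDiag_card, Finset.card_univ, Fintype.card_fin, smul_eq_mul]
  have h4 : ∀ e : ι, 2 * (D e).card ≤ 2 + (D e).offDiag.card := by
    intro e
    rw [Finset.offDiag_card]
    generalize (D e).card = d
    rcases Nat.lt_or_ge d 2 with hd | hd
    · omega
    · obtain ⟨c, rfl⟩ := Nat.exists_eq_add_of_le hd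
      have : (2 + c) * (2 + c) - (2 + c) = (2 + c) * (1 + c) := by
        have : (2 + c) * (2 + c) = (2 + c) * (1 + c) + (2 + c) := by ring
        omega
      rw [this]
      nlinarith
  have h5 : 2 * ∑ e : ι, (D e).card ≤ 2 * Fintype.card ι + ∑ e : ι, (D e).offDiag.card := by
    rw [Finset.mul_sum]
    refine (Finset.sum_le_sum fun e _ => h4 e).trans ?_
    rw [Finset.sum_add_distrib, Finset.sum_const, Finset.card_univ, smul_eq_mul, mul_comm]
  rw [h1]
  rw [h2] at h3
  have hk : k ≤ k * k := by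
    rcases Nat.eq_zero_or_pos k with rfl | hk
    · simp
    · exact Nat.le_mul_of_pos_left k hk
  have h6 : 2 * ∑ e : ι, (D e).card + 4 * k ≤ 2 * Fintype.card ι + 4 * (k * k) := by omega
  have h7 : (2 : ℤ) * ((∑ e : ι, (D e).card : ℕ) : ℤ) + 4 * k ≤
      2 * Fintype.card ι + 4 * (k * k) := by exact_mod_cast h6
  linarith

/-- **Upper bound.** -/
theorem upper [Fintype ι] {a : ι → Fin 3 → ℝ} {k : ℕ} {F : Fin k → Set (Fin 3 → ℝ)}
    (hF : ∀ i, IsFace a (F i)) (hinj : Function.Injective F) :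
    (∑ i, (numSides a (F i) : ℤ)) - Fintype.card ι ≤ 2 * k * (k - 1) := by
  classical
  choose x hx hFx using hF
  have hFc : ∀ i, F i = cone a (x i) ∪ -cone a (x i) := by
    intro i
    rw [hFx i, component_eq (hx i)]
  have hns : ∀ i, numSides a (F i) = (Finset.univ.filter fun l => Flip a (x i) l).card := by
    intro i
    rw [numSides, ← Set.ncard_coe_finset]
    congr 1
    ext l
    rw [Set.mem_ofPred_eq, hFc i, containsEdge_iff (hx i)]
    simp
  have h := sum_card_le (fun i => Finset.univ.filter fun l => Flip a (x i) l) (by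
    intro i j hij
    have hne : cone a (x i) ∪ -cone a (x i) ≠ cone a (x j) ∪ -cone a (x j) := by
      rw [← hFc i, ← hFc j]
      exact fun h => hij (hinj h)
    obtain ⟨h1, h2⟩ := face_ne hne
    refine card_common_le (hx i) (hx j) h1 h2 _ ?_
    intro l hl
    rw [Finset.mem_inter, Finset.mem_filter, Finset.mem_filter] at hl
    exact ⟨hl.1.2, hl.2.2⟩)
  simp only [hns]
  push_cast at h
  linarith

end Pool.Agent.X158.Arr
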