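import Mathlib

set_option autoImplicit false

namespace Pool.Agent.X158.Fing

open Filter Topology

/-- Theorem of alternatives for finitely many convex coercive functions. -/
lemma alt {V : Type*} [NormedAddCommGroup V] [NormedSpace ℝ V] {ι : Type*}
    [Fintype ι] [Nonempty ι] (f : ι → V → ℝ) (hc : ∀ i, ConvexOn ℝ Set.univ (f i))
    (hcont : ∀ i, Continuous (f i)) (hco : ∀ i, Tendsto (f i) (cocompact V) atTop)
    (h : ∀ μ : ι → ℝ, (∀ i, 0 ≤ μ i) → ∑ i, μ i = 1 → ∃ o, ∑ i, μ i * f i o ≤ 0) :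
    ∃ o, ∀ i, f i o ≤ 0 := by
  classical
  have hne : (Finset.univ : Finset ι).Nonempty := Finset.univ_nonempty
  let F : V → ℝ := fun o => Finset.univ.sup' hne (fun i => f i o)
  have hFc : Continuous F := by
    apply Continuous.finset_sup'_apply
    intro i _
    exact hcont i
  have hFle : ∀ i o, f i o ≤ F o := fun i o => Finset.le_sup' (fun i => f i o) (Finset.mem_univ i)
  obtain ⟨i0⟩ := ‹Nonempty ι›
  have hFco : Tendsto F (cocompact V) atTop := tendsto_atTop_mono (hFle i0) (hco i0)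
  obtain ⟨o0, ho0⟩ := hFc.exists_forall_le hFco
  by_cases hpos : F o0 ≤ 0
  · exact ⟨o0, fun i => (hFle i o0).trans hpos⟩
  exfalso
  rw [not_le] at hpos
  set δ := F o0 with hδ
  let U : Set (ι → ℝ) := {y | ∀ i, y i < δ}
  let S : Set (ι → ℝ) := {y | ∃ o, ∀ i, f i o ≤ y i}
  have hUo : IsOpen U := by
    have : U = Set.pi Set.univ (fun _ => Set.Iio δ) := by
      ext y; simp [U]
    rw [this]
    exact isOpen_set_pi Set.finite_univ (fun _ _ => isOpen_Iio)
  have hUc : Convex ℝ U := by
    have : U = Set.pi Set.univ (fun _ => Set.Iio δ) := by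
      ext y; simp [U]
    rw [this]
    exact convex_pi (fun _ _ => convex_Iio δ)
  have hSc : Convex ℝ S := by
    intro x hx y hy a b ha hb hab
    obtain ⟨o1, h1⟩ := hx
    obtain ⟨o2, h2⟩ := hy
    refine ⟨a • o1 + b • o2, fun i => ?_⟩
    have h3 := (hc i).2 (Set.mem_univ o1) (Set.mem_univ o2) ha hb hab
    simp only [smul_eq_mul] at h3
    have h4 := mul_le_mul_of_nonneg_left (h1 i) ha
    have h5 := mul_le_mul_of_nonneg_left (h2 i) hb
    simp only [Pi.add_apply, Pi.smul_apply, smul_eq_mul]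
    linarith
  have hdis : Disjoint U S := by
    rw [Set.disjoint_left]
    rintro y hy ⟨o, ho⟩
    have h1 : F o < δ := by
      rw [Finset.sup'_lt_iff]
      intro i _
      exact (ho i).trans_lt (hy i)
    exact absurd (ho0 o) (not_le.2 h1)
  obtain ⟨φ, u, hφ1, hφ2⟩ := geometric_hahn_banach_open hUc hUo hSc hdis
  let c : ι → ℝ := fun i => φ (Pi.single i 1)
  have hφ : ∀ y : ι → ℝ, φ y = ∑ i, y i * c i := by
    intro y
    have h1 : y = ∑ i, y i • (Pi.single i (1 : ℝ) : ι → ℝ) := by
      ext j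
      simp [Finset.sum_apply, Pi.single_apply]
    conv_lhs => rw [h1]
    rw [map_sum]
    apply Finset.sum_congr rfl
    intro i _
    rw [map_smul, smul_eq_mul]
  have hS0 : (fun i => f i o0) ∈ S := ⟨o0, fun i => le_rfl⟩
  have hc0 : ∀ i, 0 ≤ c i := by
    intro i
    by_contra hneg
    rw [not_le] at hneg
    -- move far along e_i
    set y0 : ι → ℝ := fun i => f i o0 with hy0
    let t : ℝ := max 0 ((u - φ y0 - 1) / c i)
    have ht0 : 0 ≤ t := le_max_left _ _
    have hmem : y0 + t • (Pi.single i (1 : ℝ) : ι → ℝ) ∈ S := by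
      refine ⟨o0, fun j => ?_⟩
      simp only [Pi.add_apply, Pi.smul_apply, smul_eq_mul, hy0]
      by_cases hj : j = i
      · subst hj; simp; exact ht0
      · simp [Pi.single_apply, hj]
    have h2 := hφ2 _ hmem
    rw [map_add, map_smul, smul_eq_mul] at h2
    have h3 : (u - φ y0 - 1) / c i ≤ t := le_max_right _ _
    have h4 : t * c i ≤ u - φ y0 - 1 := by
      have := mul_le_mul_of_nonpos_right h3 hneg.le
      rwa [div_mul_cancel₀ _ hneg.ne] at this
    have h5 : φ (Pi.single i (1 : ℝ)) = c i := rfl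
    rw [h5] at h2
    linarith
  have hsum_nonneg : 0 ≤ ∑ i, c i := Finset.sum_nonneg (fun i _ => hc0 i)
  have hlim : δ * ∑ i, c i ≤ u := by
    by_contra hlt
    rw [not_le] at hlt
    have hsp : 0 < ∑ i, c i := by
      rcases hsum_nonneg.lt_or_eq with h1 | h1
      · exact h1
      · exfalso
        have hz : ∀ i, c i = 0 := fun i =>
          (Finset.sum_eq_zero_iff_of_nonneg (fun i _ => hc0 i)).1 h1.symm i (Finset.mem_univ i)
        have h2 := hφ1 (fun _ => δ - 1) (fun i => by simp)
        rw [hφ] at h2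
        simp [hz] at h2
        rw [← h1, mul_zero] at hlt
        linarith
    let ε : ℝ := (δ * ∑ i, c i - u) / (2 * ∑ i, c i)
    have hε : 0 < ε := div_pos (by linarith) (by linarith)
    have h2 := hφ1 (fun _ => δ - ε) (fun i => by simp [hε])
    rw [hφ, ← Finset.mul_sum] at h2
    have h3 : ε * ∑ i, c i = (δ * ∑ i, c i - u) / 2 := by
      simp only [ε]
      field_simp
    nlinarith
  have hsp : 0 < ∑ i, c i := by
    rcases hsum_nonneg.lt_or_eq with h1 | h1
    · exact h1
    · exfalso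
      have hz : ∀ i, c i = 0 := fun i =>
        (Finset.sum_eq_zero_iff_of_nonneg (fun i _ => hc0 i)).1 h1.symm i (Finset.mem_univ i)
      have h2 := hφ1 (fun _ => δ - 1) (fun i => by simp)
      have h3 := hφ2 _ hS0
      rw [hφ] at h2 h3
      simp [hz] at h2 h3
      linarith
  obtain ⟨o, ho⟩ := h (fun i => c i / ∑ j, c j) (fun i => div_nonneg (hc0 i) hsum_nonneg)
    (by rw [← Finset.sum_div, div_self hsp.ne'])
  have h1 := hφ2 (fun i => f i o) ⟨o, fun i => le_rfl⟩
  rw [hφ] at h1
  have h2 : ∑ i, c i / (∑ j, c j) * f i o = (∑ i, f i o * c i) / ∑ j, c j := by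
    rw [Finset.sum_div]
    apply Finset.sum_congr rfl
    intro i _
    ring
  rw [h2] at ho
  have h3 : ∑ i, f i o * c i ≤ 0 := by
    by_contra hlt
    rw [not_le] at hlt
    exact absurd ho (not_le.2 (div_pos hlt hsp))
  have h4 : 0 < δ * ∑ i, c i := mul_pos hpos hsp
  linarith

end Pool.Agent.X158.Fing
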