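import Pool.Agent.X158.FingA

set_option autoImplicit false

namespace Pool.Agent.X158.Fing

open Filter Topology

section diam
variable {V : Type*} [NormedAddCommGroup V] [InnerProductSpace ℝ V] [FiniteDimensional ℝ V]

lemma coercive_norm_sub (m : V) : Tendsto (fun o : V => ‖o - m‖) (cocompact V) atTop := by
  have : ProperSpace V := FiniteDimensional.proper_real V
  have h1 : Tendsto (fun o : V => ‖o‖ - ‖m‖) (cocompact V) atTop :=
    tendsto_atTop_add_const_right _ _ tendsto_norm_cocompact_atTop
  exact tendsto_atTop_mono (fun o => norm_sub_norm_le o m) h1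

lemma convex_norm_sub (m : V) : ConvexOn ℝ Set.univ (fun o : V => ‖o - m‖) := by
  refine ⟨convex_univ, ?_⟩
  intro x _ y _ a b ha hb hab
  have h1 : a • x + b • y - m = a • (x - m) + b • (y - m) := by
    have : m = a • m + b • m := by rw [← add_smul, hab, one_smul]
    conv_lhs => rw [this]
    rw [smul_sub, smul_sub]; abel
  simp only
  rw [h1]
  calc ‖a • (x - m) + b • (y - m)‖ ≤ ‖a • (x - m)‖ + ‖b • (y - m)‖ := norm_add_le _ _
    _ = a • ‖x - m‖ + b • ‖y - m‖ := by
      rw [norm_smul, norm_smul, Real.norm_of_nonneg ha, Real.norm_of_nonneg hb]; rfl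

/-- Diametral balls of a 2-swap optimal family of pairs have a common point. -/
lemma diam {ι : Type*} [Fintype ι] [Nonempty ι] (x y : ι → V)
    (h : ∀ a c, inner ℝ (x a) (y a) + inner ℝ (x c) (y c) ≤ inner ℝ (x a) (y c) + inner ℝ (x c) (y a)) :
    ∃ o : V, ∀ a, inner ℝ (x a - o) (y a - o) ≤ 0 := by
  have : ProperSpace V := FiniteDimensional.proper_real V
  let m : ι → V := fun a => (1 / 2 : ℝ) • (x a + y a)
  let f : ι → V → ℝ := fun a o => ‖o - m a‖ ^ 2 - ‖x a - y a‖ ^ 2 / 4
  have hf : ∀ a o, f a o = inner ℝ (x a - o) (y a - o) := by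
    intro a o
    simp only [f, m]
    have e1 : ‖o - (1 / 2 : ℝ) • (x a + y a)‖ ^ 2 = ‖o‖ ^ 2 - inner ℝ o (x a) - inner ℝ o (y a)
        + (1 / 4) * ‖x a + y a‖ ^ 2 := by
      rw [norm_sub_sq_real, inner_smul_right, inner_add_right, norm_smul]
      simp
      ring
    rw [e1, norm_add_sq_real, norm_sub_sq_real, inner_sub_left, inner_sub_right, inner_sub_right,
      real_inner_self_eq_norm_sq, real_inner_comm (x a) o]
    ring
  have hconv : ∀ a, ConvexOn ℝ Set.univ (f a) := by
    intro a
    have h1 : ConvexOn ℝ Set.univ (fun o : V => ‖o - m a‖ ^ 2) :=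
      (convex_norm_sub (m a)).pow (fun _ _ => norm_nonneg _) 2
    have h2 := h1.add_const (-(‖x a - y a‖ ^ 2 / 4))
    have e : f a = (fun o : V => ‖o - m a‖ ^ 2) + fun _ => -(‖x a - y a‖ ^ 2 / 4) := by
      funext o; simp only [f, Pi.add_apply]; ring
    rw [e]
    exact h2
  have hcont : ∀ a, Continuous (f a) := by
    intro a; simp only [f]; fun_prop
  have hco : ∀ a, Tendsto (f a) (cocompact V) atTop := by
    intro a
    have h1 : Tendsto (fun o : V => ‖o - m a‖ ^ 2) (cocompact V) atTop :=
      (tendsto_pow_atTop (by norm_num : (2 : ℕ) ≠ 0)).comp (coercive_norm_sub (m a))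
    have h2 := tendsto_atTop_add_const_right _ (-(‖x a - y a‖ ^ 2 / 4)) h1
    exact h2
  obtain ⟨o, ho⟩ := alt f hconv hcont hco (by
    intro μ hμ hs
    let X : V := ∑ a, μ a • x a
    let Y : V := ∑ a, μ a • y a
    let o : V := (1 / 2 : ℝ) • (X + Y)
    refine ⟨o, ?_⟩
    have e1 : ∑ a, μ a * f a o = ∑ a, μ a * inner ℝ (x a) (y a) - inner ℝ o (X + Y) + ‖o‖ ^ 2 := by
      have : ∀ a, μ a * f a o = μ a * inner ℝ (x a) (y a) - inner ℝ o (μ a • x a) -
          inner ℝ o (μ a • y a) + μ a * ‖o‖ ^ 2 := by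
        intro a
        rw [hf, inner_sub_left, inner_sub_right, inner_sub_right, real_inner_self_eq_norm_sq,
          real_inner_comm o (x a), inner_smul_right, inner_smul_right]
        ring
      rw [Finset.sum_congr rfl (fun a _ => this a)]
      rw [Finset.sum_add_distrib, Finset.sum_sub_distrib, Finset.sum_sub_distrib, ← inner_sum,
        ← inner_sum, ← Finset.sum_mul, hs, one_mul, inner_add_right]
      ring
    have e2 : inner ℝ o (X + Y) = 2 * ‖o‖ ^ 2 := by
      have : X + Y = (2 : ℝ) • o := by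
        simp only [o]; rw [smul_smul]; norm_num
      rw [this, inner_smul_right, real_inner_self_eq_norm_sq]
    have e3 : ‖o‖ ^ 2 = (1 / 4) * (‖X‖ ^ 2 + 2 * inner ℝ X Y + ‖Y‖ ^ 2) := by
      simp only [o]
      rw [norm_smul, mul_pow, norm_add_sq_real]
      norm_num
    have e4 : inner ℝ X Y = ∑ a, ∑ c, μ a * μ c * inner ℝ (x a) (y c) := by
      simp only [X, Y]
      rw [sum_inner]
      apply Finset.sum_congr rfl
      intro a _
      rw [inner_sum]
      apply Finset.sum_congr rfl
      intro c _
      rw [inner_smul_left, inner_smul_right]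
      simp
      ring
    have e5 : ∑ a, μ a * inner ℝ (x a) (y a) ≤ inner ℝ X Y := by
      have h1 : ∑ a, ∑ c, μ a * μ c * (inner ℝ (x a) (y a) + inner ℝ (x c) (y c)) ≤
          ∑ a, ∑ c, μ a * μ c * (inner ℝ (x a) (y c) + inner ℝ (x c) (y a)) := by
        apply Finset.sum_le_sum
        intro a _
        apply Finset.sum_le_sum
        intro c _
        exact mul_le_mul_of_nonneg_left (h a c) (mul_nonneg (hμ a) (hμ c))
      have h2 : ∑ a, ∑ c, μ a * μ c * (inner ℝ (x a) (y a) + inner ℝ (x c) (y c)) =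
          2 * ∑ a, μ a * inner ℝ (x a) (y a) := by
        simp_rw [mul_add, Finset.sum_add_distrib]
        have h3 : ∑ a, ∑ c, μ a * μ c * inner ℝ (x a) (y a) = ∑ a, μ a * inner ℝ (x a) (y a) := by
          apply Finset.sum_congr rfl
          intro a _
          rw [← Finset.sum_mul, ← Finset.mul_sum, hs, mul_one]
        have h4 : ∑ a, ∑ c, μ a * μ c * inner ℝ (x c) (y c) = ∑ c, μ c * inner ℝ (x c) (y c) := by
          rw [Finset.sum_comm]
          apply Finset.sum_congr rfl
          intro c _
          rw [← Finset.sum_mul, ← Finset.sum_mul, hs, one_mul]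
        rw [h3, h4]; ring
      have h5 : ∑ a, ∑ c, μ a * μ c * (inner ℝ (x a) (y c) + inner ℝ (x c) (y a)) =
          2 * inner ℝ X Y := by
        simp_rw [mul_add, Finset.sum_add_distrib]
        rw [← e4]
        have h6 : ∑ a, ∑ c, μ a * μ c * inner ℝ (x c) (y a) = inner ℝ X Y := by
          rw [Finset.sum_comm, e4]
          apply Finset.sum_congr rfl
          intro a _
          apply Finset.sum_congr rfl
          intro c _
          ring
        rw [h6]; ring
      rw [h2, h5] at h1
      linarith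
    have e6 : 0 ≤ ‖X‖ ^ 2 - 2 * inner ℝ X Y + ‖Y‖ ^ 2 := by
      rw [← norm_sub_sq_real]; positivity
    rw [e1, e2]
    linarith)
  exact ⟨o, fun a => by rw [← hf]; exact ho a⟩

end diam

section coupling
variable {n : ℕ}

/-- couplings of the weight with itself -/
def Cpl (lam : Fin n → ℝ) : Set (Fin n → Fin n → ℝ) :=
  {π | (∀ i j, 0 ≤ π i j) ∧ (∀ i, ∑ j, π i j = lam i) ∧ ∀ j, ∑ i, π i j = lam j}

lemma Cpl_compact (lam : Fin n → ℝ) : IsCompact (Cpl lam) := by
  have h1 : IsCompact (Set.pi Set.univ (fun i : Fin n => Set.pi Set.univ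
      (fun _ : Fin n => Set.Icc (0 : ℝ) (lam i)))) :=
    isCompact_univ_pi (fun i => isCompact_univ_pi (fun _ => isCompact_Icc))
  apply h1.of_isClosed_subset
  · have e : Cpl lam = (⋂ i, ⋂ j, {π : Fin n → Fin n → ℝ | 0 ≤ π i j}) ∩
        ((⋂ i, {π : Fin n → Fin n → ℝ | ∑ j, π i j = lam i}) ∩
          ⋂ j, {π : Fin n → Fin n → ℝ | ∑ i, π i j = lam j}) := by
      ext π; simp [Cpl]
    rw [e]
    refine IsClosed.inter ?_ (IsClosed.inter ?_ ?_)
    · refine isClosed_iInter fun i => isClosed_iInter fun j => ?_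
      exact isClosed_le continuous_const (by fun_prop)
    · refine isClosed_iInter fun i => ?_
      exact isClosed_eq (by fun_prop) continuous_const
    · refine isClosed_iInter fun i => ?_
      exact isClosed_eq (by fun_prop) continuous_const
  · intro π hπ i _ j _
    refine ⟨hπ.1 i j, ?_⟩
    rw [← hπ.2.1 i]
    exact Finset.single_le_sum (fun k _ => hπ.1 i k) (Finset.mem_univ j)

/-- There is a cost-minimal coupling; its support is 2-swap optimal. -/
lemma exists_cpl (lam : Fin n → ℝ) (hlam : ∀ i, 0 ≤ lam i) (s : Fin n → Fin n → ℝ) :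
    ∃ π ∈ Cpl lam, ∀ i j k l, 0 < π i j → 0 < π k l → s i j + s k l ≤ s i l + s k j := by
  have hne : (Cpl lam).Nonempty := by
    refine ⟨fun i j => if i = j then lam i else 0, ?_, ?_, ?_⟩
    · intro i j
      simp only
      split_ifs
      · exact hlam i
      · exact le_rfl
    · intro i; simp
    · intro j; simp
  obtain ⟨π, hπ, hmin⟩ := (Cpl_compact lam).exists_isMinOn hne
    (f := fun π => ∑ i, ∑ j, π i j * s i j) (by fun_prop)
  refine ⟨π, hπ, ?_⟩
  intro i j k l hij hkl
  by_cases hik : i = k
  · subst hik; linarith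
  by_cases hjl : j = l
  · subst hjl; linarith
  let ε := min (π i j) (π k l)
  have hε : 0 < ε := lt_min hij hkl
  let A : Fin n → ℝ := fun a => (if a = i then 1 else 0) - (if a = k then 1 else 0)
  let B : Fin n → ℝ := fun c => (if c = l then 1 else 0) - (if c = j then 1 else 0)
  have hA : ∑ a, A a = 0 := by simp [A]
  have hB : ∑ c, B c = 0 := by simp [B]
  let π' : Fin n → Fin n → ℝ := fun a c => π a c + ε * (A a * B c)
  have hmem : π' ∈ Cpl lam := by
    refine ⟨?_, ?_, ?_⟩
    · intro a c
      have h0 := hπ.1 a c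
      have e1 : ε ≤ π i j := min_le_left _ _
      have e2 : ε ≤ π k l := min_le_right _ _
      simp only [π', A, B]
      by_cases ai : a = i
      · have ak : a ≠ k := fun h => hik (ai.symm.trans h)
        by_cases cl : c = l
        · have cj : c ≠ j := fun h => hjl (h.symm.trans cl)
          simp only [ai, hik, cl, (Ne.symm hjl), if_true, if_false]
          rw [ai, cl] at h0; nlinarith
        · by_cases cj : c = j
          · simp only [ai, hik, cj, hjl, if_true, if_false]
            nlinarith
          · simp only [cl, cj, if_false]; simpa using h0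
      · by_cases ak : a = k
        · by_cases cl : c = l
          · have cj : c ≠ j := fun h => hjl (h.symm.trans cl)
            simp only [ak, (Ne.symm hik), cl, (Ne.symm hjl), if_true, if_false]
            nlinarith
          · by_cases cj : c = j
            · simp only [ak, (Ne.symm hik), cj, hjl, if_true, if_false]
              rw [ak, cj] at h0; nlinarith
            · simp only [cl, cj, if_false]; simpa using h0
        · simp only [ai, ak, if_false]; simpa using h0
    · intro a
      simp only [π']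
      rw [Finset.sum_add_distrib, ← Finset.mul_sum, ← Finset.mul_sum, hB, hπ.2.1 a]; ring
    · intro c
      simp only [π']
      rw [Finset.sum_add_distrib, ← Finset.mul_sum, ← Finset.sum_mul, hA, hπ.2.2 c]; ring
  have h1 := hmin hmem
  have h2 : ∑ a, ∑ c, π' a c * s a c = ∑ a, ∑ c, π a c * s a c +
      ε * (s i l - s i j - s k l + s k j) := by
    have h3 : ∀ a, ∑ c, π' a c * s a c = ∑ c, π a c * s a c + ε * (A a * (s a l - s a j)) := by
      intro a
      have h4 : ∑ c, B c * s a c = s a l - s a j := by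
        simp only [B, sub_mul, Finset.sum_sub_distrib, ite_mul, one_mul, zero_mul]
        simp
      rw [← h4, Finset.mul_sum, Finset.mul_sum, ← Finset.sum_add_distrib]
      apply Finset.sum_congr rfl
      intro c _
      simp only [π']; ring
    rw [Finset.sum_congr rfl (fun a _ => h3 a), Finset.sum_add_distrib, ← Finset.mul_sum]
    congr 2
    simp only [A, sub_mul, Finset.sum_sub_distrib, ite_mul, one_mul, zero_mul]
    simp
    ring
  have h5 : 0 ≤ ε * (s i l - s i j - s k l + s k j) := by
    have : ∑ a, ∑ c, π a c * s a c ≤ ∑ a, ∑ c, π' a c * s a c := h1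
    linarith
  have h6 := nonneg_of_mul_nonneg_right h5 hε
  linarith

/-- A permutation-optimal cost is optimal among all couplings (Birkhoff). -/
lemma cpl_le (lam : Fin n → ℝ) (hlam : ∀ i, lam i ≤ 1) (c : Fin n → Fin n → ℝ)
    (hc : ∀ σ : Equiv.Perm (Fin n), ∑ i, c i (σ i) ≤ ∑ i, c i i)
    (π : Fin n → Fin n → ℝ) (hπ : π ∈ Cpl lam) :
    ∑ i, ∑ j, π i j * c i j ≤ ∑ i, lam i * c i i := by
  let P : Matrix (Fin n) (Fin n) ℝ := fun i j => π i j + if i = j then 1 - lam i else 0
  have hP : P ∈ doublyStochastic ℝ (Fin n) := by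
    rw [mem_doublyStochastic_iff_sum]
    refine ⟨?_, ?_, ?_⟩
    · intro i j
      simp only [P]
      split_ifs
      · have := hπ.1 i j; have := hlam i; linarith
      · have := hπ.1 i j; linarith
    · intro i
      simp only [P, Finset.sum_add_distrib, hπ.2.1 i]
      simp
    · intro j
      simp only [P, Finset.sum_add_distrib, hπ.2.2 j]
      simp
  obtain ⟨w, hw0, hw1, hw⟩ := exists_eq_sum_perm_of_mem_doublyStochastic hP
  have h1 : ∑ i, ∑ j, P i j * c i j = ∑ σ : Equiv.Perm (Fin n), w σ * ∑ i, c i (σ i) := by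
    rw [← hw]
    have h2 : ∀ i j, (∑ σ : Equiv.Perm (Fin n), w σ • σ.permMatrix ℝ) i j * c i j =
        ∑ σ : Equiv.Perm (Fin n), w σ * ((if σ i = j then 1 else 0) * c i j) := by
      intro i j
      rw [Matrix.sum_apply, Finset.sum_mul]
      apply Finset.sum_congr rfl
      intro σ _
      simp only [Matrix.smul_apply, smul_eq_mul, Equiv.Perm.permMatrix, PEquiv.toMatrix_apply,
        Equiv.toPEquiv_apply, Option.mem_def, Option.some.injEq]
      ring
    simp_rw [h2]
    have h3 : ∀ i, ∑ j, ∑ σ : Equiv.Perm (Fin n), w σ * ((if σ i = j then 1 else 0) * c i j) =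
        ∑ σ : Equiv.Perm (Fin n), w σ * c i (σ i) := by
      intro i
      rw [Finset.sum_comm]
      apply Finset.sum_congr rfl
      intro σ _
      rw [← Finset.mul_sum]
      simp
    simp_rw [h3]
    rw [Finset.sum_comm]
    apply Finset.sum_congr rfl
    intro σ _
    rw [Finset.mul_sum]
  have h4 : ∑ σ : Equiv.Perm (Fin n), w σ * ∑ i, c i (σ i) ≤ ∑ i, c i i := by
    calc ∑ σ : Equiv.Perm (Fin n), w σ * ∑ i, c i (σ i)
        ≤ ∑ σ : Equiv.Perm (Fin n), w σ * ∑ i, c i i :=
          Finset.sum_le_sum (fun σ _ => mul_le_mul_of_nonneg_left (hc σ) (hw0 σ))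
      _ = ∑ i, c i i := by rw [← Finset.sum_mul, hw1, one_mul]
  have h5 : ∑ i, ∑ j, P i j * c i j = ∑ i, ∑ j, π i j * c i j + ∑ i, (1 - lam i) * c i i := by
    rw [← Finset.sum_add_distrib]
    apply Finset.sum_congr rfl
    intro i _
    simp only [P, add_mul, Finset.sum_add_distrib, ite_mul, zero_mul]
    simp
  have h6 : ∑ i, (1 - lam i) * c i i = ∑ i, c i i - ∑ i, lam i * c i i := by
    rw [← Finset.sum_sub_distrib]
    apply Finset.sum_congr rfl
    intro i _
    ring
  linarith

end coupling

end Pool.Agent.X158.Fing
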