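import Mathlib

set_option autoImplicit false

namespace Pool.Agent.X158.Sep8

/-- negation of a literal -/
def neg (l : ℕ) : ℕ := cond (Nat.beq (l % 2) 0) (l + 1) (l - 1)

def enc (s a b c d : ℕ) : ℕ := 2 * (((a * 8 + b) * 8 + c) * 8 + d) + s % 2

def l5 (s a b c d : ℕ) : ℕ := cond (Nat.blt c b) (enc (s + 1) a c b d) (enc s a b c d)
def l4 (s a b c d : ℕ) : ℕ := cond (Nat.blt d b) (l5 (s + 1) a d c b) (l5 s a b c d)
def l3 (s a b c d : ℕ) : ℕ := cond (Nat.blt c a) (l4 (s + 1) c b a d) (l4 s a b c d)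
def l2 (s a b c d : ℕ) : ℕ := cond (Nat.blt d c) (l3 (s + 1) a b d c) (l3 s a b c d)
def l1 (s a b c d : ℕ) : ℕ := cond (Nat.blt b a) (l2 (s + 1) b a c d) (l2 s a b c d)

/-- literal: separability of the mask `A` -/
def sepl (A : ℕ) : ℕ := 2 * (4096 + A)

def tb (m i : ℕ) : Bool := Nat.beq ((m >>> i) % 2) 1

/-- all six (five) arguments below 8 and distinct -/
def ok6 (x y a b c d : ℕ) : Bool :=
  Nat.blt x 8 && Nat.blt y 8 && Nat.blt a 8 && Nat.blt b 8 && Nat.blt c 8 && Nat.blt d 8 &&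
  !(Nat.beq x y) && !(Nat.beq x a) && !(Nat.beq x b) && !(Nat.beq x c) && !(Nat.beq x d) &&
  !(Nat.beq y a) && !(Nat.beq y b) && !(Nat.beq y c) && !(Nat.beq y d) &&
  !(Nat.beq a b) && !(Nat.beq a c) && !(Nat.beq a d) && !(Nat.beq b c) && !(Nat.beq b d) &&
  !(Nat.beq c d)

def ok5 (a b c d e : ℕ) : Bool :=
  Nat.blt a 8 && Nat.blt b 8 && Nat.blt c 8 && Nat.blt d 8 && Nat.blt e 8 &&
  !(Nat.beq a b) && !(Nat.beq a c) && !(Nat.beq a d) && !(Nat.beq a e) &&
  !(Nat.beq b c) && !(Nat.beq b d) && !(Nat.beq b e) &&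
  !(Nat.beq c d) && !(Nat.beq c e) && !(Nat.beq d e)

def ok3 (a b c : ℕ) : Bool :=
  Nat.blt a 8 && Nat.blt b 8 && Nat.blt c 8 &&
  !(Nat.beq a b) && !(Nat.beq a c) && !(Nat.beq b c)

def gp (x y a b c d t i j k : ℕ) : List ℕ :=
  [neg (l1 i x y a b), neg (l1 (t + i) x y c d),
   neg (l1 j x y a c), neg (l1 (t + 1 + j) x y b d),
   neg (l1 k x y a d), neg (l1 (t + k) x y b c)]

def ac (a b c d e t : ℕ) : List ℕ :=
  [neg (l1 t b c d e), neg (l1 (t + 1) a c d e), neg (l1 t a b d e), neg (l1 (t + 1) a b c e),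
   neg (l1 t a b c d)]

def wl (A a b c t : ℕ) : ℕ → List ℕ
  | 0 => [sepl A]
  | d + 1 => cond (Nat.beq d a || Nat.beq d b || Nat.beq d c) (wl A a b c t d)
      (neg (l1 (cond (tb A d) t (t + 1)) a b c d) :: wl A a b c t d)

def code (A B C i : ℕ) : ℕ := 4 * ((A >>> i) % 2) + 2 * ((B >>> i) % 2) + (C >>> i) % 2

def okT (A B C : ℕ) : Bool :=
  Nat.beq
    ((1 <<< code A B C 0) ||| (1 <<< code A B C 1) ||| (1 <<< code A B C 2) |||
     (1 <<< code A B C 3) ||| (1 <<< code A B C 4) ||| (1 <<< code A B C 5) |||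
     (1 <<< code A B C 6) ||| (1 <<< code A B C 7)) 255

/-- the clause encoded by a number -/
def clause (h : ℕ) : Option (List ℕ) :=
  let f := h % 4
  let v := h / 4
  cond (Nat.beq f 0)
    (let k := v % 8
     let v := v / 8
     let t := v % 2
     let v := v / 2
     let d := v % 8
     let c := v / 8 % 8
     let b := v / 64 % 8
     let a := v / 512 % 8
     let y := v / 4096 % 8
     let x := v / 32768 % 8
     cond (ok6 x y a b c d) (some (gp x y a b c d t (k % 2) (k / 2 % 2) (k / 4 % 2))) none)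
    (cond (Nat.beq f 1)
      (let t := v % 2
       let v := v / 2
       let e := v % 8
       let d := v / 8 % 8
       let c := v / 64 % 8
       let b := v / 512 % 8
       let a := v / 4096 % 8
       cond (ok5 a b c d e) (some (ac a b c d e t)) none)
      (cond (Nat.beq f 2)
        (let t := v % 2
         let v := v / 2
         let c := v % 8
         let b := v / 8 % 8
         let a := v / 64 % 8
         let A := v / 512
         cond (ok3 a b c) (some (wl A a b c t 8)) none)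
        (let C := v % 256
         let B := v / 256 % 256
         let A := v / 65536
         cond (okT A B C) (some [neg (sepl A), neg (sepl B), neg (sepl C)]) none)))

def unf (m : ℕ) : List ℕ → List ℕ
  | [] => []
  | l :: t => cond (tb m l) (unf m t) (l :: unf m t)

def leaf (m : ℕ) : List ℕ → Bool
  | [] => false
  | h :: t =>
    match clause h with
    | none => false
    | some c =>
      match unf m c with
      | [] => true
      | [l] => leaf (m ||| (1 <<< neg l)) t
      | _ => false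

def run : ℕ → ℕ → List (List ℕ) → Option (List (List ℕ))
  | 0, _, _ => none
  | _ + 1, _, [] => none
  | k + 1, m, h :: rest =>
    match h with
    | [] => none
    | 0 :: ls =>
      match ls with
      | [] => none
      | l :: _ =>
        match run k (m ||| (1 <<< neg l)) rest with
        | none => none
        | some rest' => run k (m ||| (1 <<< l)) rest'
    | (_ + 1) :: hs => cond (leaf m hs) (some rest) none

/-- initial mask: the literals `D 0 1 i j > 0` (`2 ≤ i < j ≤ 7`) are true -/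
def m0 : ℕ :=
  (1 <<< neg (enc 0 0 1 2 3)) ||| (1 <<< neg (enc 0 0 1 2 4)) ||| (1 <<< neg (enc 0 0 1 2 5)) |||
  (1 <<< neg (enc 0 0 1 2 6)) ||| (1 <<< neg (enc 0 0 1 2 7)) ||| (1 <<< neg (enc 0 0 1 3 4)) |||
  (1 <<< neg (enc 0 0 1 3 5)) ||| (1 <<< neg (enc 0 0 1 3 6)) ||| (1 <<< neg (enc 0 0 1 3 7)) |||
  (1 <<< neg (enc 0 0 1 4 5)) ||| (1 <<< neg (enc 0 0 1 4 6)) ||| (1 <<< neg (enc 0 0 1 4 7)) |||
  (1 <<< neg (enc 0 0 1 5 6)) ||| (1 <<< neg (enc 0 0 1 5 7)) ||| (1 <<< neg (enc 0 0 1 6 7))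

end Pool.Agent.X158.Sep8
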