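import Pool.Agent.X158.Sep8Geo

set_option autoImplicit false

namespace Pool.Agent.X158.Sep8

lemma gp_id (x y a b c d : E3) :
    DD x y a b * DD x y c d - DD x y a c * DD x y b d + DD x y a d * DD x y b c = 0 := by
  have h : ∀ u v w z t : E3, det3 u v w * det3 u z t - det3 u v z * det3 u w t +
      det3 u v t * det3 u w z = 0 := by
    intro u v w z t
    simp only [det3]; ring
  exact h _ _ _ _ _

lemma ac_id (a b c d e : E3) :
    DD b c d e - DD a c d e + DD a b d e - DD a b c e + DD a b c d = 0 := by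
  simp only [DD, det3, PiLp.sub_apply]; ring

lemma sg_three {t : ℕ} {r1 r2 r3 : ℝ} (h1 : Sg t r1) (h2 : Sg (t + 1) r2) (h3 : Sg t r3)
    (h : r1 - r2 + r3 = 0) : False := by
  unfold Sg at *
  rcases h1 with ⟨a, b⟩ | ⟨a, b⟩ <;> rcases h2 with ⟨c, d⟩ | ⟨c, d⟩ <;>
    rcases h3 with ⟨e, f⟩ | ⟨e, f⟩ <;> first | omega | linarith

lemma sg_five {t : ℕ} {r1 r2 r3 r4 r5 : ℝ} (h1 : Sg t r1) (h2 : Sg (t + 1) r2) (h3 : Sg t r3)
    (h4 : Sg (t + 1) r4) (h5 : Sg t r5) (h : r1 - r2 + r3 - r4 + r5 = 0) : False := by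
  unfold Sg at *
  rcases Nat.mod_two_eq_zero_or_one t with ht | ht
  · have ht' : (t + 1) % 2 = 1 := by omega
    simp only [ht, ht', zero_ne_one, one_ne_zero, false_and, true_and, or_false, false_or] at *
    linarith
  · have ht' : (t + 1) % 2 = 0 := by omega
    simp only [ht, ht', zero_ne_one, one_ne_zero, false_and, true_and, or_false, false_or] at *
    linarith

lemma beqf {a b : ℕ} : Nat.beq a b = false ↔ a ≠ b := by
  rw [← Bool.not_eq_true, Nat.beq_eq]

lemma ok6_iff {x y a b c d : ℕ} (h : ok6 x y a b c d = true) :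
    x < 8 ∧ y < 8 ∧ a < 8 ∧ b < 8 ∧ c < 8 ∧ d < 8 ∧ x ≠ y ∧ x ≠ a ∧ x ≠ b ∧ x ≠ c ∧ x ≠ d ∧
    y ≠ a ∧ y ≠ b ∧ y ≠ c ∧ y ≠ d ∧ a ≠ b ∧ a ≠ c ∧ a ≠ d ∧ b ≠ c ∧ b ≠ d ∧ c ≠ d := by
  simp only [ok6, Bool.and_eq_true, Bool.not_eq_true', Nat.blt_eq, beqf] at h
  tauto

lemma ok5_iff {a b c d e : ℕ} (h : ok5 a b c d e = true) :
    a < 8 ∧ b < 8 ∧ c < 8 ∧ d < 8 ∧ e < 8 ∧ a ≠ b ∧ a ≠ c ∧ a ≠ d ∧ a ≠ e ∧ b ≠ c ∧ b ≠ d ∧
    b ≠ e ∧ c ≠ d ∧ c ≠ e ∧ d ≠ e := by
  simp only [ok5, Bool.and_eq_true, Bool.not_eq_true', Nat.blt_eq, beqf] at h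
  tauto

lemma ok3_iff {a b c : ℕ} (h : ok3 a b c = true) :
    a < 8 ∧ b < 8 ∧ c < 8 ∧ a ≠ b ∧ a ≠ c ∧ b ≠ c := by
  simp only [ok3, Bool.and_eq_true, Bool.not_eq_true', Nat.blt_eq, beqf] at h
  tauto

section
variable {p : ℕ → E3}

lemma gp_sat (hp : GP p) {x y a b c d : ℕ} (t i j k : ℕ) (h : ok6 x y a b c d = true) :
    ∃ l ∈ gp x y a b c d t i j k, T p l := by
  by_contra hc
  push Not at hc
  have h6 := ok6_iff h
  have key : ∀ l, neg l ∈ gp x y a b c d t i j k → T p l := by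
    intro l hl
    by_contra hT
    exact hc _ hl ((T_neg p l).2 hT)
  have d1 : Di x y a b := by unfold Di; tauto
  have d2 : Di x y c d := by unfold Di; tauto
  have d3 : Di x y a c := by unfold Di; tauto
  have d4 : Di x y b d := by unfold Di; tauto
  have d5 : Di x y a d := by unfold Di; tauto
  have d6 : Di x y b c := by unfold Di; tauto
  have s1 := (T_l1 hp d1).1 (key (l1 i x y a b) (by simp [gp]))
  have s2 := (T_l1 hp d2).1 (key (l1 (t + i) x y c d) (by simp [gp]))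
  have s3 := (T_l1 hp d3).1 (key (l1 j x y a c) (by simp [gp]))
  have s4 := (T_l1 hp d4).1 (key (l1 (t + 1 + j) x y b d) (by simp [gp]))
  have s5 := (T_l1 hp d5).1 (key (l1 k x y a d) (by simp [gp]))
  have s6 := (T_l1 hp d6).1 (key (l1 (t + k) x y b c) (by simp [gp]))
  have m1 : Sg t (D p x y a b * D p x y c d) := Sg_congr (Sg_mul s1 s2) (by omega)
  have m2 : Sg (t + 1) (D p x y a c * D p x y b d) := Sg_congr (Sg_mul s3 s4) (by omega)
  have m3 : Sg t (D p x y a d * D p x y b c) := Sg_congr (Sg_mul s5 s6) (by omega)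
  exact sg_three m1 m2 m3 (gp_id _ _ _ _ _ _)

lemma ac_sat (hp : GP p) {a b c d e : ℕ} (t : ℕ) (h : ok5 a b c d e = true) :
    ∃ l ∈ ac a b c d e t, T p l := by
  by_contra hc
  push Not at hc
  have h6 := ok5_iff h
  have key : ∀ l, neg l ∈ ac a b c d e t → T p l := by
    intro l hl
    by_contra hT
    exact hc _ hl ((T_neg p l).2 hT)
  have d1 : Di b c d e := by unfold Di; tauto
  have d2 : Di a c d e := by unfold Di; tauto
  have d3 : Di a b d e := by unfold Di; tauto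
  have d4 : Di a b c e := by unfold Di; tauto
  have d5 : Di a b c d := by unfold Di; tauto
  have s1 := (T_l1 hp d1).1 (key (l1 t b c d e) (by simp [ac]))
  have s2 := (T_l1 hp d2).1 (key (l1 (t + 1) a c d e) (by simp [ac]))
  have s3 := (T_l1 hp d3).1 (key (l1 t a b d e) (by simp [ac]))
  have s4 := (T_l1 hp d4).1 (key (l1 (t + 1) a b c e) (by simp [ac]))
  have s5 := (T_l1 hp d5).1 (key (l1 t a b c d) (by simp [ac]))
  exact sg_five s1 s2 s3 s4 s5 (ac_id _ _ _ _ _)

/-- the linear functional `x ↦ det3 x v w` -/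
def dl1 (v w : E3) : E3 →ₗ[ℝ] ℝ where
  toFun x := det3 x v w
  map_add' x y := by simp only [det3, PiLp.add_apply]; ring
  map_smul' c x := by simp only [det3, PiLp.smul_apply, smul_eq_mul, RingHom.id_apply]; ring

lemma dl1_apply (v w x : E3) : dl1 v w x = det3 x v w := rfl

open Filter Topology in
lemma wit (hp : GP p) {A a b c t : ℕ} (ha : a < 8) (hb : b < 8) (hc : c < 8) (hab : a ≠ b)
    (hac : a ≠ c) (hbc : b ≠ c)
    (h : ∀ d, d < 8 → d ≠ a → d ≠ b → d ≠ c → Sg (cond (tb A d) t (t + 1)) (D p a b c d)) :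
    Sep p A := by
  obtain ⟨e, he, hea, heb, hec⟩ : ∃ e, e < 8 ∧ e ≠ a ∧ e ≠ b ∧ e ≠ c := by
    by_cases h0 : 0 ≠ a ∧ 0 ≠ b ∧ 0 ≠ c
    · exact ⟨0, by omega, h0.1, h0.2.1, h0.2.2⟩
    by_cases h1 : 1 ≠ a ∧ 1 ≠ b ∧ 1 ≠ c
    · exact ⟨1, by omega, h1.1, h1.2.1, h1.2.2⟩
    by_cases h2 : 2 ≠ a ∧ 2 ≠ b ∧ 2 ≠ c
    · exact ⟨2, by omega, h2.1, h2.2.1, h2.2.2⟩
    exact ⟨3, by omega, by omega, by omega, by omega⟩
  set vb := p b - p a with hvb
  set vc := p c - p a with hvc
  set ve := p e - p a with hve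
  have hD : det3 vb vc ve ≠ 0 := hp a b c e (by unfold Di; refine ⟨ha, hb, hc, he, hab, hac, ?_, hbc, ?_, ?_⟩ <;> omega)
  set Δ := det3 vb vc ve with hΔ
  let s : ℕ → ℝ := fun i => if tb A i = true then 1 else -1
  let sg : ℝ := if t % 2 = 0 then 1 else -1
  -- linear parts
  let f0 : E3 →ₗ[ℝ] ℝ := sg • dl1 vb vc
  let g : E3 →ₗ[ℝ] ℝ := ((s b - s a) / Δ) • dl1 vc ve + (-((s c - s a) / Δ)) • dl1 vb ve
  let F : ℝ → E3 → ℝ := fun ε x => f0 (x - p a) + ε * (s a + g (x - p a))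
  have hF : ∀ ε x, F ε x = (f0 + ε • g) x - ((f0 + ε • g) (p a) - ε * s a) := by
    intro ε x
    simp only [F, map_sub, LinearMap.add_apply, LinearMap.smul_apply, smul_eq_mul]
    ring
  have z1 : ∀ u v : E3, det3 0 u v = 0 := by intro u v; simp [det3]
  have z2 : ∀ u v : E3, det3 u u v = 0 := by intro u v; simp only [det3]; ring
  have z3 : ∀ u v : E3, det3 u v u = 0 := by intro u v; simp only [det3]; ring
  have z4 : det3 vc vb ve = -Δ := by simp only [hΔ, det3]; ring
  have Fa : ∀ ε, F ε (p a) = ε * s a := by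
    intro ε; simp [F]
  have Fb : ∀ ε, F ε (p b) = ε * s b := by
    intro ε
    have e1 : f0 (p b - p a) = 0 := by
      simp only [f0, LinearMap.smul_apply, dl1_apply, ← hvb, z2, smul_zero]
    have e2 : g (p b - p a) = s b - s a := by
      simp only [g, LinearMap.add_apply, LinearMap.smul_apply, dl1_apply, ← hvb, z2, smul_eq_mul,
        mul_zero, add_zero]
      rw [← hΔ, div_mul_cancel₀ _ hD]
    simp only [F, e1, e2]; ring
  have Fc : ∀ ε, F ε (p c) = ε * s c := by
    intro ε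
    have e1 : f0 (p c - p a) = 0 := by
      simp only [f0, LinearMap.smul_apply, dl1_apply, ← hvc, z3, smul_zero]
    have e2 : g (p c - p a) = s c - s a := by
      simp only [g, LinearMap.add_apply, LinearMap.smul_apply, dl1_apply, ← hvc, z2, smul_eq_mul,
        mul_zero, zero_add, z4]
      rw [neg_mul_neg, div_mul_cancel₀ _ hD]
    simp only [F, e1, e2]; ring
  have hs1 : ∀ i, tb A i = true → s i = 1 := by intro i hi; simp [s, hi]
  have hs2 : ∀ i, tb A i = false → s i = -1 := by intro i hi; simp [s, hi]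
  have f0d : ∀ d, f0 (p d - p a) = sg * D p a b c d := by
    intro d
    simp only [f0, LinearMap.smul_apply, dl1_apply, smul_eq_mul, D, DD]
    congr 1
    simp only [det3, hvb, hvc]; ring
  have ev : ∀ i ∈ Finset.range 8, ∀ᶠ ε in 𝓝[>] (0 : ℝ),
      (tb A i = true → 0 < F ε (p i)) ∧ (tb A i = false → F ε (p i) < 0) := by
    intro i hi
    rw [Finset.mem_range] at hi
    have key : ∀ j, (∀ ε, F ε (p j) = ε * s j) → ∀ᶠ ε in 𝓝[>] (0 : ℝ),
        (tb A j = true → 0 < F ε (p j)) ∧ (tb A j = false → F ε (p j) < 0) := by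
      intro j hj
      filter_upwards [self_mem_nhdsWithin] with ε hε
      rw [Set.mem_Ioi] at hε
      rw [hj]
      refine ⟨fun h1 => by rw [hs1 j h1]; linarith, fun h1 => by rw [hs2 j h1]; linarith⟩
    by_cases ia : i = a
    · rw [ia]; exact key a Fa
    by_cases ib : i = b
    · rw [ib]; exact key b Fb
    by_cases ic : i = c
    · rw [ic]; exact key c Fc
    have hlim : Tendsto (fun ε => F ε (p i)) (𝓝[>] (0 : ℝ)) (𝓝 (sg * D p a b c i)) := by
      have h1 : Continuous (fun ε => F ε (p i)) := by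
        simp only [F]; fun_prop
      have h2 := h1.tendsto 0
      have h3 : F 0 (p i) = sg * D p a b c i := by
        simp only [F, zero_mul, add_zero, f0d]
      rw [h3] at h2
      exact h2.mono_left nhdsWithin_le_nhds
    have hsg := h i hi ia ib ic
    cases hA : tb A i
    · rw [hA] at hsg
      simp only [cond_false] at hsg
      have hneg : sg * D p a b c i < 0 := by
        unfold Sg at hsg
        rcases hsg with ⟨h1, h2⟩ | ⟨h1, h2⟩
        · have : ¬ (t % 2 = 0) := by omega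
          simp only [sg, this, if_false]; linarith
        · have : t % 2 = 0 := by omega
          simp only [sg, this, if_true]; linarith
      filter_upwards [hlim.eventually (gt_mem_nhds hneg)] with ε hε
      exact ⟨fun h => by simp at h, fun _ => hε⟩
    · rw [hA] at hsg
      simp only [cond_true] at hsg
      have hpos : 0 < sg * D p a b c i := by
        unfold Sg at hsg
        rcases hsg with ⟨h1, h2⟩ | ⟨h1, h2⟩
        · simp only [sg, h1, if_true]; linarith
        · have : ¬ (t % 2 = 0) := by omega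
          simp only [sg, this, if_false]; linarith
      filter_upwards [hlim.eventually (lt_mem_nhds hpos)] with ε hε
      exact ⟨fun _ => hε, fun h => by simp at h⟩
  obtain ⟨ε, hε⟩ := ((Filter.eventually_all_finset (Finset.range 8)).2 ev).exists
  refine ⟨f0 + ε • g, (f0 + ε • g) (p a) - ε * s a, fun i hi => ?_⟩
  have h1 := hε i (Finset.mem_range.2 hi)
  rw [hF] at h1
  refine ⟨fun h2 => by linarith [h1.1 h2], fun h2 => by linarith [h1.2 h2]⟩

end

end Pool.Agent.X158.Sep8
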