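import Pool.Agent.X158.Sep8Chk

set_option autoImplicit false

namespace Pool.Agent.X158.Sep8

abbrev E3 := EuclideanSpace ℝ (Fin 3)

def det3 (u v w : E3) : ℝ :=
  u 0 * (v 1 * w 2 - v 2 * w 1) - u 1 * (v 0 * w 2 - v 2 * w 0) + u 2 * (v 0 * w 1 - v 1 * w 0)

def DD (a b c d : E3) : ℝ := det3 (b - a) (c - a) (d - a)

/-- sign predicate -/
def Sg (s : ℕ) (r : ℝ) : Prop := (s % 2 = 0 ∧ 0 < r) ∨ (s % 2 = 1 ∧ r < 0)

lemma Sg_succ_neg (s : ℕ) (r : ℝ) : Sg (s + 1) (-r) ↔ Sg s r := by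
  unfold Sg
  rcases Nat.mod_two_eq_zero_or_one s with h | h
  · have h2 : (s + 1) % 2 = 1 := by omega
    simp [h, h2]
  · have h2 : (s + 1) % 2 = 0 := by omega
    simp [h, h2]

lemma Sg_mul {s t : ℕ} {r q : ℝ} (h1 : Sg s r) (h2 : Sg t q) : Sg (s + t) (r * q) := by
  unfold Sg at *
  rcases h1 with ⟨a, b⟩ | ⟨a, b⟩ <;> rcases h2 with ⟨c, d⟩ | ⟨c, d⟩
  · left; exact ⟨by omega, mul_pos b d⟩
  · right; exact ⟨by omega, mul_neg_of_pos_of_neg b d⟩
  · right; exact ⟨by omega, mul_neg_of_neg_of_pos b d⟩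
  · left; exact ⟨by omega, mul_pos_of_neg_of_neg b d⟩

lemma Sg_congr {s t : ℕ} {r : ℝ} (h : Sg s r) (e : s % 2 = t % 2) : Sg t r := by
  unfold Sg at *
  rw [e] at h; exact h

section
variable (p : ℕ → E3)

def D (a b c d : ℕ) : ℝ := DD (p a) (p b) (p c) (p d)

def Sep (A : ℕ) : Prop :=
  ∃ (f : E3 →ₗ[ℝ] ℝ) (c : ℝ), ∀ i < 8, (tb A i = true → c < f (p i)) ∧
    (tb A i = false → f (p i) < c)

def V (n : ℕ) : Prop :=
  (n < 4096 ∧ 0 < D p (n / 512 % 8) (n / 64 % 8) (n / 8 % 8) (n % 8)) ∨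
    (4096 ≤ n ∧ Sep p (n - 4096))

def T (l : ℕ) : Prop := (l % 2 = 0 ∧ V p (l / 2)) ∨ (l % 2 = 1 ∧ ¬ V p (l / 2))

lemma T_neg (l : ℕ) : T p (neg l) ↔ ¬ T p l := by
  unfold T neg
  rcases Nat.mod_two_eq_zero_or_one l with h | h
  · have h1 : Nat.beq (l % 2) 0 = true := by rw [h]; rfl
    simp only [h1, cond_true]
    have h2 : (l + 1) % 2 = 1 := by omega
    have h3 : (l + 1) / 2 = l / 2 := by omega
    simp [h, h2, h3]
  · have h1 : Nat.beq (l % 2) 0 = false := by rw [h]; rfl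
    simp only [h1, cond_false]
    have h2 : (l - 1) % 2 = 0 := by omega
    have h3 : (l - 1) / 2 = l / 2 := by omega
    simp [h, h2, h3]

/-- four distinct indices below 8 -/
def Di (a b c d : ℕ) : Prop :=
  a < 8 ∧ b < 8 ∧ c < 8 ∧ d < 8 ∧ a ≠ b ∧ a ≠ c ∧ a ≠ d ∧ b ≠ c ∧ b ≠ d ∧ c ≠ d

/-- general position -/
def GP : Prop := ∀ a b c d, Di a b c d → D p a b c d ≠ 0

variable {p}

lemma T_enc (hp : GP p) {s a b c d : ℕ} (h : Di a b c d) :
    T p (enc s a b c d) ↔ Sg s (D p a b c d) := by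
  obtain ⟨ha, hb, hc, hd, -⟩ := id h
  have h0 := hp a b c d h
  unfold T enc
  have e1 : (2 * (((a * 8 + b) * 8 + c) * 8 + d) + s % 2) / 2 = ((a * 8 + b) * 8 + c) * 8 + d := by
    omega
  have e2 : (2 * (((a * 8 + b) * 8 + c) * 8 + d) + s % 2) % 2 = s % 2 := by omega
  rw [e1, e2]
  unfold V
  have g1 : (((a * 8 + b) * 8 + c) * 8 + d) / 512 % 8 = a := by omega
  have g2 : (((a * 8 + b) * 8 + c) * 8 + d) / 64 % 8 = b := by omega
  have g3 : (((a * 8 + b) * 8 + c) * 8 + d) / 8 % 8 = c := by omega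
  have g4 : (((a * 8 + b) * 8 + c) * 8 + d) % 8 = d := by omega
  have g5 : (((a * 8 + b) * 8 + c) * 8 + d) < 4096 := by omega
  have g6 : ¬ (4096 ≤ (((a * 8 + b) * 8 + c) * 8 + d)) := by omega
  rw [g1, g2, g3, g4]
  simp only [g5, g6, true_and, false_and, or_false, not_lt]
  unfold Sg
  constructor
  · rintro (⟨h1, h2⟩ | ⟨h1, h2⟩)
    · left; exact ⟨h1, h2⟩
    · right; exact ⟨h1, lt_of_le_of_ne h2 h0⟩
  · rintro (⟨h1, h2⟩ | ⟨h1, h2⟩)
    · left; exact ⟨h1, h2⟩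
    · right; exact ⟨h1, h2.le⟩

lemma D_swap_bc (a b c d : ℕ) : D p a c b d = - D p a b c d := by
  simp only [D, DD, det3]; ring
lemma D_swap_bd (a b c d : ℕ) : D p a d c b = - D p a b c d := by
  simp only [D, DD, det3]; ring
lemma D_swap_cd (a b c d : ℕ) : D p a b d c = - D p a b c d := by
  simp only [D, DD, det3]; ring
lemma D_swap_ac (a b c d : ℕ) : D p c b a d = - D p a b c d := by
  simp only [D, DD, det3, PiLp.sub_apply]; ring
lemma D_swap_ab (a b c d : ℕ) : D p b a c d = - D p a b c d := by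
  simp only [D, DD, det3, PiLp.sub_apply]; ring

lemma T_l5 (hp : GP p) {s a b c d : ℕ} (h : Di a b c d) :
    T p (l5 s a b c d) ↔ Sg s (D p a b c d) := by
  unfold l5
  cases hb : Nat.blt c b
  · exact T_enc hp h
  · simp only [cond_true]
    rw [T_enc hp (by unfold Di at *; tauto), D_swap_bc, Sg_succ_neg]

lemma T_l4 (hp : GP p) {s a b c d : ℕ} (h : Di a b c d) :
    T p (l4 s a b c d) ↔ Sg s (D p a b c d) := by
  unfold l4
  cases hb : Nat.blt d b
  · exact T_l5 hp h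
  · simp only [cond_true]
    rw [T_l5 hp (by unfold Di at *; simp only [ne_comm] at *; tauto), D_swap_bd, Sg_succ_neg]

lemma T_l3 (hp : GP p) {s a b c d : ℕ} (h : Di a b c d) :
    T p (l3 s a b c d) ↔ Sg s (D p a b c d) := by
  unfold l3
  cases hb : Nat.blt c a
  · exact T_l4 hp h
  · simp only [cond_true]
    rw [T_l4 hp (by unfold Di at *; simp only [ne_comm] at *; tauto), D_swap_ac, Sg_succ_neg]

lemma T_l2 (hp : GP p) {s a b c d : ℕ} (h : Di a b c d) :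
    T p (l2 s a b c d) ↔ Sg s (D p a b c d) := by
  unfold l2
  cases hb : Nat.blt d c
  · exact T_l3 hp h
  · simp only [cond_true]
    rw [T_l3 hp (by unfold Di at *; simp only [ne_comm] at *; tauto), D_swap_cd, Sg_succ_neg]

lemma T_l1 (hp : GP p) {s a b c d : ℕ} (h : Di a b c d) :
    T p (l1 s a b c d) ↔ Sg s (D p a b c d) := by
  unfold l1
  cases hb : Nat.blt b a
  · exact T_l2 hp h
  · simp only [cond_true]
    rw [T_l2 hp (by unfold Di at *; simp only [ne_comm] at *; tauto), D_swap_ab, Sg_succ_neg]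

end

end Pool.Agent.X158.Sep8
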