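import Pool.Agent.X158.Sep8Run

set_option autoImplicit false

namespace Pool.Agent.X158.Sep8

def ip (u v : E3) : ℝ := u 0 * v 0 + u 1 * v 1 + u 2 * v 2

lemma ip_pos {v : E3} (h : v ≠ 0) : 0 < ip v v := by
  by_contra hc
  apply h
  unfold ip at hc
  have a0 := mul_self_nonneg (v 0)
  have a1 := mul_self_nonneg (v 1)
  have a2 := mul_self_nonneg (v 2)
  have b0 : v 0 = 0 := mul_self_eq_zero.1 (by linarith)
  have b1 : v 1 = 0 := mul_self_eq_zero.1 (by linarith)
  have b2 : v 2 = 0 := mul_self_eq_zero.1 (by linarith)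
  ext i
  fin_cases i
  · exact b0
  · exact b1
  · exact b2

lemma ip_det (vb w x y : E3) (h : ip w vb = 0) :
    det3 vb x y * ip w w = det3 vb w y * ip w x - det3 vb w x * ip w y := by
  have h1 : det3 vb x y * ip w w = det3 vb w y * ip w x - det3 vb w x * ip w y
      + det3 w x y * ip w vb := by
    simp only [det3, ip]; ring
  rw [h1, h]; ring

lemma fourth : ∀ a b i : Fin 8, ∃ k, k ≠ a ∧ k ≠ b ∧ k ≠ i := by decide

lemma exists_order (q : Fin 8 → E3) (hinj : Function.Injective q)
    (hq : ∀ i j k l : Fin 8, i ≠ j → i ≠ k → i ≠ l → j ≠ k → j ≠ l → k ≠ l →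
      DD (q i) (q j) (q k) (q l) ≠ 0) :
    ∃ σ : Equiv.Perm (Fin 8), ∀ i j : Fin 8, 2 ≤ i → i < j →
      0 < DD (q (σ 0)) (q (σ 1)) (q (σ i)) (q (σ j)) := by
  classical
  obtain ⟨a, ha⟩ := Finite.exists_max (fun i => ip (q i) (q i))
  let f : Fin 8 → ℝ := fun i => ip (q a) (q a - q i)
  have hf : ∀ i, i ≠ a → 0 < f i := by
    intro i hi
    have h1 : 2 * f i = ip (q a) (q a) - ip (q i) (q i) + ip (q a - q i) (q a - q i) := by
      simp only [f, ip, PiLp.sub_apply]; ring
    have h2 : 0 < ip (q a - q i) (q a - q i) := by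
      apply ip_pos
      rw [sub_ne_zero]
      exact fun h => hi (hinj h).symm
    have := ha i
    linarith
  let y : Fin 8 → E3 := fun i => (1 / f i) • (q i - q a)
  obtain ⟨b, hb, hbmax⟩ := Finset.exists_max_image (Finset.univ.erase a) (fun i => ip (y i) (y i))
    (by
      obtain ⟨k, hk, -, -⟩ := fourth a a a
      exact ⟨k, by simp [hk]⟩)
  have hba : b ≠ a := by simpa using hb
  have hv : ∀ i, i ≠ a → q i - q a = f i • y i := by
    intro i hi
    simp only [y]
    rw [smul_smul, mul_one_div_cancel (hf i hi).ne', one_smul]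
  let w : E3 := -(ip (y b) (y b)) • q a - y b
  let u : Fin 8 → ℝ := fun i => ip w (q i - q a)
  have hu1 : ∀ i, i ≠ a → u i = f i * (ip (y b) (y b) - ip (y b) (y i)) := by
    intro i hi
    have e1 : u i = ip (y b) (y b) * f i - ip (y b) (q i - q a) := by
      simp only [u, w, f, ip, PiLp.sub_apply, PiLp.smul_apply, smul_eq_mul]; ring
    rw [e1, hv i hi]
    simp only [ip, PiLp.smul_apply, smul_eq_mul]; ring
  have hub : u b = 0 := by rw [hu1 b hba]; ring
  have hne : ∀ i, i ≠ a → i ≠ b → y i ≠ y b := by
    intro i hia hib h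
    obtain ⟨k, hka, hkb, hki⟩ := fourth a b i
    apply hq a b i k hba.symm hia.symm hka.symm hib.symm hkb.symm hki.symm
    have e1 := hv i hia
    have e2 := hv b hba
    unfold DD
    rw [e1, e2, h]
    simp only [det3, PiLp.smul_apply, smul_eq_mul]; ring
  have hu : ∀ i, i ≠ a → i ≠ b → 0 < u i := by
    intro i hia hib
    rw [hu1 i hia]
    apply mul_pos (hf i hia)
    have h1 : 2 * (ip (y b) (y b) - ip (y b) (y i)) =
        ip (y b) (y b) - ip (y i) (y i) + ip (y b - y i) (y b - y i) := by
      simp only [ip, PiLp.sub_apply]; ring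
    have h2 : 0 < ip (y b - y i) (y b - y i) := by
      apply ip_pos
      rw [sub_ne_zero]
      exact (hne i hia hib).symm
    have h3 := hbmax i (by simp [hia])
    linarith
  have hw : 0 < ip w w := by
    apply ip_pos
    intro h0
    obtain ⟨k, hka, hkb, -⟩ := fourth a b b
    have := hu k hka hkb
    simp only [u, h0, ip] at this
    simp at this
  set vb := q b - q a with hvb
  let r : Fin 8 → ℝ := fun i => det3 vb w (q i - q a) / u i
  have hdet : ∀ i j, i ≠ a → i ≠ b → j ≠ a → j ≠ b →
      DD (q a) (q b) (q i) (q j) * ip w w = u i * u j * (r j - r i) := by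
    intro i j hia hib hja hjb
    have h1 := ip_det vb w (q i - q a) (q j - q a) hub
    unfold DD
    rw [← hvb, h1]
    have hi := (hu i hia hib).ne'
    have hj := (hu j hja hjb).ne'
    simp only [r]
    field_simp
    simp only [u]
  have hr : ∀ i j, i ≠ a → i ≠ b → j ≠ a → j ≠ b → i ≠ j → r i ≠ r j := by
    intro i j hia hib hja hjb hij h
    have h1 := hdet i j hia hib hja hjb
    rw [h, sub_self, mul_zero] at h1
    rcases mul_eq_zero.1 h1 with h2 | h2
    · exact hq a b i j hba.symm hia.symm hja.symm hib.symm hjb.symm hij h2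
    · exact hw.ne' h2
  obtain ⟨m, hm⟩ := Finite.exists_min r
  let K : Fin 8 → ℝ := fun i => if i = a then r m - 2 else if i = b then r m - 1 else r i
  have Ka : K a = r m - 2 := by simp [K]
  have Kb : K b = r m - 1 := by simp [K, hba]
  have Ki : ∀ i, i ≠ a → i ≠ b → K i = r i := by intro i h1 h2; simp [K, h1, h2]
  have hK : Function.Injective K := by
    intro i j hij
    by_contra hne'
    by_cases hia : i = a
    · subst hia
      by_cases hjb : j = b
      · subst hjb; rw [Ka, Kb] at hij; linarith
      · rw [Ka, Ki j (fun h => hne' h.symm) hjb] at hij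
        linarith [hm j]
    · by_cases hib : i = b
      · subst hib
        by_cases hja : j = a
        · subst hja; rw [Ka, Kb] at hij; linarith
        · rw [Kb, Ki j hja (fun h => hne' h.symm)] at hij
          linarith [hm j]
      · rw [Ki i hia hib] at hij
        by_cases hja : j = a
        · subst hja; rw [Ka] at hij; linarith [hm i]
        · by_cases hjb : j = b
          · subst hjb; rw [Kb] at hij; linarith [hm i]
          · rw [Ki j hja hjb] at hij
            exact hr i j hia hib hja hjb hne' hij
  have hmono : Monotone (K ∘ Tuple.sort K) := Tuple.monotone_sort K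
  have hstr : StrictMono (K ∘ Tuple.sort K) :=
    hmono.strictMono_of_injective (hK.comp (Tuple.sort K).injective)
  have s0 : Tuple.sort K 0 = a := by
    have h1 : K (Tuple.sort K 0) ≤ K a := by
      have := hmono (Fin.zero_le ((Tuple.sort K).symm a))
      simpa using this
    by_contra h
    by_cases hb' : Tuple.sort K 0 = b
    · rw [hb', Ka, Kb] at h1; linarith
    · rw [Ka, Ki _ h hb'] at h1
      linarith [hm (Tuple.sort K 0)]
  have s1 : Tuple.sort K 1 = b := by
    have hj : (1 : Fin 8) ≤ (Tuple.sort K).symm b := by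
      by_contra hlt
      have h0 : (Tuple.sort K).symm b = 0 := by
        rw [not_le] at hlt
        exact Fin.lt_one_iff _ |>.1 hlt
      apply hba
      have : Tuple.sort K ((Tuple.sort K).symm b) = Tuple.sort K 0 := by rw [h0]
      rw [Equiv.apply_symm_apply, s0] at this
      exact this
    have h1 : K (Tuple.sort K 1) ≤ K b := by
      have := hmono hj
      simpa using this
    by_contra h
    by_cases ha' : Tuple.sort K 1 = a
    · have : Tuple.sort K 1 = Tuple.sort K 0 := by rw [ha', s0]
      have := (Tuple.sort K).injective this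
      exact absurd this (by decide)
    · rw [Kb, Ki _ ha' h] at h1
      linarith [hm (Tuple.sort K 1)]
  refine ⟨Tuple.sort K, fun i j hi hij => ?_⟩
  rw [s0, s1]
  have n1 : ∀ k : Fin 8, 2 ≤ k → Tuple.sort K k ≠ a ∧ Tuple.sort K k ≠ b := by
    intro k hk
    constructor
    · intro h
      rw [← s0] at h
      have := (Tuple.sort K).injective h
      subst this
      exact absurd hk (by decide)
    · intro h
      rw [← s1] at h
      have := (Tuple.sort K).injective h
      subst this
      exact absurd hk (by decide)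
  have ni := n1 i hi
  have nj := n1 j (le_trans hi hij.le)
  have h1 := hstr hij
  simp only [Function.comp] at h1
  rw [Ki _ ni.1 ni.2, Ki _ nj.1 nj.2] at h1
  have h2 := hdet _ _ ni.1 ni.2 nj.1 nj.2
  have h3 : 0 < DD (q a) (q b) (q (Tuple.sort K i)) (q (Tuple.sort K j)) * ip w w := by
    rw [h2]
    exact mul_pos (mul_pos (hu _ ni.1 ni.2) (hu _ nj.1 nj.2)) (by linarith)
  exact (pos_iff_pos_of_mul_pos h3).2 hw

end Pool.Agent.X158.Sep8
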