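import Pool.Agent.X158.Sep8Cl

set_option autoImplicit false

namespace Pool.Agent.X158.Sep8

lemma tb_eq (m l : ℕ) : tb m l = m.testBit l := by
  unfold tb
  rw [Nat.testBit_eq_decide_div_mod_eq, Nat.shiftRight_eq_div_pow]
  by_cases h : m / 2 ^ l % 2 = 1
  · simp [h]
  · rw [beqf.2 h]; simp [h]

lemma tb_or (m n l : ℕ) : tb (m ||| (1 <<< n)) l = true ↔ tb m l = true ∨ l = n := by
  rw [tb_eq, tb_eq, Nat.testBit_or, Nat.one_shiftLeft, Nat.testBit_two_pow]
  simp only [Bool.or_eq_true, decide_eq_true_eq]
  constructor
  · rintro (h | h)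
    · exact Or.inl h
    · exact Or.inr h.symm
  · rintro (h | h)
    · exact Or.inl h
    · exact Or.inr h.symm

section
variable {p : ℕ → E3}

/-- all literals in the mask are false -/
def Inv (p : ℕ → E3) (m : ℕ) : Prop := ∀ l, tb m l = true → ¬ T p l

lemma Inv_or {m n : ℕ} (h : Inv p m) (hn : ¬ T p n) : Inv p (m ||| (1 <<< n)) := by
  intro l hl
  rcases (tb_or m n l).1 hl with h1 | h1
  · exact h l h1
  · rw [h1]; exact hn

lemma T_sepl (A : ℕ) : T p (sepl A) ↔ Sep p A := by
  unfold T sepl V
  have e1 : 2 * (4096 + A) / 2 = 4096 + A := by omega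
  have e2 : 2 * (4096 + A) % 2 = 0 := by omega
  have e3 : 4096 + A - 4096 = A := by omega
  have e4 : ¬ (4096 + A < 4096) := by omega
  rw [e1, e2, e3]
  simp [e4]

lemma wl_mem (A a b c t : ℕ) : ∀ k d, d < k → d ≠ a → d ≠ b → d ≠ c →
    neg (l1 (cond (tb A d) t (t + 1)) a b c d) ∈ wl A a b c t k := by
  intro k
  induction k with
  | zero => intro d hd; omega
  | succ k ih =>
    intro d hd ha hb hc
    unfold wl
    by_cases hk : d = k
    · subst hk
      have h : (Nat.beq d a || Nat.beq d b || Nat.beq d c) = false := by
        rw [beqf.2 ha, beqf.2 hb, beqf.2 hc]; rfl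
      rw [h]
      simp
    · have h1 := ih d (by omega) ha hb hc
      cases (Nat.beq k a || Nat.beq k b || Nat.beq k c)
      · simp only [cond_false]; exact List.mem_cons_of_mem _ h1
      · exact h1

lemma wl_mem0 (A a b c t : ℕ) : ∀ k, sepl A ∈ wl A a b c t k := by
  intro k
  induction k with
  | zero => simp [wl]
  | succ k ih =>
    unfold wl
    cases (Nat.beq k a || Nat.beq k b || Nat.beq k c)
    · simp only [cond_false]; exact List.mem_cons_of_mem _ ih
    · exact ih

lemma wl_sat (hp : GP p) {A a b c : ℕ} (t : ℕ) (h : ok3 a b c = true) :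
    ∃ l ∈ wl A a b c t 8, T p l := by
  by_contra hc
  push Not at hc
  obtain ⟨ha, hb, hc', hab, hac, hbc⟩ := ok3_iff h
  have hS : ¬ Sep p A := fun hS => hc _ (wl_mem0 A a b c t 8) ((T_sepl A).2 hS)
  apply hS
  refine wit hp ha hb hc' hab hac hbc (t := t) ?_
  intro d hd h1 h2 h3
  have hm := wl_mem A a b c t 8 d hd h1 h2 h3
  by_contra hT
  apply hc _ hm
  rw [T_neg]
  intro hT'
  exact hT ((T_l1 hp (by unfold Di; refine ⟨ha, hb, hc', hd, hab, hac, ?_, hbc, ?_, ?_⟩ <;> omega)).1 hT')

/-- no valid triple of separable masks -/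
def NoT (p : ℕ → E3) : Prop :=
  ∀ A B C, okT A B C = true → Sep p A → Sep p B → Sep p C → False

lemma clause_sat (hp : GP p) (hN : NoT p) {h : ℕ} {c : List ℕ} (hc : clause h = some c) :
    ∃ l ∈ c, T p l := by
  unfold clause at hc
  simp only at hc
  cases h0 : Nat.beq (h % 4) 0
  · rw [h0] at hc
    simp only [cond_false] at hc
    cases h1 : Nat.beq (h % 4) 1
    · rw [h1] at hc
      simp only [cond_false] at hc
      cases h2 : Nat.beq (h % 4) 2
      · rw [h2] at hc
        simp only [cond_false] at hc
        cases h3 : okT (h / 4 / 65536) (h / 4 / 256 % 256) (h / 4 % 256)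
        · rw [h3] at hc; simp at hc
        · rw [h3] at hc
          simp only [cond_true, Option.some.injEq] at hc
          subst hc
          by_contra hcc
          push Not at hcc
          have key : ∀ A, neg (sepl A) ∈ [neg (sepl (h / 4 / 65536)), neg (sepl (h / 4 / 256 % 256)),
              neg (sepl (h / 4 % 256))] → Sep p A := by
            intro A hA
            by_contra hS
            apply hcc _ hA
            rw [T_neg, T_sepl]; exact hS
          exact hN _ _ _ h3 (key _ (by simp)) (key _ (by simp)) (key _ (by simp))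
      · rw [h2] at hc
        simp only [cond_true] at hc
        cases h3 : ok3 (h / 4 / 2 / 64 % 8) (h / 4 / 2 / 8 % 8) (h / 4 / 2 % 8)
        · rw [h3] at hc; simp at hc
        · rw [h3] at hc
          simp only [cond_true, Option.some.injEq] at hc
          subst hc
          exact wl_sat hp _ h3
    · rw [h1] at hc
      simp only [cond_true] at hc
      cases h3 : ok5 (h / 4 / 2 / 4096 % 8) (h / 4 / 2 / 512 % 8) (h / 4 / 2 / 64 % 8)
          (h / 4 / 2 / 8 % 8) (h / 4 / 2 % 8)
      · rw [h3] at hc; simp at hc
      · rw [h3] at hc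
        simp only [cond_true, Option.some.injEq] at hc
        subst hc
        exact ac_sat hp _ h3
  · rw [h0] at hc
    simp only [cond_true] at hc
    cases h3 : ok6 (h / 4 / 8 / 2 / 32768 % 8) (h / 4 / 8 / 2 / 4096 % 8) (h / 4 / 8 / 2 / 512 % 8)
        (h / 4 / 8 / 2 / 64 % 8) (h / 4 / 8 / 2 / 8 % 8) (h / 4 / 8 / 2 % 8)
    · rw [h3] at hc; simp at hc
    · rw [h3] at hc
      simp only [cond_true, Option.some.injEq] at hc
      subst hc
      exact gp_sat hp _ _ _ _ h3

lemma unf_mem {m : ℕ} {c : List ℕ} {l : ℕ} (h1 : l ∈ c) (h2 : tb m l ≠ true) : l ∈ unf m c := by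
  induction c with
  | nil => simp at h1
  | cons a c ih =>
    unfold unf
    rcases List.mem_cons.1 h1 with h | h
    · subst h
      have : tb m l = false := by simpa using h2
      rw [this]; simp
    · have := ih h
      cases tb m a
      · simp only [cond_false]; exact List.mem_cons_of_mem _ this
      · exact this

lemma leaf_sound (hp : GP p) (hN : NoT p) : ∀ (hs : List ℕ) (m : ℕ), Inv p m → leaf m hs = true → False := by
  intro hs
  induction hs with
  | nil => intro m _ h; simp [leaf] at h
  | cons h t ih =>
    intro m hm hl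
    unfold leaf at hl
    cases hc : clause h with
    | none => rw [hc] at hl; simp at hl
    | some c =>
      rw [hc] at hl
      simp only at hl
      obtain ⟨l, hlc, hT⟩ := clause_sat hp hN hc
      have hmem : l ∈ unf m c := unf_mem hlc (fun h2 => hm l h2 hT)
      cases hu : unf m c with
      | nil => rw [hu] at hmem; simp at hmem
      | cons l' r =>
        cases r with
        | nil =>
          rw [hu] at hl hmem
          simp only [List.mem_singleton] at hmem
          subst hmem
          simp only at hl
          exact ih _ (Inv_or hm (by rw [T_neg]; exact not_not.2 hT)) hl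
        | cons l'' r' =>
          rw [hu] at hl
          simp at hl

lemma run_sound (hp : GP p) (hN : NoT p) : ∀ (k m : ℕ) (L : List (List ℕ)), Inv p m →
    (run k m L).isSome = true → False := by
  intro k
  induction k with
  | zero => intro m L _ h; simp [run] at h
  | succ k ih =>
    intro m L hm h
    cases L with
    | nil => simp [run] at h
    | cons a rest =>
      cases a with
      | nil => simp [run] at h
      | cons f hs =>
        cases f with
        | zero =>
          cases hs with
          | nil => simp [run] at h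
          | cons l tl =>
            simp only [run] at h
            by_cases hT : T p l
            · have h1 : Inv p (m ||| (1 <<< neg l)) := Inv_or hm (by rw [T_neg]; exact not_not.2 hT)
              cases hr : run k (m ||| (1 <<< neg l)) rest with
              | none => rw [hr] at h; simp at h
              | some r => exact ih _ _ h1 (by rw [hr]; rfl)
            · have h1 : Inv p (m ||| (1 <<< l)) := Inv_or hm hT
              cases hr : run k (m ||| (1 <<< neg l)) rest with
              | none => rw [hr] at h; simp at h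
              | some r => rw [hr] at h; exact ih _ _ h1 h
        | succ f =>
          simp only [run] at h
          cases hl : leaf m hs
          · rw [hl] at h; simp at h
          · exact leaf_sound hp hN hs m hm hl

lemma Inv_zero : Inv p 0 := by
  intro l h
  rw [tb_eq] at h
  simp at h

lemma Inv_m0 (hp : GP p) (h : ∀ i j, 2 ≤ i → i < j → j < 8 → 0 < D p 0 1 i j) : Inv p m0 := by
  have key : ∀ i j, 2 ≤ i → i < j → j < 8 → ¬ T p (neg (enc 0 0 1 i j)) := by
    intro i j h1 h2 h3
    rw [T_neg, T_enc hp (by unfold Di; omega)]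
    apply not_not.2
    left
    exact ⟨rfl, h i j h1 h2 h3⟩
  have h0 : Inv p (1 <<< neg (enc 0 0 1 2 3)) := by
    have := Inv_or (p := p) Inv_zero (key 2 3 (by norm_num) (by norm_num) (by norm_num))
    rwa [Nat.zero_or] at this
  unfold m0
  refine Inv_or (Inv_or (Inv_or (Inv_or (Inv_or (Inv_or (Inv_or (Inv_or (Inv_or (Inv_or (Inv_or
    (Inv_or (Inv_or (Inv_or h0 ?_) ?_) ?_) ?_) ?_) ?_) ?_) ?_) ?_) ?_) ?_) ?_) ?_) ?_ <;>
    exact key _ _ (by norm_num) (by norm_num) (by norm_num)

end

end Pool.Agent.X158.Sep8
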